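import Pool.Agent.Helper75.Sidon.Defs

/-! Models of finite abelian groups by `V × [0, M)`. -/

namespace Pool.Agent.Helper75.Sidon

/-- Monotonicity in `M`. -/
theorem Model.mono {p : ℕ} {G : Type*} [AddCommGroup G] {a M M' : ℕ} (h : Model p G a M)
    (hM : M' ≤ M) : Model p G a M' := by
  obtain ⟨V, i1, i2, i3, hV, g, hg⟩ := h
  refine ⟨V, i1, i2, i3, hV, g, ?_⟩
  intro w x y z hw hx hy hz
  have : (M' : ℤ) ≤ M := by exact_mod_cast hM
  exact hg w x y z ⟨hw.1, lt_of_lt_of_le hw.2 this⟩ ⟨hx.1, lt_of_lt_of_le hx.2 this⟩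
    ⟨hy.1, lt_of_lt_of_le hy.2 this⟩ ⟨hz.1, lt_of_lt_of_le hz.2 this⟩

/-- Transport along an injective homomorphism. -/
theorem Model.map {p : ℕ} {G H : Type*} [AddCommGroup G] [AddCommGroup H] {a M : ℕ}
    (h : Model p G a M) (f : G →+ H) (hf : Function.Injective f) : Model p H a M := by
  obtain ⟨V, i1, i2, i3, hV, g, hg⟩ := h
  refine ⟨V, i1, i2, i3, hV, fun x => f (g x), ?_⟩
  intro w x y z hw hx hy hz e
  apply hg w x y z hw hx hy hz
  apply hf
  simpa using e

/-- The trivial group. -/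
theorem model_subsingleton (p : ℕ) (G : Type*) [AddCommGroup G] : Model p G 0 1 := by
  refine ⟨PUnit, inferInstance, inferInstance, inferInstance, by simp, fun _ => 0, ?_⟩
  intro w x y z hw hx hy hz _
  refine Prod.ext (Subsingleton.elim _ _) ?_
  simp only [Prod.snd_add]
  have := hw.1; have := hw.2; have := hx.1; have := hx.2
  have := hy.1; have := hy.2; have := hz.1; have := hz.2
  push_cast at *
  omega

/-- Box in a cyclic group of odd order. -/
theorem model_box (p m : ℕ) (hm : Odd m) : Model p (ZMod m) 0 ((m + 1) / 2) := by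
  refine ⟨PUnit, inferInstance, inferInstance, inferInstance, by simp, fun x => (x.2 : ZMod m), ?_⟩
  intro w x y z hw hx hy hz e
  refine Prod.ext (Subsingleton.elim _ _) ?_
  simp only [Prod.snd_add]
  obtain ⟨k, rfl⟩ := hm
  have hk : (2 * k + 1 + 1) / 2 = k + 1 := by omega
  rw [hk] at hw hx hy hz
  push_cast at hw hx hy hz
  have e' : ((w.2 + x.2 : ℤ) : ZMod (2 * k + 1)) = ((y.2 + z.2 : ℤ) : ZMod (2 * k + 1)) := by
    push_cast
    exact e
  rw [ZMod.intCast_eq_intCast_iff_dvd_sub] at e'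
  obtain ⟨t, ht⟩ := e'
  push_cast at ht
  have ht0 : t = 0 := by
    by_contra hne
    rcases lt_or_gt_of_ne hne with h | h
    · nlinarith [hw.1, hw.2, hx.1, hx.2, hy.1, hy.2, hz.1, hz.2]
    · nlinarith [hw.1, hw.2, hx.1, hx.2, hy.1, hy.2, hz.1, hz.2]
  rw [ht0] at ht
  linarith

/-- Full fibres in a cyclic group of order `p * L`. -/
theorem model_full (p L : ℕ) [Fact p.Prime] (hL : Odd L) :
    Model p (ZMod (p * L)) 1 ((L + 1) / 2) := by
  refine ⟨ZMod p, inferInstance, inferInstance, inferInstance, by simp,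
    fun x => ((x.2 + L * (x.1.val : ℤ) : ℤ) : ZMod (p * L)), ?_⟩
  intro w x y z hw hx hy hz e
  obtain ⟨k, rfl⟩ := hL
  have hk : (2 * k + 1 + 1) / 2 = k + 1 := by omega
  rw [hk] at hw hx hy hz
  push_cast at hw hx hy hz
  have e' : (((w.2 + (2 * k + 1 : ℕ) * (w.1.val : ℤ)) + (x.2 + (2 * k + 1 : ℕ) * (x.1.val : ℤ)) : ℤ) :
      ZMod (p * (2 * k + 1))) =
      (((y.2 + (2 * k + 1 : ℕ) * (y.1.val : ℤ)) + (z.2 + (2 * k + 1 : ℕ) * (z.1.val : ℤ)) : ℤ) :
      ZMod (p * (2 * k + 1))) := by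
    have := e
    push_cast at this ⊢
    exact this
  rw [ZMod.intCast_eq_intCast_iff_dvd_sub] at e'
  obtain ⟨t, ht⟩ := e'
  push_cast at ht
  -- integer parts agree
  have h1 : (2 * (k : ℤ) + 1) ∣ (y.2 + z.2) - (w.2 + x.2) := by
    refine ⟨p * t - ((y.1.val : ℤ) + z.1.val - w.1.val - x.1.val), ?_⟩
    linear_combination ht
  obtain ⟨s, hs⟩ := h1
  have hs0 : s = 0 := by
    by_contra hne
    rcases lt_or_gt_of_ne hne with h | h
    · nlinarith [hw.1, hw.2, hx.1, hx.2, hy.1, hy.2, hz.1, hz.2]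
    · nlinarith [hw.1, hw.2, hx.1, hx.2, hy.1, hy.2, hz.1, hz.2]
  rw [hs0] at hs
  have h2 : w.2 + x.2 = y.2 + z.2 := by linarith
  have h3 : ((y.1.val : ℤ) + z.1.val) - ((w.1.val : ℤ) + x.1.val) = p * t := by
    have hpos : (2 * (k : ℤ) + 1) ≠ 0 := by positivity
    apply mul_left_cancel₀ hpos
    linear_combination ht - h2.symm
  refine Prod.ext ?_ (by simpa using h2)
  simp only [Prod.fst_add]
  have h4 : (((w.1.val : ℤ) + x.1.val : ℤ) : ZMod p) = (((y.1.val : ℤ) + z.1.val : ℤ) : ZMod p) := by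
    rw [ZMod.intCast_eq_intCast_iff_dvd_sub]
    exact ⟨t, h3⟩
  push_cast at h4
  simpa using h4

/-- Products of models. -/
theorem Model.prod {p : ℕ} {G H : Type*} [AddCommGroup G] [AddCommGroup H] {a b M N : ℕ}
    (h1 : Model p G a M) (h2 : Model p H b N) : Model p (G × H) (a + b) (M * N) := by
  obtain ⟨V, i1, i2, i3, hV, g, hg⟩ := h1
  obtain ⟨W, j1, j2, j3, hW, f, hf⟩ := h2
  refine ⟨V × W, inferInstance, inferInstance, inferInstance, by
    rw [Fintype.card_prod, hV, hW, pow_add],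
    fun x => (g (x.1.1, x.2 % M), f (x.1.2, x.2 / M)), ?_⟩
  intro w x y z hw hx hy hz e
  rcases Nat.eq_zero_or_pos M with hM0 | hM0
  · subst hM0
    exfalso
    have := hw.1; have := hw.2
    simp at this
    omega
  have hMp : (0 : ℤ) < M := by exact_mod_cast hM0
  have e1 := congrArg Prod.fst e
  have e2 := congrArg Prod.snd e
  simp only [Prod.fst_add, Prod.snd_add] at e1 e2
  have box : ∀ u : ℤ, 0 ≤ u → u < (M * N : ℕ) → (0 ≤ u % M ∧ u % M < M) ∧
      (0 ≤ u / M ∧ u / M < N) := by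
    intro u hu0 hu1
    refine ⟨⟨Int.emod_nonneg _ hMp.ne', Int.emod_lt_of_pos _ hMp⟩,
      Int.ediv_nonneg hu0 hMp.le, ?_⟩
    apply Int.ediv_lt_of_lt_mul hMp
    push_cast at hu1
    linarith
  obtain ⟨bw1, bw2⟩ := box _ hw.1 hw.2
  obtain ⟨bx1, bx2⟩ := box _ hx.1 hx.2
  obtain ⟨by1, by2⟩ := box _ hy.1 hy.2
  obtain ⟨bz1, bz2⟩ := box _ hz.1 hz.2
  have r1 := hg (w.1.1, w.2 % M) (x.1.1, x.2 % M) (y.1.1, y.2 % M) (z.1.1, z.2 % M)
    bw1 bx1 by1 bz1 e1
  have r2 := hf (w.1.2, w.2 / M) (x.1.2, x.2 / M) (y.1.2, y.2 / M) (z.1.2, z.2 / M)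
    bw2 bx2 by2 bz2 e2
  simp only [Prod.mk_add_mk, Prod.mk.injEq] at r1 r2
  have q : ∀ u : ℤ, u = u % M + M * (u / M) := fun u => (Int.emod_add_mul_ediv u M).symm
  refine Prod.ext (Prod.ext ?_ ?_) ?_
  · simpa using r1.1
  · simpa using r2.1
  · simp only [Prod.snd_add]
    rw [q w.2, q x.2, q y.2, q z.2]
    linear_combination r1.2 + (M : ℤ) * r2.2

/-- Finite products of models. -/
theorem model_pi {p : ℕ} (R : ℕ) (G : Fin R → Type) [∀ j, AddCommGroup (G j)] (a M : Fin R → ℕ)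
    (h : ∀ j, Model p (G j) (a j) (M j)) :
    Model p (∀ j, G j) (∑ j, a j) (∏ j, M j) := by
  induction R with
  | zero => simpa using model_subsingleton p (∀ j : Fin 0, G j)
  | succ n ih =>
    rw [Fin.sum_univ_succ, Fin.prod_univ_succ]
    have h1 := ih (fun j => G j.succ) (fun j => a j.succ) (fun j => M j.succ) (fun j => h j.succ)
    have h2 := (h 0).prod h1
    let f : (G 0 × (∀ j : Fin n, G j.succ)) →+ (∀ j, G j) :=
      { toFun := fun x => Fin.cons x.1 x.2
        map_zero' := by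
          funext j
          refine Fin.cases ?_ ?_ j
          · simp
          · intro i; simp
        map_add' := by
          intro x y
          funext j
          refine Fin.cases ?_ ?_ j
          · simp
          · intro i; simp }
    apply h2.map f
    intro x y hxy
    have : (Fin.cons x.1 x.2 : ∀ j, G j) = Fin.cons y.1 y.2 := hxy
    rw [Fin.cons_inj] at this
    exact Prod.ext this.1 this.2

end Pool.Agent.Helper75.Sidon
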