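import Mathlib

/-! Numerical inequalities for the exponent 2/5. -/

namespace Pool.Agent.Helper75.Sidon

/-- from an inequality between integral powers to real powers -/
theorem rpow_le_of_pow {x y : ℝ} (hx : 0 ≤ x) (hy : 0 ≤ y) {a b : ℕ} (hb : b ≠ 0)
    (h : x ^ a ≤ y ^ b) : x ^ ((a : ℝ) / (b : ℝ)) ≤ y := by
  have hb' : (0 : ℝ) < b := by exact_mod_cast Nat.pos_of_ne_zero hb
  have h1 : x ^ ((a : ℝ) / (b : ℝ)) = (x ^ a) ^ (1 / (b : ℝ)) := by
    rw [← Real.rpow_natCast x a, ← Real.rpow_mul hx]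
    congr 1
    ring
  have h2 : (y ^ b) ^ (1 / (b : ℝ)) = y := by
    rw [← Real.rpow_natCast y b, ← Real.rpow_mul hy, mul_one_div_cancel hb'.ne', Real.rpow_one]
  rw [h1]
  exact (Real.rpow_le_rpow (by positivity) h (by positivity)).trans_eq h2

/-- one factor in the case `b = 0` -/
theorem factor_zero (p u : ℝ) (hp : 3 ≤ p) (hu : 1 ≤ u) :
    (p * u) ^ 129 ≤ (p * ((u + 1) / 2)) ^ 160 := by
  set x := p * u with hx
  have hx0 : 0 < x := by positivity
  set g := (p * ((u + 1) / 2)) ^ 5 with hg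
  have hg0 : 0 ≤ g := by positivity
  have hgg : (p * ((u + 1) / 2)) ^ 160 = g ^ 32 := by rw [hg, ← pow_mul]
  rw [hgg]
  rcases le_or_gt x 64 with h | h
  · have h1 : (9375 / 8192) * x ^ 4 ≤ g := by
      have h2 : (u + 1) ^ 5 ≥ 3125 / 256 * u ^ 4 := by
        have h3 : 256 * (u + 1) ^ 5 - 3125 * u ^ 4 =
            (u - 4) ^ 2 * (256 * u ^ 3 + 203 * u ^ 2 + 88 * u + 16) := by ring
        have h4 : 0 ≤ (u - 4) ^ 2 * (256 * u ^ 3 + 203 * u ^ 2 + 88 * u + 16) := by positivity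
        linarith
      have h3 : g = p ^ 5 * (u + 1) ^ 5 / 32 := by rw [hg]; ring
      have h4 : x ^ 4 = p ^ 4 * u ^ 4 := by rw [hx]; ring
      rw [h3, h4]
      have h5 : p ^ 5 * (3125 / 256 * u ^ 4) ≤ p ^ 5 * (u + 1) ^ 5 := by gcongr
      have h6 : 3 * (p ^ 4 * u ^ 4) ≤ p * (p ^ 4 * u ^ 4) := by gcongr
      nlinarith
    calc x ^ 129 = x * x ^ 128 := by ring
      _ ≤ (9375 / 8192) ^ 32 * x ^ 128 := by
        gcongr
        refine h.trans ?_
        norm_num
      _ = ((9375 / 8192) * x ^ 4) ^ 32 := by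
        rw [mul_pow (9375 / 8192 : ℝ) (x ^ 4) 32, ← pow_mul]
      _ ≤ g ^ 32 := by gcongr
  · have h1 : x ^ 5 / 32 ≤ g := by
      have h2 : x ^ 5 / 32 = (p * (u / 2)) ^ 5 := by rw [hx]; ring
      rw [h2, hg]
      gcongr
      linarith
    calc x ^ 129 = x ^ 129 * 1 := by ring
      _ ≤ x ^ 129 * (x ^ 31 / 2 ^ 160) := by
        gcongr
        rw [one_le_div (by positivity)]
        calc (2 : ℝ) ^ 160 ≤ 64 ^ 31 := by norm_num
          _ ≤ x ^ 31 := by gcongr
      _ = (x ^ 5 / 32) ^ 32 := by rw [div_pow, ← pow_mul]; norm_num; ring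
      _ ≤ g ^ 32 := by gcongr

theorem pow5_le (k : ℕ) : (2 * k + 1) ^ 5 ≤ (k + 1) ^ 8 := by
  rcases Nat.lt_or_ge k 2 with h | h
  · interval_cases k <;> norm_num
  · have h1 : (2 * k + 1) ^ 5 ≤ (2 * (k + 1)) ^ 5 := by gcongr; omega
    have h2 : (2 * (k + 1)) ^ 5 = 32 * (k + 1) ^ 5 := by ring
    have h4 : (k + 1) ^ 8 = (k + 1) ^ 3 * (k + 1) ^ 5 := by ring
    rcases Nat.lt_or_ge k 3 with h3 | h3
    · interval_cases k
      norm_num
    · have h5 : 32 ≤ (k + 1) ^ 3 := by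
        calc 32 ≤ (3 + 1) ^ 3 := by norm_num
          _ ≤ (k + 1) ^ 3 := by gcongr
      calc (2 * k + 1) ^ 5 ≤ 32 * (k + 1) ^ 5 := by rw [← h2]; exact h1
        _ ≤ (k + 1) ^ 3 * (k + 1) ^ 5 := by gcongr
        _ = (k + 1) ^ 8 := h4.symm

theorem odd_half {m : ℕ} (hm : Odd m) : m ^ 5 ≤ ((m + 1) / 2) ^ 8 := by
  obtain ⟨k, rfl⟩ := hm
  have : (2 * k + 1 + 1) / 2 = k + 1 := by omega
  rw [this]
  exact pow5_le k

/-- For every odd prime `p` there is `c > 0` such that for odd `L j` one can convert the first `b`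
coordinates and obtain a model size at least `c * n ^ (129/160)`. -/
theorem num_small (p : ℕ) (hp : 3 ≤ p) (hodd : Odd p) :
    ∃ c : ℝ, 0 < c ∧ ∀ (R : ℕ) (L : Fin R → ℕ), (∀ j, Odd (L j)) →
      ∃ b : ℕ, b ≤ R ∧
        p ^ (R - b) ≤ (∏ j : Fin R, (if j.val < b then (p * L j + 1) / 2 else (L j + 1) / 2)) ^ 2 ∧
        c * ((∏ j : Fin R, (p * L j : ℕ) : ℕ) : ℝ) ^ (129 / 160 : ℝ) ≤
          (p : ℝ) ^ (R - b) *
            ((∏ j : Fin R, (if j.val < b then (p * L j + 1) / 2 else (L j + 1) / 2) : ℕ) : ℝ) := by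
  classical
  have hp0 : 0 < p := by omega
  have hpR : (0 : ℝ) < p := by exact_mod_cast hp0
  refine ⟨1 / p, by positivity, ?_⟩
  intro R L hL
  have hLpos : ∀ j, 1 ≤ L j := fun j => (hL j).pos
  set M : ℕ → ℕ := fun b =>
    ∏ j : Fin R, (if j.val < b then (p * L j + 1) / 2 else (L j + 1) / 2) with hM
  have hMpos : ∀ b, 1 ≤ M b := by
    intro b
    refine Finset.one_le_prod' fun j _ => ?_
    split_ifs
    · have : 1 ≤ p * L j := Nat.mul_pos hp0 (hLpos j)
      omega
    · have := hLpos j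
      omega
  have hex : ∃ b, p ^ (R - b) ≤ M b ^ 2 := ⟨R, by simpa using Nat.one_le_pow _ _ (hMpos R)⟩
  set b := Nat.find hex with hb
  have hbs : p ^ (R - b) ≤ M b ^ 2 := Nat.find_spec hex
  have hbR : b ≤ R := Nat.find_min' hex (by simpa using Nat.one_le_pow _ _ (hMpos R))
  refine ⟨b, hbR, hbs, ?_⟩
  set n : ℕ := ∏ j : Fin R, (p * L j) with hn
  change 1 / (p : ℝ) * (n : ℝ) ^ (129 / 160 : ℝ) ≤ (p : ℝ) ^ (R - b) * (M b : ℝ)
  -- it suffices to compare 160th powers
  suffices hsuff : (n : ℝ) ^ 129 ≤ (p * ((p : ℝ) ^ (R - b) * (M b : ℝ))) ^ 160 by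
    have h1 := rpow_le_of_pow (a := 129) (b := 160) (Nat.cast_nonneg n) (by positivity)
      (by norm_num) hsuff
    push_cast at h1
    rw [div_mul_eq_mul_div, one_mul, div_le_iff₀ hpR, mul_comm ((p : ℝ) ^ (R - b) * (M b : ℝ))]
    exact h1
  rcases Nat.eq_zero_or_pos b with hb0 | hb0
  · -- `b = 0`
    rw [hb0, Nat.sub_zero]
    have h1 : (p : ℝ) ^ R * (M 0 : ℝ) = ∏ j : Fin R, ((p : ℝ) * (((L j : ℝ) + 1) / 2)) := by
      rw [Finset.prod_mul_distrib, Finset.prod_const, Finset.card_univ, Fintype.card_fin]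
      congr 1
      simp only [hM, Nat.not_lt_zero, if_false]
      rw [Nat.cast_prod]
      refine Finset.prod_congr rfl fun j _ => ?_
      obtain ⟨k, hk⟩ := hL j
      have : (L j + 1) / 2 = k + 1 := by omega
      rw [this, hk]
      push_cast
      ring
    have h2 : (n : ℝ) = ∏ j : Fin R, ((p : ℝ) * (L j : ℝ)) := by
      rw [hn]
      push_cast
      rfl
    have h3 : (n : ℝ) ^ 129 ≤ ((p : ℝ) ^ R * (M 0 : ℝ)) ^ 160 := by
      rw [h1, h2, ← Finset.prod_pow, ← Finset.prod_pow]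
      refine Finset.prod_le_prod (fun j _ => by positivity) fun j _ => ?_
      exact factor_zero p (L j) (by exact_mod_cast hp) (by exact_mod_cast hLpos j)
    refine h3.trans ?_
    have h4 : (1 : ℝ) ≤ p := by exact_mod_cast (by omega : 1 ≤ p)
    have h5 : (0 : ℝ) ≤ (p : ℝ) ^ R * (M 0 : ℝ) := by positivity
    exact pow_le_pow_left₀ h5 (le_mul_of_one_le_left h5 h4) 160
  · -- `b ≥ 1`
    have hmin : M (b - 1) ^ 2 < p ^ (R - (b - 1)) := by
      have := Nat.find_min hex (m := b - 1) (by omega)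
      exact not_le.mp this
    set a := R - b with ha
    have ha1 : R - (b - 1) = a + 1 := by omega
    rw [ha1] at hmin
    have hstep : M b ≤ p * M (b - 1) := by
      have h1 : ∀ j : Fin R, (if j.val < b then (p * L j + 1) / 2 else (L j + 1) / 2) ≤
          (if j = (⟨b - 1, by omega⟩ : Fin R) then p else 1) *
            (if j.val < b - 1 then (p * L j + 1) / 2 else (L j + 1) / 2) := by
        intro j
        rcases lt_trichotomy j.val (b - 1) with h | h | h
        · have e1 : j.val < b := by omega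
          have e2 : j ≠ (⟨b - 1, by omega⟩ : Fin R) := by
            intro h'
            rw [h'] at h
            simp at h
          rw [if_pos e1, if_neg e2, if_pos h, one_mul]
        · have e1 : j.val < b := by omega
          have e2 : j = (⟨b - 1, by omega⟩ : Fin R) := Fin.ext h
          have e3 : ¬ j.val < b - 1 := by omega
          rw [if_pos e1, if_pos e2, if_neg e3]
          obtain ⟨k, hk⟩ := hL j
          have e4 : (L j + 1) / 2 = k + 1 := by omega
          rw [e4, hk]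
          have e5 : p * (2 * k + 1) + 1 ≤ 2 * (p * (k + 1)) := by nlinarith
          omega
        · have e1 : ¬ j.val < b := by omega
          have e2 : j ≠ (⟨b - 1, by omega⟩ : Fin R) := by
            intro h'
            rw [h'] at h
            simp at h
          have e3 : ¬ j.val < b - 1 := by omega
          rw [if_neg e1, if_neg e2, if_neg e3, one_mul]
      have h2 := Finset.prod_le_prod' (s := Finset.univ) fun j (_ : j ∈ Finset.univ) => h1 j
      rw [Finset.prod_mul_distrib, Finset.prod_ite_eq'] at h2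
      simpa [hM] using h2
    have hM2 : M b ^ 2 ≤ p ^ (a + 3) := by
      calc M b ^ 2 ≤ (p * M (b - 1)) ^ 2 := by gcongr
        _ = p ^ 2 * M (b - 1) ^ 2 := by ring
        _ ≤ p ^ 2 * p ^ (a + 1) := by gcongr
        _ = p ^ (a + 3) := by ring
    have hn5 : n ^ 5 ≤ p ^ (5 * a) * M b ^ 8 := by
      have h1 : ∀ j : Fin R, (p * L j) ^ 5 ≤ (if j.val < b then 1 else p ^ 5) *
          (if j.val < b then (p * L j + 1) / 2 else (L j + 1) / 2) ^ 8 := by
        intro j
        split_ifs with h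
        · rw [one_mul]
          exact odd_half (hodd.mul (hL j))
        · rw [mul_pow]
          exact Nat.mul_le_mul_left _ (odd_half (hL j))
      have h2 := Finset.prod_le_prod' (s := Finset.univ) fun j (_ : j ∈ Finset.univ) => h1 j
      rw [Finset.prod_mul_distrib, Finset.prod_pow, Finset.prod_pow] at h2
      have h3 : ∏ j : Fin R, (if j.val < b then 1 else p ^ 5) = p ^ (5 * a) := by
        rw [Finset.prod_ite, Finset.prod_const_one, one_mul, Finset.prod_const, ← pow_mul]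
        congr 1
        have h4 : (Finset.univ.filter fun j : Fin R => ¬ j.val < b).card = R - b := by
          have h5 : (Finset.univ.filter fun j : Fin R => j.val < b).card = b := by
            rw [Fin.card_filter_val_lt]
            omega
          have h6 := Finset.card_filter_add_card_filter_not (s := (Finset.univ : Finset (Fin R)))
            (fun j : Fin R => j.val < b)
          rw [h5, Finset.card_univ, Fintype.card_fin] at h6
          omega
        rw [h4]
      rw [h3] at h2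
      exact h2
    have hfin : (n ^ 129) ^ 5 ≤ ((p * (p ^ a * M b)) ^ 160) ^ 5 := by
      have h1 : (n ^ 129) ^ 5 ≤ (p ^ (5 * a) * M b ^ 8) ^ 129 := by
        calc (n ^ 129) ^ 5 = (n ^ 5) ^ 129 := by rw [← pow_mul, ← pow_mul]
          _ ≤ (p ^ (5 * a) * M b ^ 8) ^ 129 := by gcongr
      have h2 : (p ^ (5 * a) * M b ^ 8) ^ 129 = p ^ (645 * a) * (M b ^ 800 * (M b ^ 2) ^ 116) := by
        rw [mul_pow, ← pow_mul, ← pow_mul, ← pow_mul, ← pow_add]
        congr 1
        congr 1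
        ring
      have h3 : (M b ^ 2) ^ 116 ≤ p ^ (155 * a + 800) := by
        calc (M b ^ 2) ^ 116 ≤ (p ^ (a + 3)) ^ 116 := by gcongr
          _ = p ^ (116 * (a + 3)) := by rw [← pow_mul, mul_comm]
          _ ≤ p ^ (155 * a + 800) := Nat.pow_le_pow_right hp0 (by omega)
      have h4 : ((p * (p ^ a * M b)) ^ 160) ^ 5 = p ^ (645 * a) * (M b ^ 800 *
          p ^ (155 * a + 800)) := by
        have e1 : p ^ (155 * a + 800) = p ^ (155 * a) * p ^ 800 := pow_add _ _ _
        have e2 : p ^ (645 * a) * p ^ (155 * a) = (p ^ a) ^ 800 := by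
          rw [← pow_add, ← pow_mul]; congr 1; ring
        calc ((p * (p ^ a * M b)) ^ 160) ^ 5 = p ^ 800 * ((p ^ a) ^ 800 * M b ^ 800) := by
              rw [← pow_mul, mul_pow, mul_pow]
          _ = p ^ (645 * a) * (M b ^ 800 * p ^ (155 * a + 800)) := by
              rw [e1, ← e2]; ring
      rw [h4]
      refine h1.trans ?_
      rw [h2]
      gcongr
    have hfin2 : n ^ 129 ≤ (p * (p ^ a * M b)) ^ 160 :=
      le_of_pow_le_pow_left₀ (by norm_num) (by positivity) hfin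
    exact_mod_cast hfin2

/-- If all moduli are odd and at least `128`, the box has at least `n ^ (6/7)` elements. -/
theorem num_large (R : ℕ) (m : Fin R → ℕ) (hm : ∀ j, 128 ≤ m j) (hodd : ∀ j, Odd (m j)) :
    ((∏ j : Fin R, m j : ℕ) : ℝ) ^ (6 / 7 : ℝ) ≤ ((∏ j : Fin R, (m j + 1) / 2 : ℕ) : ℝ) := by
  have h1 : (∏ j : Fin R, m j) ^ 6 ≤ (∏ j : Fin R, (m j + 1) / 2) ^ 7 := by
    rw [← Finset.prod_pow, ← Finset.prod_pow]
    refine Finset.prod_le_prod' fun j _ => ?_
    obtain ⟨k, hk⟩ := hodd j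
    have hm' := hm j
    have e : (m j + 1) / 2 = k + 1 := by omega
    rw [e]
    have h2 : m j ≤ 2 * (k + 1) := by omega
    have h3 : 64 ≤ k + 1 := by omega
    calc m j ^ 6 ≤ (2 * (k + 1)) ^ 6 := by gcongr
      _ = 64 * (k + 1) ^ 6 := by ring
      _ ≤ (k + 1) * (k + 1) ^ 6 := by gcongr
      _ = (k + 1) ^ 7 := by ring
  have h2 := rpow_le_of_pow (x := ((∏ j : Fin R, m j : ℕ) : ℝ))
    (y := ((∏ j : Fin R, (m j + 1) / 2 : ℕ) : ℝ)) (a := 6) (b := 7) (Nat.cast_nonneg _)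
    (Nat.cast_nonneg _) (by norm_num) (by exact_mod_cast h1)
  exact_mod_cast h2

/-- Conversion of a bound with a logarithm into a clean power. -/
theorem num_final (c c' : ℝ) (hc : 0 < c) (hc' : 0 < c') :
    ∃ C : ℝ, 0 < C ∧ ∀ (n X s : ℝ), 1 ≤ n → 1 ≤ X → c' * n ^ (129 / 160 : ℝ) ≤ X →
      c * Real.sqrt X ≤ s * (1 + Real.log X) → C * n ^ (2 / 5 : ℝ) ≤ s := by
  refine ⟨c / 259 * c' ^ (64 / 129 : ℝ), by positivity, ?_⟩
  intro n X s hn hX h1 h2
  have hX0 : 0 < X := by linarith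
  have hn0 : 0 < n := by linarith
  have hlog : 1 + Real.log X ≤ 259 * X ^ (1 / 258 : ℝ) := by
    have h3 := Real.log_le_rpow_div hX0.le (show (0 : ℝ) < 1 / 258 by norm_num)
    have h4 : (1 : ℝ) ≤ X ^ (1 / 258 : ℝ) := Real.one_le_rpow hX (by norm_num)
    have h5 : X ^ (1 / 258 : ℝ) / (1 / 258) = 258 * X ^ (1 / 258 : ℝ) := by ring
    rw [h5] at h3
    linarith
  have hlog0 : 0 ≤ Real.log X := Real.log_nonneg hX
  have hs : 0 ≤ s := by
    by_contra hcon
    push Not at hcon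
    have h3 : s * (1 + Real.log X) < 0 := mul_neg_of_neg_of_pos hcon (by linarith)
    have h4 : 0 ≤ c * Real.sqrt X := by positivity
    linarith
  have h3 : c * Real.sqrt X ≤ s * (259 * X ^ (1 / 258 : ℝ)) :=
    h2.trans (mul_le_mul_of_nonneg_left hlog hs)
  have h4 : Real.sqrt X = X ^ (64 / 129 : ℝ) * X ^ (1 / 258 : ℝ) := by
    rw [Real.sqrt_eq_rpow, ← Real.rpow_add hX0]
    norm_num
  rw [h4] at h3
  have hpos : 0 < X ^ (1 / 258 : ℝ) := Real.rpow_pos_of_pos hX0 _
  have h5 : c * X ^ (64 / 129 : ℝ) ≤ s * 259 := by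
    refine le_of_mul_le_mul_right ?_ hpos
    calc c * X ^ (64 / 129 : ℝ) * X ^ (1 / 258 : ℝ) =
        c * (X ^ (64 / 129 : ℝ) * X ^ (1 / 258 : ℝ)) := by ring
      _ ≤ s * (259 * X ^ (1 / 258 : ℝ)) := h3
      _ = s * 259 * X ^ (1 / 258 : ℝ) := by ring
  have h6 : c' ^ (64 / 129 : ℝ) * n ^ (2 / 5 : ℝ) ≤ X ^ (64 / 129 : ℝ) := by
    have h7 : c' ^ (64 / 129 : ℝ) * n ^ (2 / 5 : ℝ) = (c' * n ^ (129 / 160 : ℝ)) ^ (64 / 129 : ℝ) := by
      rw [Real.mul_rpow hc'.le (by positivity), ← Real.rpow_mul hn0.le]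
      norm_num
    rw [h7]
    exact Real.rpow_le_rpow (by positivity) h1 (by norm_num)
  calc c / 259 * c' ^ (64 / 129 : ℝ) * n ^ (2 / 5 : ℝ) =
      c / 259 * (c' ^ (64 / 129 : ℝ) * n ^ (2 / 5 : ℝ)) := by ring
    _ ≤ c / 259 * X ^ (64 / 129 : ℝ) := by gcongr
    _ = (c * X ^ (64 / 129 : ℝ)) / 259 := by ring
    _ ≤ (s * 259) / 259 := by gcongr
    _ = s := by ring

end Pool.Agent.Helper75.Sidon
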