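import Mathlib

/-! Structure of finite abelian groups of odd order: a decomposition into cyclic groups whose
orders are all divisible by one prime. -/

namespace Pool.Agent.Helper75.Sidon

/-- regrouping of a product -/
def regroup {ι κ : Type} (σ : ι → κ) (M : ι → Type) [∀ i, AddCommGroup (M i)] :
    (∀ i, M i) ≃+ (∀ j : κ, ∀ i : {i // σ i = j}, M i) where
  toFun f _ i := f i
  invFun g i := g (σ i) ⟨i, rfl⟩
  left_inv _ := rfl
  right_inv g := by
    funext j i
    obtain ⟨i, rfl⟩ := i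
    rfl
  map_add' _ _ := rfl

theorem combine {ι κ : Type} [Fintype ι] [Fintype κ] [DecidableEq κ] (σ : ι → κ) (a : ι → ℕ)
    (h : ∀ i i', i ≠ i' → σ i = σ i' → Nat.Coprime (a i) (a i')) :
    Nonempty ((∀ i, ZMod (a i)) ≃+ ∀ j : κ, ZMod (∏ i : {i // σ i = j}, a i)) := by
  refine ⟨(regroup σ (fun i => ZMod (a i))).trans (AddEquiv.piCongrRight fun j =>
    ((ZMod.prodEquivPi (fun i : {i // σ i = j} => a i) ?_).toAddEquiv).symm)⟩
  rintro ⟨i, hi⟩ ⟨i', hi'⟩ hne
  exact h i i' (fun h => hne (Subtype.ext h)) (hi.trans hi'.symm)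

theorem struct_odd (G : Type) [AddCommGroup G] [Fintype G] (hodd : Odd (Fintype.card G))
    (hG : 1 < Fintype.card G) :
    ∃ (p : ℕ) (R : ℕ) (L : Fin R → ℕ), p.Prime ∧ p ≠ 2 ∧ (∀ j, Odd (L j)) ∧
      Nonempty (G ≃+ (∀ j : Fin R, ZMod (p * L j))) := by
  classical
  obtain ⟨ι, hι, q, hq, e, ⟨φ⟩⟩ := AddCommGroup.equiv_directSum_zmod_of_finite G
  set a : ι → ℕ := fun i => q i ^ e i with ha
  have ψ : G ≃+ ∀ i, ZMod (a i) := φ.trans (DirectSum.addEquivProd _)
  -- the sets of indices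
  set S : ℕ → Finset ι := fun r => Finset.univ.filter (fun i => q i = r ∧ e i ≠ 0) with hS
  have hne : (Finset.univ.filter (fun i : ι => e i ≠ 0)).Nonempty := by
    by_contra hcon
    rw [Finset.not_nonempty_iff_eq_empty, Finset.filter_eq_empty_iff] at hcon
    have h1 : ∀ i, a i = 1 := by
      intro i
      have := hcon (Finset.mem_univ i)
      rw [not_not] at this
      simp only [ha, this, pow_zero]
    have h2 : Nat.card G = ∏ i, a i := by
      rw [Nat.card_congr ψ.toEquiv, Nat.card_pi]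
      exact Finset.prod_congr rfl fun i _ => Nat.card_zmod _
    rw [Finset.prod_congr rfl (fun i _ => h1 i), Finset.prod_const_one, Nat.card_eq_fintype_card] at h2
    omega
  obtain ⟨i0, hi0, hmax⟩ := Finset.exists_max_image _ (fun i => (S (q i)).card) hne
  rw [Finset.mem_filter] at hi0
  set R := (S (q i0)).card with hR
  have hRpos : 0 < R := Finset.card_pos.2 ⟨i0, Finset.mem_filter.2 ⟨Finset.mem_univ _, rfl, hi0.2⟩⟩
  have hmem : ∀ i, e i ≠ 0 → i ∈ S (q i) := by
    intro i hi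
    exact Finset.mem_filter.2 ⟨Finset.mem_univ _, rfl, hi⟩
  have hle : ∀ i, e i ≠ 0 → (S (q i)).card ≤ R := fun i hi =>
    hmax i (by rw [Finset.mem_filter]; exact ⟨Finset.mem_univ _, hi⟩)
  let σ : ι → Fin R := fun i => if h : e i ≠ 0 then
    ⟨(S (q i)).equivFin ⟨i, hmem i h⟩, lt_of_lt_of_le (Fin.is_lt _) (hle i h)⟩ else ⟨0, hRpos⟩
  have hinj : ∀ i i', i ≠ i' → σ i = σ i' → Nat.Coprime (a i) (a i') := by
    intro i i' hii hσ
    by_cases h : e i = 0
    · simp only [ha, h, pow_zero]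
      exact Nat.coprime_one_left _
    by_cases h' : e i' = 0
    · simp only [ha, h', pow_zero]
      exact Nat.coprime_one_right _
    by_cases hqq : q i = q i'
    · exfalso
      apply hii
      have key : ∀ (r r' : ℕ) (_ : r = r') (h1 : i ∈ S r) (h2 : i' ∈ S r'),
          ((S r).equivFin ⟨i, h1⟩ : ℕ) = (S r').equivFin ⟨i', h2⟩ → i = i' := by
        rintro r r' rfl h1 h2 h3
        have h4 := (S r).equivFin.injective (Fin.ext h3)
        exact congrArg Subtype.val h4
      have hs1 : σ i = ⟨(S (q i)).equivFin ⟨i, hmem i h⟩, lt_of_lt_of_le (Fin.is_lt _) (hle i h)⟩ :=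
        dif_pos h
      have hs2 : σ i' = ⟨(S (q i')).equivFin ⟨i', hmem i' h'⟩,
        lt_of_lt_of_le (Fin.is_lt _) (hle i' h')⟩ := dif_pos h'
      rw [hs1, hs2, Fin.mk.injEq] at hσ
      exact key _ _ hqq _ _ hσ
    · exact Nat.Coprime.pow _ _ ((Nat.coprime_primes (hq i) (hq i')).2 hqq)
  obtain ⟨χ⟩ := combine σ a hinj
  set n : Fin R → ℕ := fun j => ∏ i : {i // σ i = j}, a i with hn
  have hdvd : ∀ j, q i0 ∣ n j := by
    intro j
    let x := (S (q i0)).equivFin.symm j
    have hx := x.2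
    simp only [hS, Finset.mem_filter] at hx
    have hσ : σ x.1 = j := by
      have hs1 : σ x.1 = ⟨(S (q x.1)).equivFin ⟨x.1, hmem x.1 hx.2.2⟩,
        lt_of_lt_of_le (Fin.is_lt _) (hle x.1 hx.2.2)⟩ := dif_pos hx.2.2
      have key : ∀ (r : ℕ) (_ : r = q i0) (h1 : x.1 ∈ S r), ((S r).equivFin ⟨x.1, h1⟩ : ℕ) = j := by
        rintro r rfl h1
        exact congrArg Fin.val ((S (q i0)).equivFin.apply_symm_apply j)
      rw [hs1]
      exact Fin.ext (key _ hx.2.1 _)
    have h1 : a x.1 ∣ n j := Finset.dvd_prod_of_mem (fun i : {i // σ i = j} => a i)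
      (Finset.mem_univ (⟨x.1, hσ⟩ : {i // σ i = j}))
    refine dvd_trans ?_ h1
    simp only [ha]
    rw [hx.2.1]
    exact dvd_pow_self _ hx.2.2
  have hcard : Nat.card G = ∏ j, n j := by
    rw [Nat.card_congr (ψ.trans χ).toEquiv, Nat.card_pi]
    exact Finset.prod_congr rfl fun i _ => Nat.card_zmod _
  rw [Nat.card_eq_fintype_card] at hcard
  have hnodd : ∀ j, Odd (n j) := by
    intro j
    have h1 : n j ∣ Fintype.card G := by
      rw [hcard]
      exact Finset.dvd_prod_of_mem n (Finset.mem_univ j)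
    exact Odd.of_dvd_nat hodd h1
  choose L hL using hdvd
  refine ⟨q i0, R, L, hq i0, ?_, ?_, ⟨?_⟩⟩
  · intro h2
    have h1 := hnodd ⟨0, hRpos⟩
    rw [hL, h2] at h1
    exact (Nat.not_odd_iff_even.2 (even_two_mul _)) h1
  · intro j
    have h1 := hnodd j
    rw [hL] at h1
    exact (Nat.odd_mul.1 h1).2
  · refine (ψ.trans χ).trans (AddEquiv.piCongrRight fun j => ?_)
    exact (ZMod.ringEquivCongr (hL j)).toAddEquiv

end Pool.Agent.Helper75.Sidon
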