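import Pool.Agent.Helper75.Sidon.LemKb
import Pool.Agent.Helper75.Sidon.Model
import Pool.Agent.Helper75.Sidon.Struct
import Pool.Agent.Helper75.Sidon.Num

/-! Assembly: Sidon sets of size `c * n ^ (2 / 5)` in all abelian groups of odd order. -/

namespace Pool.Agent.Helper75.Sidon

/-- The image of a Sidon subset of the box under a model map. -/
theorem image_sidon {G : Type} [AddCommGroup G] {V : Type} [AddCommGroup V] (M : ℕ)
    (g : V × ℤ → G) (hg : ∀ w x y z : V × ℤ,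
      (0 ≤ w.2 ∧ w.2 < M) → (0 ≤ x.2 ∧ x.2 < M) → (0 ≤ y.2 ∧ y.2 < M) → (0 ≤ z.2 ∧ z.2 < M) →
      g w + g x = g y + g z → w + x = y + z)
    (S : Finset (V × ℤ)) (hS : IsSidon S) (hSb : ∀ x ∈ S, 0 ≤ x.2 ∧ x.2 < M) :
    ∃ A : Finset G, IsSidon A ∧ A.card = S.card := by
  classical
  have hinj : ∀ x ∈ S, ∀ y ∈ S, g x = g y → x = y := by
    intro x hx y hy h
    have := hg x y y y (hSb x hx) (hSb y hy) (hSb y hy) (hSb y hy) (by rw [h])
    exact add_right_cancel this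
  refine ⟨S.image g, ?_, Finset.card_image_of_injOn (fun x hx y hy h => hinj x hx y hy h)⟩
  intro a ha b hb c hc d hd h
  rw [Finset.mem_image] at ha hb hc hd
  obtain ⟨w, hw, rfl⟩ := ha
  obtain ⟨x, hx, rfl⟩ := hb
  obtain ⟨y, hy, rfl⟩ := hc
  obtain ⟨z, hz, rfl⟩ := hd
  rcases hS w hw x hx y hy z hz
    (hg w x y z (hSb w hw) (hSb x hx) (hSb y hy) (hSb z hz) h) with ⟨h1, h2⟩ | ⟨h1, h2⟩
  · left; rw [h1, h2]; exact ⟨rfl, rfl⟩
  · right; rw [h1, h2]; exact ⟨rfl, rfl⟩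

theorem sum_ite_range (R b : ℕ) :
    (∑ j : Fin R, if j.val < b then 0 else 1) = R - b := by
  rw [Fin.sum_univ_eq_sum_range (fun i => if i < b then 0 else 1) R]
  induction R with
  | zero => simp
  | succ n ih =>
    rw [Finset.sum_range_succ, ih]
    split_ifs with h <;> omega

theorem main_small (p : ℕ) [Fact p.Prime] (hp : p ≠ 2) :
    ∃ C : ℝ, 0 < C ∧ ∀ (R : ℕ) (L : Fin R → ℕ), (∀ j, Odd (L j)) →
      ∀ (G : Type) [AddCommGroup G] [Fintype G], Nonempty (G ≃+ (∀ j : Fin R, ZMod (p * L j))) →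
      ∃ A : Finset G, IsSidon A ∧ C * (Fintype.card G : ℝ) ^ (2 / 5 : ℝ) ≤ A.card := by
  have hpp : p.Prime := Fact.out
  have hodd : Odd p := hpp.odd_of_ne_two hp
  have hp3 : 3 ≤ p := by
    have := hpp.two_le
    omega
  obtain ⟨c, hc, hK⟩ := lemK p hp
  obtain ⟨c', hc', hN⟩ := num_small p hp3 hodd
  obtain ⟨C, hC, hF⟩ := num_final c c' hc hc'
  refine ⟨C, hC, ?_⟩
  intro R L hL G _ _ ⟨e⟩
  obtain ⟨b, hbR, hb1, hb2⟩ := hN R L hL
  set M : ℕ := ∏ j : Fin R, (if j.val < b then (p * L j + 1) / 2 else (L j + 1) / 2) with hM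
  have hMpos : 1 ≤ M := by
    rw [hM]
    apply Finset.one_le_prod'
    intro j _
    obtain ⟨k, hk⟩ := hL j
    have hppos : 0 < p * L j := Nat.mul_pos hpp.pos (by omega)
    split_ifs
    · omega
    · omega
  have hmod : Model p (∀ j : Fin R, ZMod (p * L j)) (R - b) M := by
    rw [← sum_ite_range R b, hM]
    apply model_pi
    intro j
    by_cases h : j.val < b
    · rw [if_pos h, if_pos h]
      exact model_box p (p * L j) (hodd.mul (hL j))
    · rw [if_neg h, if_neg h]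
      exact model_full p (L j) (hL j)
  have hmodG : Model p G (R - b) M := hmod.map e.symm.toAddMonoidHom e.symm.injective
  obtain ⟨V, i1, i2, i3, hV, g, hg⟩ := hmodG
  obtain ⟨S, hS, hSb, hSc⟩ := hK V M hMpos (by rw [hV]; exact hb1)
  obtain ⟨A, hA, hAc⟩ := image_sidon M g hg S hS hSb
  refine ⟨A, hA, ?_⟩
  rw [hAc]
  have hcard : Fintype.card G = ∏ j : Fin R, (p * L j) := by
    rw [← Nat.card_eq_fintype_card, Nat.card_congr e.toEquiv, Nat.card_pi]
    simp
  have hGpos : 1 ≤ Fintype.card G := Fintype.card_pos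
  apply hF (Fintype.card G : ℝ) ((Fintype.card V : ℝ) * M) (S.card : ℝ) (by exact_mod_cast hGpos)
  · have h1 : 1 ≤ Fintype.card V := by rw [hV]; exact Nat.one_le_pow _ _ hpp.pos
    have : 1 ≤ Fintype.card V * M := Nat.mul_le_mul h1 hMpos
    exact_mod_cast this
  · rw [hcard, hV]
    push_cast at hb2 ⊢
    exact hb2
  · exact hSc

theorem main_large :
    ∃ C : ℝ, 0 < C ∧ ∀ (R : ℕ) (m : Fin R → ℕ), (∀ j, 128 ≤ m j) → (∀ j, Odd (m j)) →
      ∀ (G : Type) [AddCommGroup G] [Fintype G], Nonempty (G ≃+ (∀ j : Fin R, ZMod (m j))) →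
      ∃ A : Finset G, IsSidon A ∧ C * (Fintype.card G : ℝ) ^ (2 / 5 : ℝ) ≤ A.card := by
  have : Fact (Nat.Prime 3) := ⟨by norm_num⟩
  obtain ⟨c, hc, hK⟩ := lemK 3 (by norm_num)
  obtain ⟨C, hC, hF⟩ := num_final c 1 hc one_pos
  refine ⟨C, hC, ?_⟩
  intro R m hm hmo G _ _ ⟨e⟩
  set M : ℕ := ∏ j : Fin R, (m j + 1) / 2 with hM
  have hMpos : 1 ≤ M := by
    rw [hM]
    apply Finset.one_le_prod'
    intro j _
    have := hm j
    omega
  have hmod : Model 3 (∀ j : Fin R, ZMod (m j)) 0 M := by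
    have h := model_pi (p := 3) R (fun j => ZMod (m j)) (fun _ => 0) (fun j => (m j + 1) / 2)
      (fun j => model_box 3 (m j) (hmo j))
    simpa using h
  have hmodG : Model 3 G 0 M := hmod.map e.symm.toAddMonoidHom e.symm.injective
  obtain ⟨V, i1, i2, i3, hV, g, hg⟩ := hmodG
  obtain ⟨S, hS, hSb, hSc⟩ := hK V M hMpos (by
    rw [hV, pow_zero]; exact Nat.one_le_pow _ _ hMpos)
  obtain ⟨A, hA, hAc⟩ := image_sidon M g hg S hS hSb
  refine ⟨A, hA, ?_⟩
  rw [hAc]
  have hcard : Fintype.card G = ∏ j : Fin R, m j := by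
    rw [← Nat.card_eq_fintype_card, Nat.card_congr e.toEquiv, Nat.card_pi]
    simp
  have hGpos : 1 ≤ Fintype.card G := Fintype.card_pos
  have hG1 : (1 : ℝ) ≤ Fintype.card G := by exact_mod_cast hGpos
  apply hF (Fintype.card G : ℝ) ((Fintype.card V : ℝ) * M) (S.card : ℝ) hG1
  · have h1 : 1 ≤ Fintype.card V := by rw [hV]; norm_num
    have : 1 ≤ Fintype.card V * M := Nat.mul_le_mul h1 hMpos
    exact_mod_cast this
  · have h1 := num_large R m hm hmo
    rw [hV, pow_zero, one_mul]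
    calc (Fintype.card G : ℝ) ^ (129 / 160 : ℝ) ≤ (Fintype.card G : ℝ) ^ (6 / 7 : ℝ) :=
          Real.rpow_le_rpow_of_exponent_le hG1 (by norm_num)
      _ ≤ ((M : ℕ) : ℝ) := by rw [hcard]; exact h1
      _ = _ := by push_cast; ring
  · exact hSc

theorem two_fifths :
    ∃ c : ℝ, 0 < c ∧ ∀ (G : Type) [AddCommGroup G] [Fintype G], Odd (Fintype.card G) →
      ∃ A : Finset G, IsSidon A ∧ c * (Fintype.card G : ℝ) ^ (2 / 5 : ℝ) ≤ A.card := by
  classical
  -- constants for small primes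
  have hsm : ∀ p : ℕ, ∃ C : ℝ, 0 < C ∧ (p.Prime → p ≠ 2 → ∀ (R : ℕ) (L : Fin R → ℕ),
      (∀ j, Odd (L j)) → ∀ (G : Type) [AddCommGroup G] [Fintype G],
      Nonempty (G ≃+ (∀ j : Fin R, ZMod (p * L j))) →
      ∃ A : Finset G, IsSidon A ∧ C * (Fintype.card G : ℝ) ^ (2 / 5 : ℝ) ≤ A.card) := by
    intro p
    by_cases h : p.Prime ∧ p ≠ 2
    · have : Fact p.Prime := ⟨h.1⟩
      obtain ⟨C, hC, hC'⟩ := main_small p h.2
      exact ⟨C, hC, fun _ _ => hC'⟩
    · exact ⟨1, one_pos, fun h1 h2 => absurd ⟨h1, h2⟩ h⟩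
  choose C hC hC' using hsm
  obtain ⟨C0, hC0, hC0'⟩ := main_large
  have hne : (Finset.range 128).Nonempty := Finset.nonempty_range_iff.mpr (by norm_num)
  let c1 := (Finset.range 128).inf' hne C
  have hc1 : 0 < c1 := by
    rw [Finset.lt_inf'_iff]
    intro p _
    exact hC p
  refine ⟨min (min c1 C0) 1, lt_min (lt_min hc1 hC0) one_pos, ?_⟩
  intro G _ _ hodd
  have hGpos : 1 ≤ Fintype.card G := Fintype.card_pos
  have hG1 : (1 : ℝ) ≤ Fintype.card G := by exact_mod_cast hGpos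
  have hrp : 0 ≤ (Fintype.card G : ℝ) ^ (2 / 5 : ℝ) := by positivity
  rcases Nat.lt_or_ge 1 (Fintype.card G) with h1 | h1
  · obtain ⟨p, R, L, hpp, hp2, hL, e⟩ := struct_odd G hodd h1
    rcases Nat.lt_or_ge p 128 with h | h
    · obtain ⟨A, hA, hA'⟩ := hC' p hpp hp2 R L hL G e
      refine ⟨A, hA, le_trans ?_ hA'⟩
      apply mul_le_mul_of_nonneg_right _ hrp
      calc min (min c1 C0) 1 ≤ c1 := le_trans (min_le_left _ _) (min_le_left _ _)
        _ ≤ C p := Finset.inf'_le _ (Finset.mem_range.mpr h)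
    · obtain ⟨A, hA, hA'⟩ := hC0' R (fun j => p * L j)
        (fun j => by
          obtain ⟨k, hk⟩ := hL j
          have : 1 ≤ L j := by omega
          calc 128 ≤ p := h
            _ = p * 1 := (mul_one p).symm
            _ ≤ p * L j := Nat.mul_le_mul_left _ this)
        (fun j => (hpp.odd_of_ne_two hp2).mul (hL j)) G e
      refine ⟨A, hA, le_trans ?_ hA'⟩
      apply mul_le_mul_of_nonneg_right _ hrp
      exact le_trans (min_le_left _ _) (min_le_right _ _)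
  · have hcard : Fintype.card G = 1 := by omega
    refine ⟨{0}, ?_, ?_⟩
    · intro a ha b hb c hc d hd _
      rw [Finset.mem_singleton] at ha hb hc hd
      left
      rw [ha, hb, hc, hd]
      exact ⟨rfl, rfl⟩
    · rw [hcard]
      simp

end Pool.Agent.Helper75.Sidon
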