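import Pool.Agent.Helper75.Sidon.KEb
import Pool.Agent.Helper75.Sidon.Main

/-! Near optimal Sidon sets in `(ZMod p) ^ a × H`, with `H` of bounded rank and
`p ^ a ≤ |H| ^ (p - 1)`. -/

namespace Pool.Agent.Helper75.Sidon

theorem model_vec (p a a' : ℕ) [Fact p.Prime] (h : a' ≤ a) :
    Model p (Fin a → ZMod p) a' 1 := by
  refine ⟨Fin a' → ZMod p, inferInstance, inferInstance, inferInstance, by simp,
    fun x i => if h : i.val < a' then x.1 ⟨i.val, h⟩ else 0, ?_⟩
  intro w x y z hw hx hy hz e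
  refine Prod.ext ?_ ?_
  · funext i
    have h1 := congrFun e (Fin.castLE h i)
    simp only [Pi.add_apply, Fin.val_castLE, i.isLt, dif_pos] at h1
    simpa using h1
  · simp only [Prod.snd_add]
    have := hw.1; have := hw.2; have := hx.1; have := hx.2
    have := hy.1; have := hy.2; have := hz.1; have := hz.2
    push_cast at *
    omega

theorem exists_a' (p a N : ℕ) (hN : 1 ≤ N) :
    ∃ a' ≤ a, p ^ a' ≤ N ∧ (a' = a ∨ N < p ^ (a' + 1)) := by
  induction a with
  | zero => exact ⟨0, le_refl 0, by simpa using hN, Or.inl rfl⟩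
  | succ n ih =>
    obtain ⟨a', h1, h2, h3⟩ := ih
    rcases h3 with h3 | h3
    · subst h3
      by_cases h4 : p ^ (a' + 1) ≤ N
      · exact ⟨a' + 1, le_refl _, h4, Or.inl rfl⟩
      · exact ⟨a', by omega, h2, Or.inr (by omega)⟩
    · exact ⟨a', by omega, h2, Or.inr h3⟩

theorem prod_half (r : ℕ) (m : Fin r → ℕ) (hm : ∀ j, Odd (m j)) :
    ∏ j, m j ≤ 2 ^ r * ∏ j, (m j + 1) / 2 := by
  have h : (2 : ℕ) ^ r = ∏ _j : Fin r, 2 := by simp
  rw [h, ← Finset.prod_mul_distrib]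
  apply Finset.prod_le_prod' 
  intro j _
  obtain ⟨k, hk⟩ := hm j
  omega

theorem prod_half' (r : ℕ) (m : Fin r → ℕ) (hm : ∀ j, Odd (m j)) :
    ∏ j, (m j + 1) / 2 ≤ ∏ j, m j := by
  apply Finset.prod_le_prod'
  intro j _
  obtain ⟨k, hk⟩ := hm j
  omega

theorem bounded_rank (p : ℕ) [Fact p.Prime] (hp : p ≠ 2) (r : ℕ) :
    ∃ c : ℝ, 0 < c ∧ ∀ (a : ℕ) (m : Fin r → ℕ), (∀ j, Odd (m j)) →
      p ^ a ≤ (∏ j, m j) ^ (p - 1) →
      ∀ (G : Type) [AddCommGroup G] [Fintype G],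
      Nonempty (G ≃+ ((Fin a → ZMod p) × (∀ j : Fin r, ZMod (m j)))) →
      ∃ A : Finset G, IsSidon A ∧
        c * Real.sqrt (Fintype.card G) ≤ A.card * (1 + Real.log (Fintype.card G)) := by
  have hpp : p.Prime := Fact.out
  obtain ⟨c, hc, hK⟩ := lemKE p hp
  set K : ℕ := p * 2 ^ (r * (p - 1)) * 2 ^ r with hKdef
  have hKpos : 0 < K := by
    have := hpp.pos
    positivity
  refine ⟨c / Real.sqrt K, by positivity, ?_⟩
  intro a m hm hle G _ _ ⟨e⟩
  set M : ℕ := ∏ j, (m j + 1) / 2 with hM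
  have hMpos : 1 ≤ M := by
    rw [hM]
    apply Finset.one_le_prod'
    intro j _
    obtain ⟨k, hk⟩ := hm j
    omega
  have hMm := prod_half r m hm
  have hMm' := prod_half' r m hm
  rw [← hM] at hMm hMm'
  obtain ⟨a', ha', hb1, hb2⟩ := exists_a' p a (M ^ (p - 1)) (Nat.one_le_pow _ _ hMpos)
  have hpa : p ^ a ≤ p * 2 ^ (r * (p - 1)) * p ^ a' := by
    rcases hb2 with h | h
    · rw [h]
      have : 1 ≤ p * 2 ^ (r * (p - 1)) := Nat.mul_pos hpp.pos (by positivity)
      calc p ^ a = 1 * p ^ a := (one_mul _).symm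
        _ ≤ _ := Nat.mul_le_mul_right _ this
    · calc p ^ a ≤ (∏ j, m j) ^ (p - 1) := hle
        _ ≤ (2 ^ r * M) ^ (p - 1) := Nat.pow_le_pow_left hMm _
        _ = 2 ^ (r * (p - 1)) * M ^ (p - 1) := by rw [mul_pow, ← pow_mul]
        _ ≤ 2 ^ (r * (p - 1)) * p ^ (a' + 1) := Nat.mul_le_mul_left _ h.le
        _ = p * 2 ^ (r * (p - 1)) * p ^ a' := by rw [pow_succ]; ring
  have hbox : Model p (∀ j : Fin r, ZMod (m j)) 0 M := by
    have h := model_pi (p := p) r (fun j => ZMod (m j)) (fun _ => 0) (fun j => (m j + 1) / 2)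
      (fun j => model_box p (m j) (hm j))
    simpa using h
  have hmod : Model p ((Fin a → ZMod p) × (∀ j : Fin r, ZMod (m j))) (a' + 0) (1 * M) :=
    (model_vec p a a' ha').prod hbox
  rw [add_zero, one_mul] at hmod
  have hmodG : Model p G a' M := hmod.map e.symm.toAddMonoidHom e.symm.injective
  obtain ⟨V, i1, i2, i3, hV, g, hg⟩ := hmodG
  obtain ⟨S, hS, hSb, hSc⟩ := hK V M hMpos (by rw [hV]; exact hb1)
  obtain ⟨A, hA, hAc⟩ := image_sidon M g hg S hS hSb
  refine ⟨A, hA, ?_⟩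
  rw [hAc]
  have hcard : Fintype.card G = p ^ a * ∏ j, m j := by
    rw [← Nat.card_eq_fintype_card, Nat.card_congr e.toEquiv, Nat.card_prod, Nat.card_pi,
      Nat.card_pi]
    simp
  have hX1 : 1 ≤ Fintype.card V * M := by
    rw [hV]
    exact Nat.mul_le_mul (Nat.one_le_pow _ _ hpp.pos) hMpos
  have hn : Fintype.card G ≤ K * (Fintype.card V * M) := by
    rw [hcard, hV, hKdef]
    calc p ^ a * ∏ j, m j ≤ (p * 2 ^ (r * (p - 1)) * p ^ a') * (2 ^ r * M) :=
          Nat.mul_le_mul hpa hMm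
      _ = _ := by ring
  have hXn : Fintype.card V * M ≤ Fintype.card G := by
    rw [hcard, hV]
    exact Nat.mul_le_mul (Nat.pow_le_pow_right hpp.pos ha') hMm'
  set X : ℝ := (Fintype.card V : ℝ) * M with hX
  have hX1' : (1 : ℝ) ≤ X := by rw [hX]; exact_mod_cast hX1
  have hn' : (Fintype.card G : ℝ) ≤ K * X := by rw [hX]; exact_mod_cast hn
  have hXn' : X ≤ Fintype.card G := by rw [hX]; exact_mod_cast hXn
  have h1 : Real.sqrt (Fintype.card G) ≤ Real.sqrt K * Real.sqrt X := by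
    rw [← Real.sqrt_mul (by positivity)]
    exact Real.sqrt_le_sqrt hn'
  have h2 : Real.log X ≤ Real.log (Fintype.card G) := Real.log_le_log (by linarith) hXn'
  have hKs : 0 < Real.sqrt K := Real.sqrt_pos.mpr (by exact_mod_cast hKpos)
  calc c / Real.sqrt K * Real.sqrt (Fintype.card G)
      ≤ c / Real.sqrt K * (Real.sqrt K * Real.sqrt X) := by gcongr
    _ = c * Real.sqrt X := by field_simp
    _ ≤ S.card * (1 + Real.log X) := hSc
    _ ≤ S.card * (1 + Real.log (Fintype.card G)) := by gcongr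

end Pool.Agent.Helper75.Sidon
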