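import Mathlib

/-! Number of monic irreducible polynomials of degree `d` over a finite field. -/

namespace Pool.Agent.Helper75.Sidon

open Polynomial

/-- geometric sum -/
theorem ct_geom (q : ℕ) (hq : 2 ≤ q) (m : ℕ) : (∑ e ∈ Finset.Icc 1 m, q ^ e) + 2 ≤ 2 * q ^ m := by
  induction m with
  | zero => simp
  | succ m ih =>
    rw [Finset.sum_Icc_succ_top (by omega)]
    have h : 2 * q ^ m ≤ q ^ (m + 1) := by
      rw [pow_succ, mul_comm]
      exact Nat.mul_le_mul_left _ hq
    omega

theorem ct_num (q : ℕ) (hq : 2 ≤ q) (d : ℕ) : 2 * ∑ e ∈ Finset.Icc 1 (d / 2), q ^ e ≤ q ^ d := by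
  have h1 := ct_geom q hq (d / 2)
  have h2 : q ^ (d / 2) * q ^ (d / 2) ≤ q ^ d := by
    rw [← pow_add]
    exact Nat.pow_le_pow_right (by omega) (by omega)
  have h3 : 4 * q ^ (d / 2) ≤ q ^ (d / 2) * q ^ (d / 2) + 4 := by
    generalize q ^ (d / 2) = y
    have : (4 : ℤ) * y ≤ y * y + 4 := by nlinarith [sq_nonneg ((y : ℤ) - 2)]
    exact_mod_cast this
  omega

theorem ct_aux (F E : Type) [Field F] [Fintype F] [Field E] [Fintype E] [Algebra F E] (d : ℕ)
    (hE : Fintype.card E = Fintype.card F ^ d) (hfr : Module.finrank F E = d) :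
    ∃ T : Finset F[X], (∀ P ∈ T, P.Monic ∧ Irreducible P ∧ P.natDegree = d) ∧
      Fintype.card F ^ d ≤ 2 * d * T.card := by
  classical
  set q := Fintype.card F with hq
  have hq2 : 2 ≤ q := Fintype.one_lt_card
  set S : Finset E := Finset.univ.filter fun x => (minpoly F x).natDegree = d with hS
  set R : ℕ → Finset E := fun e => Finset.univ.filter fun x => x ^ q ^ e = x with hR
  have hint : ∀ x : E, IsIntegral F x := fun x => Algebra.IsIntegral.isIntegral x
  refine ⟨S.image (minpoly F), ?_, ?_⟩
  · intro P hP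
    obtain ⟨x, hx, rfl⟩ := Finset.mem_image.1 hP
    exact ⟨minpoly.monic (hint x), minpoly.irreducible (hint x), (Finset.mem_filter.1 hx).2⟩
  have h1 : S.card ≤ d * (S.image (minpoly F)).card := by
    apply Finset.card_le_mul_card_image
    intro P hP
    obtain ⟨x, hx, rfl⟩ := Finset.mem_image.1 hP
    have hx' := (Finset.mem_filter.1 hx).2
    have h2 : S.filter (fun y => minpoly F y = minpoly F x) ⊆ ((minpoly F x).aroots E).toFinset := by
      intro y hy
      rw [Finset.mem_filter] at hy
      rw [Multiset.mem_toFinset, Polynomial.mem_aroots]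
      refine ⟨minpoly.ne_zero (hint x), ?_⟩
      rw [← hy.2]
      exact minpoly.aeval F y
    calc _ ≤ ((minpoly F x).aroots E).toFinset.card := Finset.card_le_card h2
      _ ≤ Multiset.card ((minpoly F x).aroots E) := Multiset.toFinset_card_le _
      _ ≤ ((minpoly F x).map (algebraMap F E)).natDegree := Polynomial.card_roots' _
      _ = d := by rw [Polynomial.natDegree_map, hx']
  have h3 : ∀ e ∈ Finset.Icc 1 (d / 2), (R e).card ≤ q ^ e := by
    intro e he
    rw [Finset.mem_Icc] at he
    have hne : (X ^ q ^ e - X : E[X]) ≠ 0 := FiniteField.X_pow_card_pow_sub_X_ne_zero E (by omega) (by omega)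
    have h4 : R e ⊆ (X ^ q ^ e - X : E[X]).roots.toFinset := by
      intro x hx
      have hx' := (Finset.mem_filter.1 hx).2
      rw [Multiset.mem_toFinset, Polynomial.mem_roots hne, Polynomial.IsRoot.def]
      simp [hx']
    calc _ ≤ (X ^ q ^ e - X : E[X]).roots.toFinset.card := Finset.card_le_card h4
      _ ≤ Multiset.card (X ^ q ^ e - X : E[X]).roots := Multiset.toFinset_card_le _
      _ ≤ (X ^ q ^ e - X : E[X]).natDegree := Polynomial.card_roots' _
      _ = q ^ e := FiniteField.X_pow_card_pow_sub_X_natDegree_eq E (by omega) (by omega)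
  have h5 : (Finset.univ : Finset E) ⊆ S ∪ (Finset.Icc 1 (d / 2)).biUnion R := by
    intro x _
    rw [Finset.mem_union, Finset.mem_biUnion]
    by_cases hx : (minpoly F x).natDegree = d
    · exact Or.inl (Finset.mem_filter.2 ⟨Finset.mem_univ _, hx⟩)
    · right
      have hdvd : (minpoly F x).natDegree ∣ d := by
        rw [← hfr]
        exact minpoly.degree_dvd (hint x)
      have hpos : 0 < (minpoly F x).natDegree := minpoly.natDegree_pos (hint x)
      have hd0 : 0 < d := hfr ▸ Module.finrank_pos
      obtain ⟨c, hc⟩ := hdvd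
      have hc2 : 2 ≤ c := by
        rcases Nat.lt_or_ge c 2 with h | h
        · interval_cases c
          · omega
          · exact absurd (by omega) hx
        · exact h
      have hle : (minpoly F x).natDegree ≤ d / 2 := by
        rw [Nat.le_div_iff_mul_le (by norm_num)]
        calc (minpoly F x).natDegree * 2 ≤ (minpoly F x).natDegree * c := Nat.mul_le_mul_left _ hc2
          _ = d := hc.symm
      refine ⟨(minpoly F x).natDegree, Finset.mem_Icc.2 ⟨hpos, hle⟩, ?_⟩
      refine Finset.mem_filter.2 ⟨Finset.mem_univ _, ?_⟩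
      have h6 := ((minpoly.irreducible (hint x)).natDegree_dvd_iff_dvd_X_pow_card_pow_sub_X).1
        (dvd_refl _)
      rw [minpoly.dvd_iff] at h6
      rw [map_sub, map_pow, Polynomial.aeval_X, ← Fintype.card_eq_nat_card, sub_eq_zero] at h6
      exact h6
  have h7 : q ^ d ≤ d * (S.image (minpoly F)).card + ∑ e ∈ Finset.Icc 1 (d / 2), q ^ e := by
    calc q ^ d = (Finset.univ : Finset E).card := by rw [Finset.card_univ, hE]
      _ ≤ (S ∪ (Finset.Icc 1 (d / 2)).biUnion R).card := Finset.card_le_card h5
      _ ≤ S.card + ((Finset.Icc 1 (d / 2)).biUnion R).card := Finset.card_union_le _ _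
      _ ≤ _ := by
        refine Nat.add_le_add h1 (Finset.card_biUnion_le.trans (Finset.sum_le_sum h3))
  have h8 := ct_num q hq2 d
  have h9 : 2 * d * (S.image (minpoly F)).card = 2 * (d * (S.image (minpoly F)).card) := by ring
  omega

/-- Over a field with `q` elements there are at least `q ^ d / (2 d)` monic irreducible polynomials
of degree `d`. -/
theorem count_irred (F : Type) [Field F] [Fintype F] (d : ℕ) (hd : 1 ≤ d) :
    ∃ T : Finset F[X], (∀ P ∈ T, P.Monic ∧ Irreducible P ∧ P.natDegree = d) ∧
      Fintype.card F ^ d ≤ 2 * d * T.card := by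
  obtain ⟨p, hp⟩ := CharP.exists F
  have : Fact p.Prime := ⟨CharP.char_is_prime F p⟩
  have : NeZero d := ⟨by omega⟩
  let _ := Fintype.ofFinite (FiniteField.Extension F p d)
  refine ct_aux F (FiniteField.Extension F p d) d ?_ (FiniteField.finrank_extension F p d)
  rw [Fintype.card_eq_nat_card, Fintype.card_eq_nat_card, FiniteField.natCard_extension]

end Pool.Agent.Helper75.Sidon
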