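import Mathlib

/-! Basic definitions: Sidon sets and models of groups by boxes. -/

namespace Pool.Agent.Helper75.Sidon

/-- A finite set is Sidon if sums of two elements determine the two elements. -/
def IsSidon {G : Type*} [Add G] (A : Finset G) : Prop :=
  ∀ a ∈ A, ∀ b ∈ A, ∀ c ∈ A, ∀ d ∈ A, a + b = c + d → (a = c ∧ b = d) ∨ (a = d ∧ b = c)

/-- `Model p G a M`: an elementary abelian `p`-group `V` of order `p ^ a` and a map `g` from
`V × [0, M)` to `G` such that coincidences between sums of two values of `g` only come from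
coincidences between the sums of the arguments. -/
def Model (p : ℕ) (G : Type*) [AddCommGroup G] (a M : ℕ) : Prop :=
  ∃ (V : Type) (_ : AddCommGroup V) (_ : Module (ZMod p) V) (_ : Fintype V),
    Fintype.card V = p ^ a ∧ ∃ g : V × ℤ → G, ∀ w x y z : V × ℤ,
      (0 ≤ w.2 ∧ w.2 < M) → (0 ≤ x.2 ∧ x.2 < M) → (0 ≤ y.2 ∧ y.2 < M) → (0 ≤ z.2 ∧ z.2 < M) →
      g w + g x = g y + g z → w + x = y + z

end Pool.Agent.Helper75.Sidon
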