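import Pool.Agent.Helper75.Sidon.LemK

/-! A general embedding lemma: `V × [0, M)` inside a group with a Sidon map. -/

namespace Pool.Agent.Helper75.Sidon

open Finset

theorem embed_gen {κ : Type} [DecidableEq κ] (p : ℕ) (V : Type) [AddCommGroup V] [Fintype V]
    (hpV : ∀ v : V, p • v = 0) (K1 K2 : Type) [AddCommGroup K1] [AddCommGroup K2] [Fintype K1]
    [Fintype K2] (j : V →+ K1) (hj : Function.Injective j) (N1 N2 M1 M2 : ℕ)
    (γ1 : K1) (hγ1 : addOrderOf γ1 = N1) (hcop : Nat.Coprime N1 p)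
    (γ2 : K2) (hγ2 : addOrderOf γ2 = N2) (hM1 : M1 ≤ N1) (hM2 : M2 ≤ N2) (hM1' : 1 ≤ M1)
    (T : Finset κ) (Ψ : κ → K1 × K2)
    (hΨ : ∀ a ∈ T, ∀ b ∈ T, ∀ c ∈ T, ∀ e ∈ T, Ψ a + Ψ b = Ψ c + Ψ e →
      (a = c ∧ b = e) ∨ (a = e ∧ b = c)) :
    ∃ S : Finset (V × ℤ), IsSidon S ∧
      (∀ x ∈ S, 0 ≤ x.2 ∧ x.2 + M1 < 2 * M1 * M2) ∧
      T.card * (Fintype.card V * (M1 * M2)) ≤ S.card * (Fintype.card K1 * Fintype.card K2) := by
  classical
  let φ : V × ℤ → K1 × K2 := fun x =>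
    (j x.1 + (x.2 % (2 * M1)) • γ1, (x.2 / (2 * M1)) • γ2)
  let B : Finset ℤ := (Finset.range M1 ×ˢ Finset.range M2).image
    (fun rq => (rq.1 : ℤ) + 2 * M1 * rq.2)
  let D : Finset (V × ℤ) := Finset.univ ×ˢ B
  have hpos : (0 : ℤ) < 2 * M1 := by
    have : (1 : ℤ) ≤ M1 := by exact_mod_cast hM1'
    linarith
  have hB : ∀ t ∈ B, (0 ≤ t % (2 * M1) ∧ t % (2 * M1) < M1) ∧
      (0 ≤ t / (2 * M1) ∧ t / (2 * M1) < M2) := by
    intro t ht
    simp only [B, Finset.mem_image, Finset.mem_product, Finset.mem_range] at ht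
    obtain ⟨⟨r, q⟩, ⟨hr, hq⟩, rfl⟩ := ht
    simp only at hr hq ⊢
    have hr' : (r : ℤ) < M1 := by exact_mod_cast hr
    have hq' : (q : ℤ) < M2 := by exact_mod_cast hq
    have h1 : ((r : ℤ) + 2 * M1 * q) % (2 * M1) = r := by
      rw [Int.add_mul_emod_self_left]
      exact Int.emod_eq_of_lt (by positivity) (by linarith)
    have h2 : ((r : ℤ) + 2 * M1 * q) / (2 * M1) = q := by
      rw [Int.add_mul_ediv_left _ _ hpos.ne', Int.ediv_eq_zero_of_lt (by positivity) (by linarith)]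
      ring
    rw [h1, h2]
    exact ⟨⟨by positivity, hr'⟩, ⟨by positivity, hq'⟩⟩
  have hBc : B.card = M1 * M2 := by
    rw [Finset.card_image_of_injOn, Finset.card_product, Finset.card_range, Finset.card_range]
    rintro ⟨r, q⟩ hrq ⟨r', q'⟩ hrq' h
    simp only [Finset.coe_product, Finset.coe_range, Set.mem_prod, Set.mem_Iio] at hrq hrq'
    simp only at h
    have hr : (r : ℤ) < M1 := by exact_mod_cast hrq.1
    have hr' : (r' : ℤ) < M1 := by exact_mod_cast hrq'.1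
    have h1 := congrArg (fun t : ℤ => t % (2 * M1)) h
    have h2 := congrArg (fun t : ℤ => t / (2 * M1)) h
    simp only [Int.add_mul_emod_self_left, Int.add_mul_ediv_left _ _ hpos.ne'] at h1 h2
    rw [Int.emod_eq_of_lt (by positivity) (by linarith),
      Int.emod_eq_of_lt (by positivity) (by linarith)] at h1
    rw [Int.ediv_eq_zero_of_lt (by positivity) (by linarith),
      Int.ediv_eq_zero_of_lt (by positivity) (by linarith)] at h2
    have e1 : r = r' := by exact_mod_cast h1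
    have e2 : q = q' := by
      have : (q : ℤ) = q' := by linarith
      exact_mod_cast this
    rw [e1, e2]
  have hDc : D.card = Fintype.card V * (M1 * M2) := by
    rw [Finset.card_product, hBc, Finset.card_univ]
  have hmemD : ∀ x ∈ D, (0 ≤ x.2 % (2 * M1) ∧ x.2 % (2 * M1) < M1) ∧
      (0 ≤ x.2 / (2 * M1) ∧ x.2 / (2 * M1) < M2) := by
    intro x hx
    exact hB x.2 (Finset.mem_product.mp hx).2
  have hdm : ∀ t : ℤ, t = t % (2 * M1) + 2 * M1 * (t / (2 * M1)) :=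
    fun t => (Int.emod_add_mul_ediv t (2 * M1)).symm
  have hφ : ∀ x ∈ D, ∀ y ∈ D, φ x = φ y → x = y := by
    intro x hx y hy h
    have h0 : j x.1 + (x.2 % (2 * M1)) • γ1 = j y.1 + (y.2 % (2 * M1)) • γ1 := congrArg Prod.fst h
    have h3 : (x.2 / (2 * M1)) • γ2 = (y.2 / (2 * M1)) • γ2 := congrArg Prod.snd h
    obtain ⟨a1, a2⟩ := hmemD x hx
    obtain ⟨b1, b2⟩ := hmemD y hy
    have r2 := zsmul_small_inj γ2 _ hγ2 M2 hM2 _ _ a2 b2 h3
    have r1 : x.2 % (2 * M1) = y.2 % (2 * M1) := by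
      have h4 : p • (j x.1 + (x.2 % (2 * M1)) • γ1) = p • (j y.1 + (y.2 % (2 * M1)) • γ1) := by
        rw [h0]
      rw [smul_add, smul_add, ← map_nsmul, ← map_nsmul, hpV, hpV, map_zero, zero_add, zero_add,
        ← natCast_zsmul, ← natCast_zsmul, ← mul_smul, ← mul_smul, zsmul_eq_zsmul_iff_modEq,
        hγ1] at h4
      have h5 : x.2 % (2 * M1) ≡ y.2 % (2 * M1) [ZMOD (N1 : ℤ)] := by
        have hg : IsCoprime (N1 : ℤ) (p : ℤ) := Nat.isCoprime_iff_coprime.mpr hcop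
        rw [Int.modEq_iff_dvd] at h4 ⊢
        rw [← mul_sub] at h4
        exact hg.dvd_of_dvd_mul_left h4
      have hMN : (M1 : ℤ) ≤ N1 := by exact_mod_cast hM1
      have h6 : (x.2 % (2 * M1)) % N1 = x.2 % (2 * M1) :=
        Int.emod_eq_of_lt a1.1 (by linarith [a1.2])
      have h7 : (y.2 % (2 * M1)) % N1 = y.2 % (2 * M1) :=
        Int.emod_eq_of_lt b1.1 (by linarith [b1.2])
      unfold Int.ModEq at h5
      rw [h6, h7] at h5
      exact h5
    rw [r1] at h0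
    refine Prod.ext (hj (add_right_cancel h0)) ?_
    rw [hdm x.2, hdm y.2, r1, r2]
  have hom : ∀ w ∈ D, ∀ x ∈ D, ∀ y ∈ D, ∀ z ∈ D, w + x = y + z → φ w + φ x = φ y + φ z := by
    intro w hw x hx y hy z hz h
    have h1 : w.1 + x.1 = y.1 + z.1 := congrArg Prod.fst h
    have h2 : w.2 + x.2 = y.2 + z.2 := congrArg Prod.snd h
    obtain ⟨w1, w2⟩ := hmemD w hw
    obtain ⟨x1, x2⟩ := hmemD x hx
    obtain ⟨y1, y2⟩ := hmemD y hy
    obtain ⟨z1, z2⟩ := hmemD z hz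
    -- residues
    have h3 : w.2 % (2 * M1) + x.2 % (2 * M1) = y.2 % (2 * M1) + z.2 % (2 * M1) := by
      have e : (2 * (M1 : ℤ)) * ((y.2 / (2 * M1) + z.2 / (2 * M1)) -
          (w.2 / (2 * M1) + x.2 / (2 * M1))) =
          (w.2 % (2 * M1) + x.2 % (2 * M1)) - (y.2 % (2 * M1) + z.2 % (2 * M1)) := by
        have := hdm w.2; have := hdm x.2; have := hdm y.2; have := hdm z.2
        linarith
      set s := (y.2 / (2 * M1) + z.2 / (2 * M1)) - (w.2 / (2 * M1) + x.2 / (2 * M1)) with hs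
      have hs0 : s = 0 := by
        by_contra hne
        rcases lt_or_gt_of_ne hne with h | h
        · nlinarith [w1.1, w1.2, x1.1, x1.2, y1.1, y1.2, z1.1, z1.2]
        · nlinarith [w1.1, w1.2, x1.1, x1.2, y1.1, y1.2, z1.1, z1.2]
      rw [hs0] at e
      linarith
    have h4 : w.2 / (2 * M1) + x.2 / (2 * M1) = y.2 / (2 * M1) + z.2 / (2 * M1) := by
      have := hdm w.2; have := hdm x.2; have := hdm y.2; have := hdm z.2
      have e : (2 * (M1 : ℤ)) * (w.2 / (2 * M1) + x.2 / (2 * M1)) =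
          (2 * (M1 : ℤ)) * (y.2 / (2 * M1) + z.2 / (2 * M1)) := by linarith
      exact mul_left_cancel₀ hpos.ne' e
    have h5 : j w.1 + j x.1 = j y.1 + j z.1 := by rw [← map_add, ← map_add, h1]
    refine Prod.ext ?_ ?_
    · show (j w.1 + (w.2 % (2 * M1)) • γ1) + (j x.1 + (x.2 % (2 * M1)) • γ1) =
        (j y.1 + (y.2 % (2 * M1)) • γ1) + (j z.1 + (z.2 % (2 * M1)) • γ1)
      have e1 : (j w.1 + (w.2 % (2 * M1)) • γ1) + (j x.1 + (x.2 % (2 * M1)) • γ1) =
        (j w.1 + j x.1) + ((w.2 % (2 * M1)) + (x.2 % (2 * M1))) • γ1 := by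
        rw [add_zsmul]; abel
      have e2 : (j y.1 + (y.2 % (2 * M1)) • γ1) + (j z.1 + (z.2 % (2 * M1)) • γ1) =
        (j y.1 + j z.1) + ((y.2 % (2 * M1)) + (z.2 % (2 * M1))) • γ1 := by
        rw [add_zsmul]; abel
      rw [e1, e2, h5, h3]
    · show (w.2 / (2 * M1)) • γ2 + (x.2 / (2 * M1)) • γ2 =
        (y.2 / (2 * M1)) • γ2 + (z.2 / (2 * M1)) • γ2
      rw [← add_zsmul, ← add_zsmul, h4]
  obtain ⟨S, hSD, hSs, hSc⟩ := transfer T Ψ hΨ D φ hφ hom
  refine ⟨S, hSs, ?_, ?_⟩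
  · intro x hx
    obtain ⟨a1, a2⟩ := hmemD x (hSD hx)
    have e := hdm x.2
    have hM1z : (0 : ℤ) < M1 := by exact_mod_cast hM1'
    constructor
    · rw [e]
      have := mul_nonneg hpos.le a2.1
      linarith [a1.1]
    · have h1 : x.2 / (2 * M1) + 1 ≤ (M2 : ℤ) := by linarith [a2.2]
      have h2 : (2 * (M1 : ℤ)) * (x.2 / (2 * M1) + 1) ≤ 2 * M1 * M2 :=
        mul_le_mul_of_nonneg_left h1 hpos.le
      rw [e]
      linarith [a1.2]
  · rw [hDc, Fintype.card_prod] at hSc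
    exact hSc

end Pool.Agent.Helper75.Sidon
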