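import Pool.Agent.Helper75.Sidon.IsoSq
import Pool.Agent.Helper75.Sidon.Defs

/-! Sidon sets of size at least `3√n / 40` in the groups `(ℤ/25)^r`. -/

namespace Pool.Agent.Helper75.Sidon

open Module

/-- The group `F × F` with addition twisted by the cocycle
`((v + v') ^ 5 - v ^ 5 - v' ^ 5) / 5 = v v' (v + v') (v ^ 2 + v v' + v' ^ 2)`. -/
@[ext] structure TF (F : Type) [Field F] where
  /-- first component -/
  v : F
  /-- second component -/
  z : F

namespace TF

variable {F : Type} [Field F]

instance : Zero (TF F) := ⟨⟨0, 0⟩⟩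
instance : Add (TF F) :=
  ⟨fun x y => ⟨x.v + y.v,
    x.z + y.z - x.v * y.v * (x.v + y.v) * (x.v ^ 2 + x.v * y.v + y.v ^ 2)⟩⟩
instance : Neg (TF F) := ⟨fun x => ⟨-x.v, -x.z⟩⟩

@[simp] theorem zero_v : (0 : TF F).v = 0 := rfl
@[simp] theorem zero_z : (0 : TF F).z = 0 := rfl
@[simp] theorem add_v (x y : TF F) : (x + y).v = x.v + y.v := rfl
@[simp] theorem add_z (x y : TF F) : (x + y).z =
    x.z + y.z - x.v * y.v * (x.v + y.v) * (x.v ^ 2 + x.v * y.v + y.v ^ 2) := rfl
@[simp] theorem neg_v (x : TF F) : (-x).v = -x.v := rfl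
@[simp] theorem neg_z (x : TF F) : (-x).z = -x.z := rfl

instance : AddCommGroup (TF F) where
  add_assoc x y w := by
    ext
    · simp [add_assoc]
    · simp only [add_z, add_v]
      ring
  zero_add x := by ext <;> simp
  add_zero x := by ext <;> simp
  nsmul := nsmulRec
  zsmul := zsmulRec
  neg_add_cancel x := by ext <;> simp
  add_comm x y := by
    ext
    · simp [add_comm]
    · simp only [add_z]
      ring

/-- The underlying pairs. -/
def equivProd (F : Type) [Field F] : TF F ≃ F × F where
  toFun x := (x.v, x.z)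
  invFun x := ⟨x.1, x.2⟩
  left_inv _ := rfl
  right_inv _ := rfl

theorem five_nsmul [CharP F 5] (x : TF F) : 5 • x = ⟨0, x.v ^ 5⟩ := by
  have h5 : (5 : F) = 0 := by exact_mod_cast CharP.cast_eq_zero F 5
  have h : 5 • x = x + x + x + x + x := by
    rw [show 5 = 4 + 1 by norm_num, add_nsmul, show 4 = 3 + 1 by norm_num, add_nsmul,
      show 3 = 2 + 1 by norm_num, add_nsmul, two_nsmul, one_nsmul]
  rw [h]
  ext
  · simp only [add_v]
    linear_combination x.v * h5
  · simp only [add_z, add_v]
    linear_combination (x.z - 125 * x.v ^ 5) * h5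

theorem twentyfive_nsmul [CharP F 5] (x : TF F) : (5 * 5) • x = 0 := by
  rw [mul_nsmul, five_nsmul, five_nsmul]
  ext <;> simp

end TF

theorem z5_roots : ∀ a b : ZMod 5,
    ((Finset.univ : Finset (ZMod 5)).filter (fun t => a + 2 * t * b + t ^ 2 = 0)).card ≤ 2 := by
  decide

theorem z5_sum (f : ZMod 5 → ℕ) : ∑ c, f c = f 0 + f 1 + f 2 + f 3 + f 4 :=
  Fin.sum_univ_five f

theorem z5_ne : (1 : ZMod 5) ≠ 0 ∧ (2 : ZMod 5) ≠ 0 ∧ (3 : ZMod 5) ≠ 0 ∧ (4 : ZMod 5) ≠ 0 := by
  decide

theorem z5_four : ∀ c : ZMod 5, c + c + c + c = 0 → c = 0 := by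
  decide

/-- The main construction. -/
theorem exists_sidon_tf (F : Type) [Field F] [Fintype F] [Algebra (ZMod 5) F] :
    ∃ S : Finset (TF F), IsSidon S ∧ 3 * Fintype.card F ≤ 40 * S.card := by
  classical
  have : Fact (Nat.Prime 5) := ⟨by norm_num⟩
  have hch : CharP F 5 := charP_of_injective_algebraMap (algebraMap (ZMod 5) F).injective 5
  have h5 : (5 : F) = 0 := by exact_mod_cast CharP.cast_eq_zero F 5
  obtain ⟨lam, hlam⟩ := (Algebra.linearMap (ZMod 5) F).exists_leftInverse_of_injective
    (LinearMap.ker_eq_bot.mpr (algebraMap (ZMod 5) F).injective)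
  have hlam' : ∀ x : ZMod 5, lam (algebraMap (ZMod 5) F x) = x :=
    fun x => LinearMap.congr_fun hlam x
  have hlam1 : lam 1 = 1 := by
    have := hlam' 1
    rwa [map_one] at this
  let Q : F → ZMod 5 := fun x => lam (x ^ 2)
  let N : ZMod 5 → Finset F := fun c => Finset.univ.filter (fun x => Q x = c)
  -- few zeros
  have hQt : ∀ (x : F) (t : ZMod 5), Q (x + algebraMap (ZMod 5) F t) =
      Q x + 2 * t * lam x + t ^ 2 := by
    intro x t
    have e : (x + algebraMap (ZMod 5) F t) ^ 2 =
        x ^ 2 + (2 * t) • x + algebraMap (ZMod 5) F (t ^ 2) := by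
      rw [Algebra.smul_def, map_mul, map_pow, map_ofNat]
      ring
    show lam _ = lam _ + _ + _
    rw [e, map_add, map_add, map_smul, hlam', smul_eq_mul]
  have hN0 : 5 * (N 0).card ≤ 2 * Fintype.card F := by
    have h1 : ∑ t : ZMod 5, (Finset.univ.filter
        (fun x : F => Q (x + algebraMap (ZMod 5) F t) = 0)).card = 5 * (N 0).card := by
      have h2 : ∀ t : ZMod 5, (Finset.univ.filter
          (fun x : F => Q (x + algebraMap (ZMod 5) F t) = 0)).card = (N 0).card := by
        intro t
        apply Finset.card_bij (fun x _ => x + algebraMap (ZMod 5) F t)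
        · intro x hx
          exact Finset.mem_filter.mpr ⟨Finset.mem_univ _, (Finset.mem_filter.mp hx).2⟩
        · intro x _ y _ h
          exact add_right_cancel h
        · intro y hy
          refine ⟨y - algebraMap (ZMod 5) F t, ?_, by ring⟩
          rw [Finset.mem_filter]
          refine ⟨Finset.mem_univ _, ?_⟩
          rw [sub_add_cancel]
          exact (Finset.mem_filter.mp hy).2
      rw [Finset.sum_congr rfl (fun t _ => h2 t), Finset.sum_const, smul_eq_mul]
      rfl
    have h3 : ∑ t : ZMod 5, (Finset.univ.filter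
        (fun x : F => Q (x + algebraMap (ZMod 5) F t) = 0)).card =
        ∑ x : F, (Finset.univ.filter
          (fun t : ZMod 5 => Q (x + algebraMap (ZMod 5) F t) = 0)).card := by
      simp_rw [Finset.card_filter]
      exact Finset.sum_comm
    rw [← h1, h3]
    calc ∑ x : F, (Finset.univ.filter
          (fun t : ZMod 5 => Q (x + algebraMap (ZMod 5) F t) = 0)).card
        ≤ ∑ _x : F, 2 := by
          apply Finset.sum_le_sum
          intro x _
          simp_rw [hQt]
          exact z5_roots (Q x) (lam x)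
      _ = 2 * Fintype.card F := by
          rw [Finset.sum_const, smul_eq_mul, mul_comm]
          rfl
  have hsum : ∑ c : ZMod 5, (N c).card = Fintype.card F := by
    have := Finset.card_eq_sum_card_fiberwise (f := Q) (s := (Finset.univ : Finset F))
      (t := (Finset.univ : Finset (ZMod 5))) (fun _ _ => Finset.mem_univ _)
    exact this.symm
  have hsum' : (N 0).card + (N 1).card + (N 2).card + (N 3).card + (N 4).card =
      Fintype.card F := by
    rw [← hsum]
    exact (z5_sum (fun c => (N c).card)).symm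
  obtain ⟨c, hc, hNc⟩ : ∃ c : ZMod 5, c ≠ 0 ∧ 3 * Fintype.card F ≤ 20 * (N c).card := by
    by_contra hcon
    push Not at hcon
    have h1 := hcon 1 z5_ne.1
    have h2 := hcon 2 z5_ne.2.1
    have h3 := hcon 3 z5_ne.2.2.1
    have h4 := hcon 4 z5_ne.2.2.2
    omega
  -- half of `N c`
  let f := Fintype.equivFin F
  let D : Finset F := (N c).filter (fun x => f x < f (-x))
  have hD1 : ∀ x ∈ D, ∀ y ∈ D, x + y ≠ 0 := by
    intro x hx y hy h
    have hy' : y = -x := eq_neg_of_add_eq_zero_right h
    subst hy'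
    have h1 : f x < f (-x) := (Finset.mem_filter.mp hx).2
    have h2 : f (-x) < f (- -x) := (Finset.mem_filter.mp hy).2
    rw [neg_neg] at h2
    exact absurd h1 (not_lt.mpr h2.le)
  have hD2 : ∀ x ∈ D, lam (x ^ 2) = c := by
    intro x hx
    exact (Finset.mem_filter.mp (Finset.mem_filter.mp hx).1).2
  have hDc : (N c).card ≤ 2 * D.card := by
    let D' : Finset F := D.image (fun x => -x)
    have hD'c : D'.card ≤ D.card := Finset.card_image_le
    have hsub : N c ⊆ D ∪ D' := by
      intro x hx
      have hxQ : Q x = c := (Finset.mem_filter.mp hx).2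
      rw [Finset.mem_union, Finset.mem_image]
      rcases lt_trichotomy (f x) (f (-x)) with h | h | h
      · left
        exact Finset.mem_filter.mpr ⟨hx, h⟩
      · exfalso
        have h1 : x = -x := f.injective h
        have h6 : x = 0 := by linear_combination (3 : F) * h1 - x * h5
        apply hc
        rw [← hxQ, h6]
        show lam (0 ^ 2) = 0
        rw [zero_pow (by norm_num), map_zero]
      · right
        refine ⟨-x, Finset.mem_filter.mpr ⟨?_, ?_⟩, neg_neg x⟩
        · refine Finset.mem_filter.mpr ⟨Finset.mem_univ _, ?_⟩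
          show lam ((-x) ^ 2) = c
          rw [neg_sq]
          exact hxQ
        · rwa [neg_neg]
    have h1 : (N c).card ≤ (D ∪ D').card := Finset.card_le_card hsub
    have h2 : (D ∪ D').card ≤ D.card + D'.card := Finset.card_union_le _ _
    omega
  let Φ : F → TF F := fun v => ⟨v, 0⟩
  have hΦinj : Function.Injective Φ := by
    intro v w h
    exact congrArg (fun x => x.v) h
  refine ⟨D.image Φ, ?_, ?_⟩
  · intro a ha b hb c' hc' d hd h
    obtain ⟨v, hv, rfl⟩ := Finset.mem_image.mp ha
    obtain ⟨v', hv', rfl⟩ := Finset.mem_image.mp hb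
    obtain ⟨w, hw, rfl⟩ := Finset.mem_image.mp hc'
    obtain ⟨w', hw', rfl⟩ := Finset.mem_image.mp hd
    have e1 : v + v' = w + w' := congrArg (fun x => x.v) h
    have e2 : (0 : F) + 0 - v * v' * (v + v') * (v ^ 2 + v * v' + v' ^ 2) =
        0 + 0 - w * w' * (w + w') * (w ^ 2 + w * w' + w' ^ 2) := congrArg (fun x => x.z) h
    have hs : v + v' ≠ 0 := hD1 v hv v' hv'
    have hw'' : w' = v + v' - w := by linear_combination -e1
    subst hw''
    have e3 : (v + v') * ((v * v' - w * (v + v' - w)) *
        ((v + v') ^ 2 - v * v' - w * (v + v' - w))) = 0 := by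
      linear_combination -e2
    have e4 := (mul_eq_zero.mp e3).resolve_left hs
    rcases mul_eq_zero.mp e4 with e5 | e5
    · have e6 : (v - w) * (v - (v + v' - w)) = 0 := by linear_combination -e5
      rcases mul_eq_zero.mp e6 with h0 | h0
      · left
        have h1 : v = w := sub_eq_zero.mp h0
        subst h1
        exact ⟨rfl, by rw [add_sub_cancel_left]⟩
      · right
        have h1 : v' = w := by linear_combination -h0
        subst h1
        exact ⟨by rw [add_sub_cancel_right], rfl⟩
    · exfalso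
      have e6 : v ^ 2 + v' ^ 2 + w ^ 2 + (v + v' - w) ^ 2 = 0 := by
        linear_combination 2 * e5
      have e7 := congrArg lam e6
      rw [map_add, map_add, map_add, map_zero, hD2 v hv, hD2 v' hv', hD2 w hw,
        hD2 (v + v' - w) hw'] at e7
      exact hc (z5_four c e7)
  · rw [Finset.card_image_of_injective _ hΦinj]
    omega

theorem twentyfive_family (r : ℕ) (G : Type) [AddCommGroup G] [Fintype G]
    (e : G ≃+ (Fin r → ZMod 25)) :
    ∃ A : Finset G, IsSidon A ∧ 3 * Real.sqrt (Fintype.card G) ≤ 40 * A.card := by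
  classical
  have : Fact (Nat.Prime 5) := ⟨by norm_num⟩
  have hcard : Fintype.card G = (5 ^ r) ^ 2 := by
    rw [← Nat.card_eq_fintype_card, Nat.card_congr e.toEquiv, Nat.card_pi]
    simp only [Nat.card_zmod, Finset.prod_const, Finset.card_univ, Fintype.card_fin]
    have : (25 : ℕ) = 5 ^ 2 := by norm_num
    rw [this, ← pow_mul, ← pow_mul, mul_comm]
  have hsq : Real.sqrt (Fintype.card G) = 5 ^ r := by
    rw [hcard]
    push_cast
    exact Real.sqrt_sq (by positivity)
  rw [hsq]
  rcases Nat.eq_zero_or_pos r with h0 | h0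
  · subst h0
    refine ⟨{0}, ?_, ?_⟩
    · intro a ha b hb c hc d hd _
      rw [Finset.mem_singleton] at ha hb hc hd
      left
      rw [ha, hb, hc, hd]
      exact ⟨rfl, rfl⟩
    · simp
      norm_num
  · have : Fintype (GaloisField 5 r) := Fintype.ofFinite _
    have hF : Nat.card (GaloisField 5 r) = 5 ^ r := GaloisField.card 5 r (by omega)
    have hch : CharP (GaloisField 5 r) 5 := inferInstance
    obtain ⟨S, hS, hSc⟩ := exists_sidon_tf (GaloisField 5 r)
    have hfin : Finite (TF (GaloisField 5 r)) := Finite.of_equiv _ (TF.equivProd _).symm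
    have : Fintype (TF (GaloisField 5 r)) := Fintype.ofFinite _
    obtain ⟨φ⟩ := iso_sq 5 (TF (GaloisField 5 r)) r 0 (fun x => TF.twentyfive_nsmul x)
      (by
        rw [Nat.card_congr (TF.equivProd _), Nat.card_prod, hF, mul_pow, pow_zero, mul_one])
      (by
        rw [← hF]
        have hsurj : Function.Surjective (frobenius (GaloisField 5 r) 5) :=
          Finite.injective_iff_surjective.mp (frobenius_inj (GaloisField 5 r) 5)
        let f : GaloisField 5 r → (nsmulAddMonoidHom 5 :
            (TF (GaloisField 5 r)) →+ (TF (GaloisField 5 r))).range :=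
          fun z => ⟨⟨0, z⟩, by
            obtain ⟨c, hc⟩ := hsurj z
            refine ⟨⟨c, 0⟩, ?_⟩
            show 5 • (⟨c, 0⟩ : TF (GaloisField 5 r)) = ⟨0, z⟩
            rw [TF.five_nsmul, ← hc]
            rfl⟩
        symm
        apply Nat.card_congr
        apply Equiv.ofBijective f
        constructor
        · intro z z' h
          exact congrArg (fun x : (nsmulAddMonoidHom 5 :
            (TF (GaloisField 5 r)) →+ (TF (GaloisField 5 r))).range => x.1.z) h
        · rintro ⟨_, ⟨x, rfl⟩⟩
          refine ⟨x.v ^ 5, ?_⟩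
          apply Subtype.ext
          show (⟨0, x.v ^ 5⟩ : TF (GaloisField 5 r)) = 5 • x
          rw [TF.five_nsmul])
    let ι : (Fin r → ZMod (5 * 5)) ≃+ ((Fin r → ZMod (5 * 5)) × (Fin 0 → ZMod 5)) :=
      { toFun := fun x => (x, 0)
        invFun := fun x => x.1
        left_inv := fun _ => rfl
        right_inv := fun x => Prod.ext rfl (Subsingleton.elim _ _)
        map_add' := fun x y => Prod.ext rfl (Subsingleton.elim _ _) }
    let e' : G ≃+ (Fin r → ZMod (5 * 5)) := e
    let ψ : TF (GaloisField 5 r) ≃+ G := (e'.trans (ι.trans φ)).symm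
    refine ⟨S.image ψ, ?_, ?_⟩
    · intro x hx y hy z hz w hw h
      obtain ⟨x', hx', rfl⟩ := Finset.mem_image.mp hx
      obtain ⟨y', hy', rfl⟩ := Finset.mem_image.mp hy
      obtain ⟨z', hz', rfl⟩ := Finset.mem_image.mp hz
      obtain ⟨w', hw', rfl⟩ := Finset.mem_image.mp hw
      rw [← map_add, ← map_add] at h
      rcases hS x' hx' y' hy' z' hz' w' hw' (ψ.injective h) with ⟨h1, h2⟩ | ⟨h1, h2⟩
      · left; rw [h1, h2]; exact ⟨rfl, rfl⟩
      · right; rw [h1, h2]; exact ⟨rfl, rfl⟩
    · rw [Finset.card_image_of_injective _ ψ.injective]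
      rw [← Nat.card_eq_fintype_card, hF] at hSc
      exact_mod_cast hSc

end Pool.Agent.Helper75.Sidon
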