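import Mathlib

/-! Groups of exponent nine with prescribed order and prescribed number of triples. -/

namespace Pool.Agent.Helper75.Sidon

open Module

theorem iso_nine (M : Type) [AddCommGroup M] [Fintype M] (a c : ℕ) (h9 : ∀ x : M, 9 • x = 0)
    (hcard : Nat.card M = 9 ^ a * 3 ^ c)
    (h3 : Nat.card (nsmulAddMonoidHom 3 : M →+ M).range = 3 ^ a) :
    Nonempty (((Fin a → ZMod 9) × (Fin c → ZMod 3)) ≃+ M) := by
  classical
  let m9 : Module (ZMod 9) M := AddCommGroup.zmodModule h9
  set K : AddSubgroup M := (nsmulAddMonoidHom 3 : M →+ M).ker with hK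
  set T : AddSubgroup M := (nsmulAddMonoidHom 3 : M →+ M).range with hT
  have hmemK : ∀ x : M, x ∈ K ↔ 3 • x = 0 := fun x => Iff.rfl
  have hTK : T ≤ K := by
    rintro _ ⟨y, rfl⟩
    rw [hmemK]
    show 3 • (3 • y) = 0
    rw [smul_smul]
    exact h9 y
  have hK3 : ∀ x : K, 3 • x = 0 := fun x => Subtype.ext x.2
  let mK : Module (ZMod 3) K := AddCommGroup.zmodModule hK3
  have : Fact (Nat.Prime 3) := ⟨by norm_num⟩
  have hfinK : Finite K := inferInstance
  have hcardK : Nat.card K = 3 ^ (a + c) := by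
    have h1 : Nat.card M = Nat.card (M ⧸ K) * Nat.card K := AddSubgroup.card_eq_card_quotient_mul_card_addSubgroup K
    have h2 : Nat.card (M ⧸ K) = Nat.card T :=
      Nat.card_congr (QuotientAddGroup.quotientKerEquivRange (nsmulAddMonoidHom 3 : M →+ M)).toEquiv
    rw [h2, h3, hcard] at h1
    have h4 : (3 : ℕ) ^ a * (3 ^ (a + c)) = 3 ^ a * Nat.card K := by
      rw [← h1, pow_add]
      have : (9 : ℕ) = 3 * 3 := by norm_num
      rw [this, mul_pow]
      ring
    exact (Nat.eq_of_mul_eq_mul_left (by positivity) h4).symm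
  set T' : Submodule (ZMod 3) K := AddSubgroup.toZModSubmodule 3 (T.addSubgroupOf K) with hT'
  have hmemT' : ∀ x : K, x ∈ T' ↔ (x : M) ∈ T := fun x => Iff.rfl
  have hcardT' : Nat.card T' = 3 ^ a := by
    rw [← h3]
    exact Nat.card_congr (AddSubgroup.addSubgroupOfEquivOfLe hTK).toEquiv
  have hfr : ∀ (W : Type) [AddCommGroup W] [Module (ZMod 3) W] [Finite W] (k : ℕ),
      Nat.card W = 3 ^ k → finrank (ZMod 3) W = k := by
    intro W _ _ _ k hk
    have h1 : Nat.card W = Nat.card (ZMod 3) ^ finrank (ZMod 3) W := Module.natCard_eq_pow_finrank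
    rw [Nat.card_zmod, hk] at h1
    exact (Nat.pow_right_injective (by norm_num) h1).symm
  obtain ⟨C, hC⟩ := T'.exists_isCompl
  have hTfr : finrank (ZMod 3) T' = a := hfr _ _ hcardT'
  have hKfr : finrank (ZMod 3) K = a + c := hfr _ _ hcardK
  have hCfr : finrank (ZMod 3) C = c := by
    have := Submodule.finrank_add_eq_of_isCompl hC
    omega
  let bT : Basis (Fin a) (ZMod 3) T' := finBasisOfFinrankEq _ _ hTfr
  let bC : Basis (Fin c) (ZMod 3) C := finBasisOfFinrankEq _ _ hCfr
  have hx : ∀ i : Fin a, ∃ x : M, 3 • x = ((bT i : T') : K) := by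
    intro i
    have h1 : (((bT i : T') : K) : M) ∈ T := (hmemT' _).mp (bT i).2
    obtain ⟨x, hx⟩ := h1
    exact ⟨x, hx⟩
  choose x hx using hx
  let f1 : (Fin a → ZMod 9) →+ M := (Fintype.linearCombination (ZMod 9) x).toAddMonoidHom
  let f2 : (Fin c → ZMod 3) →+ M :=
    K.subtype.comp (C.subtype.toAddMonoidHom.comp (bC.equivFun.symm.toLinearMap.toAddMonoidHom))
  have hf1 : ∀ u, f1 u = ∑ i, (u i).val • x i := by
    intro u
    show Fintype.linearCombination (ZMod 9) x u = _
    rw [Fintype.linearCombination_apply]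
    apply Finset.sum_congr rfl
    intro i _
    rw [← Nat.cast_smul_eq_nsmul (ZMod 9), ZMod.natCast_zmod_val]
  have key : ∀ w : Fin a → ℕ, (∑ i, (w i) • (3 • x i)) =
      (((∑ i, (w i : ZMod 3) • bT i : T') : K) : M) := by
    intro w
    rw [Submodule.coe_sum, AddSubgroup.val_finsetSum]
    apply Finset.sum_congr rfl
    intro i _
    rw [hx i, Submodule.coe_smul, Nat.cast_smul_eq_nsmul]
    rfl
  let φ : ((Fin a → ZMod 9) × (Fin c → ZMod 3)) →+ M := f1.coprod f2
  have hinj : Function.Injective φ := by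
    rw [injective_iff_map_eq_zero]
    rintro ⟨u, w⟩ h
    have h0 : f1 u + f2 w = 0 := h
    have hf2K : 3 • f2 w = 0 := by
      have h1 : f2 w ∈ K := SetLike.coe_mem _
      exact (hmemK _).mp h1
    have h1 : 3 • f1 u = 0 := by
      have h2 : 3 • (f1 u + f2 w) = 0 := by rw [h0, smul_zero]
      rw [smul_add, hf2K, add_zero] at h2
      exact h2
    have h2 : ∑ i, (u i).val • (3 • x i) = 0 := by
      rw [← h1, hf1, Finset.smul_sum]
      apply Finset.sum_congr rfl
      intro i _
      rw [smul_comm]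
    rw [key] at h2
    have h3' : (∑ i, (((u i).val : ℕ) : ZMod 3) • bT i) = 0 := by
      apply Subtype.ext
      apply Subtype.ext
      exact h2
    have h4 := (Fintype.linearIndependent_iff.mp bT.linearIndependent) _ h3'
    have h5 : ∀ i, 3 ∣ (u i).val := by
      intro i
      have := h4 i
      rwa [ZMod.natCast_eq_zero_iff] at this
    choose u' hu' using h5
    have h6 : f1 u = (((∑ i, (u' i : ZMod 3) • bT i : T') : K) : M) := by
      rw [hf1, ← key]
      apply Finset.sum_congr rfl
      intro i _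
      rw [hu' i, mul_comm, mul_smul]
    have h7 : ((∑ i, (u' i : ZMod 3) • bT i : T') : K) + (bC.equivFun.symm w : C) = 0 := by
      apply Subtype.ext
      rw [h6] at h0
      exact h0
    have h8 : ((∑ i, (u' i : ZMod 3) • bT i : T') : K) = 0 ∧ ((bC.equivFun.symm w : C) : K) = 0 := by
      have hd := Submodule.disjoint_def.mp hC.disjoint
      have e1 : ((∑ i, (u' i : ZMod 3) • bT i : T') : K) = -((bC.equivFun.symm w : C) : K) :=
        eq_neg_of_add_eq_zero_left h7
      have e2 : ((∑ i, (u' i : ZMod 3) • bT i : T') : K) = 0 := by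
        apply hd _ (SetLike.coe_mem _)
        rw [e1]
        exact C.neg_mem (SetLike.coe_mem _)
      refine ⟨e2, ?_⟩
      rw [e2, zero_add] at h7
      exact h7
    have h9' : w = 0 := by
      have : bC.equivFun.symm w = 0 := Subtype.ext h8.2
      exact (LinearEquiv.map_eq_zero_iff _).mp this
    have h10 := (Fintype.linearIndependent_iff.mp bT.linearIndependent) _ (Subtype.ext h8.1)
    have h11 : u = 0 := by
      funext i
      have h12 := h10 i
      rw [ZMod.natCast_eq_zero_iff] at h12
      obtain ⟨t, ht⟩ := h12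
      have h13 : (u i).val < 9 := ZMod.val_lt _
      have h14 : (u i).val = 0 := by
        have := hu' i
        omega
      rw [Pi.zero_apply]
      exact (ZMod.val_eq_zero _).mp h14
    rw [h9', h11]
    rfl
  have hc : Fintype.card ((Fin a → ZMod 9) × (Fin c → ZMod 3)) = Fintype.card M := by
    rw [← Nat.card_eq_fintype_card (α := M), hcard]
    simp
  have hbij : Function.Bijective φ := (Fintype.bijective_iff_injective_and_card φ).mpr ⟨hinj, hc⟩
  exact ⟨AddEquiv.ofBijective φ hbij⟩

end Pool.Agent.Helper75.Sidon
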