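import Pool.Agent.Helper75.Sidon.UnitRing

/-! Near optimal Sidon sets in `V × [0, M)` for `|V| ≤ M ^ (p - 1)`. -/

namespace Pool.Agent.Helper75.Sidon

open Polynomial Finset

theorem exists_gamma (p : ℕ) [Fact p.Prime] (n : ℕ) (hn : n ≠ 0) (α : GaloisField p n)
    (hint : IsIntegral (ZMod p) α) (hα0 : α ≠ 0) (hord : orderOf α = p ^ n - 1) :
    ∃ γ : Additive (AdjoinRoot ((minpoly (ZMod p) α) ^ p))ˣ, addOrderOf γ = p ^ n - 1 := by
  have hpp : p.Prime := Fact.out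
  set f := minpoly (ZMod p) α with hf
  have hirr : Irreducible f := minpoly.irreducible hint
  have hX : IsCoprime (X : (ZMod p)[X]) (f ^ p) := by
    apply IsCoprime.pow_right
    rw [isCoprime_comm, hirr.coprime_iff_not_dvd]
    intro hdvd
    have h1 : aeval α (X : (ZMod p)[X]) = 0 := by
      obtain ⟨q, hq⟩ := hdvd
      rw [hq, map_mul, minpoly.aeval, zero_mul]
    rw [aeval_X] at h1
    exact hα0 h1
  have hu : IsUnit (AdjoinRoot.mk (f ^ p) X) := isUnit_mk _ _ hX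
  refine ⟨p • uA (AdjoinRoot.mk (f ^ p) X), ?_⟩
  have hval : ∀ k : ℕ, ((Additive.toMul (k • (p • uA (AdjoinRoot.mk (f ^ p) X))) :
      (AdjoinRoot (f ^ p))ˣ) : AdjoinRoot (f ^ p)) = (AdjoinRoot.mk (f ^ p) X) ^ (p * k) := by
    intro k
    rw [toMul_nsmul, toMul_nsmul, Units.val_pow_eq_pow_val, Units.val_pow_eq_pow_val, uA_val hu,
      ← pow_mul]
  have hzero : ∀ k : ℕ, k • (p • uA (AdjoinRoot.mk (f ^ p) X)) = 0 ↔
      (AdjoinRoot.mk (f ^ p) X) ^ (p * k) = 1 := by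
    intro k
    rw [← hval k]
    constructor
    · intro h
      rw [h]
      rfl
    · intro h
      apply Additive.toMul.injective
      apply Units.ext
      rw [h]
      rfl
  apply Nat.dvd_antisymm
  · apply addOrderOf_dvd_of_nsmul_eq_zero
    rw [hzero]
    have h1 : f ∣ (X : (ZMod p)[X]) ^ (p ^ n - 1) - 1 := by
      apply minpoly.dvd
      rw [map_sub, map_pow, aeval_X, map_one, ← hord, pow_orderOf_eq_one, sub_self]
    obtain ⟨w, hw⟩ := h1
    have h2 : (X : (ZMod p)[X]) ^ (p ^ n - 1) = 1 + f * w := by rw [← hw]; ring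
    rw [mul_comm, pow_mul, ← map_pow, h2, mk_one_add_pow]
  · set k := addOrderOf (p • uA (AdjoinRoot.mk (f ^ p) X)) with hk
    have h1 : k • (p • uA (AdjoinRoot.mk (f ^ p) X)) = 0 := addOrderOf_nsmul_eq_zero _
    rw [hzero, ← map_pow, ← map_one (AdjoinRoot.mk (f ^ p)), AdjoinRoot.mk_eq_mk] at h1
    have h2 : α ^ (p * k) = 1 := by
      have h3 : f ∣ X ^ (p * k) - 1 := dvd_trans (dvd_pow_self f hpp.ne_zero) h1
      obtain ⟨q, hq⟩ := h3
      have h4 := congrArg (aeval α) hq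
      rw [map_mul, minpoly.aeval, zero_mul, map_sub, map_pow, aeval_X, map_one] at h4
      exact sub_eq_zero.mp h4
    have h3 : p ^ n - 1 ∣ p * k := by
      rw [← hord]
      exact orderOf_dvd_of_pow_eq_one h2
    have hcop : Nat.Coprime (p ^ n - 1) p := by
      have h4 : 1 ≤ p ^ n := Nat.one_le_pow _ _ hpp.pos
      rw [Nat.coprime_comm, Nat.Prime.coprime_iff_not_dvd hpp]
      intro hdvd
      have h5 : p ∣ p ^ n := dvd_pow_self p hn
      have h6 : p ∣ p ^ n - (p ^ n - 1) := Nat.dvd_sub h5 hdvd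
      rw [Nat.sub_sub_self h4] at h6
      exact hpp.one_lt.ne' (Nat.dvd_one.mp h6)
    exact hcop.dvd_of_dvd_mul_left h3

theorem ke_core (p : ℕ) [Fact p.Prime] (hp : p ≠ 2) (V : Type) [AddCommGroup V]
    [Module (ZMod p) V] [Fintype V] (δ1 δ2 d M1 M2 : ℕ) (hδ1 : 1 ≤ δ1) (hδ2 : 1 ≤ δ2)
    (hne : δ1 ≠ δ2) (hd : p * δ1 + δ2 = 2 * d) (hM1 : M1 < p ^ δ1) (hM2 : M2 < p ^ δ2)
    (hM1' : 1 ≤ M1) (hV : Module.finrank (ZMod p) V < (p - 1) * δ1) :
    ∃ S : Finset (V × ℤ), IsSidon S ∧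
      (∀ x ∈ S, 0 ≤ x.2 ∧ x.2 + M1 < 2 * M1 * M2) ∧
      p ^ d * (Fintype.card V * (M1 * M2)) ≤ 4 * d * (S.card * p ^ (2 * d)) := by
  classical
  have hpp : p.Prime := Fact.out
  have hp3 : 3 ≤ p := by
    have := hpp.two_le
    omega
  have h3δ : 3 * δ1 ≤ p * δ1 := Nat.mul_le_mul_right _ hp3
  have hd2 : 2 ≤ d := by omega
  have hdδ : δ1 < d := by omega
  obtain ⟨α, hαi, hαd, hα0, hαo⟩ := exists_gen' p δ1 (by omega)
  obtain ⟨β, hβi, hβd, hβ0, hβo⟩ := exists_gen' p δ2 (by omega)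
  obtain ⟨γ2, hγ2⟩ := exists_unit_gen p δ2 (by omega)
  set f1 := minpoly (ZMod p) α with hf1
  set f2 := minpoly (ZMod p) β with hf2
  obtain ⟨γ1, hγ1⟩ : ∃ γ : Additive (AdjoinRoot (f1 ^ p))ˣ, addOrderOf γ = p ^ δ1 - 1 :=
    exists_gamma p δ1 (by omega) α hαi hα0 hαo
  have m1 : f1.Monic := minpoly.monic hαi
  have m2 : f2.Monic := minpoly.monic hβi
  have ir1 : Irreducible f1 := minpoly.irreducible hαi
  have ir2 : Irreducible f2 := minpoly.irreducible hβi
  obtain ⟨hfin, hcard⟩ := adjoin_card p (f1 ^ p) (m1.pow p)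
  obtain ⟨j, hj⟩ := exists_j p f1 m1 δ1 hαd V hV
  obtain ⟨T, hT, hTc⟩ := count_irred (ZMod p) d (by omega)
  rw [ZMod.card] at hTc
  set T' := T.erase f2 with hT'
  have hT'c : p ^ d ≤ 4 * d * T'.card := by
    have h1 : 2 * d < p ^ d := by
      have : ∀ n, 2 ≤ n → 2 * n < 3 ^ n := by
        intro n hn
        induction n, hn using Nat.le_induction with
        | base => norm_num
        | succ k hk ih => rw [pow_succ]; omega
      calc 2 * d < 3 ^ d := this d hd2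
        _ ≤ p ^ d := Nat.pow_le_pow_left hp3 d
    have h2 : 2 ≤ T.card := by
      by_contra hcon
      have : T.card ≤ 1 := by omega
      have : 2 * d * T.card ≤ 2 * d * 1 := Nat.mul_le_mul_left _ this
      omega
    have h3 : T.card - 1 ≤ T'.card := Finset.pred_card_le_card_erase
    have h4 : T.card ≤ 2 * T'.card := by omega
    calc p ^ d ≤ 2 * d * T.card := hTc
      _ ≤ 2 * d * (2 * T'.card) := Nat.mul_le_mul_left _ h4
      _ = 4 * d * T'.card := by ring
  have hprop : ∀ P ∈ T', P.Monic ∧ Irreducible P ∧ P.natDegree = d ∧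
      IsUnit (AdjoinRoot.mk (f1 ^ p) P) ∧ aeval β P ≠ 0 := by
    intro P hP
    rw [hT', Finset.mem_erase] at hP
    obtain ⟨hPβ, hPT⟩ := hP
    obtain ⟨hm, hi, hdeg⟩ := hT P hPT
    refine ⟨hm, hi, hdeg, ?_, ?_⟩
    · apply isUnit_mk
      apply IsCoprime.pow_right
      rw [isCoprime_comm, ir1.coprime_iff_not_dvd]
      intro hdvd
      have := eq_of_monic_of_associated m1 hm (ir1.associated_of_dvd hi hdvd)
      rw [← this, hαd] at hdeg
      omega
    · intro h0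
      have hdvd : f2 ∣ P := minpoly.dvd (ZMod p) β h0
      have := eq_of_monic_of_associated m2 hm (ir2.associated_of_dvd hi hdvd)
      exact hPβ this.symm
  have : Fintype (AdjoinRoot (f1 ^ p))ˣ := Fintype.ofFinite _
  have : Fintype (Additive (AdjoinRoot (f1 ^ p))ˣ) := Fintype.ofFinite _
  have : Fintype (Additive (GaloisField p δ2)ˣ) := Fintype.ofFinite _
  have hN1 : M1 ≤ p ^ δ1 - 1 := by omega
  have hN2 : M2 ≤ p ^ δ2 - 1 := by omega
  have hcop : Nat.Coprime (p ^ δ1 - 1) p := by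
    have h4 : 1 ≤ p ^ δ1 := Nat.one_le_pow _ _ hpp.pos
    rw [Nat.coprime_comm, Nat.Prime.coprime_iff_not_dvd hpp]
    intro hdvd
    have h5 : p ∣ p ^ δ1 := dvd_pow_self p (by omega)
    have h6 : p ∣ p ^ δ1 - (p ^ δ1 - 1) := Nat.dvd_sub h5 hdvd
    rw [Nat.sub_sub_self h4] at h6
    exact hpp.one_lt.ne' (Nat.dvd_one.mp h6)
  have hpV : ∀ v : V, p • v = 0 := by
    intro v
    have h : ((p : ZMod p)) • v = p • v := Nat.cast_smul_eq_nsmul (ZMod p) p v
    rw [← h, ZMod.natCast_self, zero_smul]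
  obtain ⟨S, hS, hSb, hSc⟩ := embed_gen p V hpV (Additive (AdjoinRoot (f1 ^ p))ˣ)
    (Additive (GaloisField p δ2)ˣ) j hj (p ^ δ1 - 1) (p ^ δ2 - 1) M1 M2 γ1 hγ1 hcop γ2 hγ2 hN1 hN2
    hM1' T' (fun P => (uA (AdjoinRoot.mk (f1 ^ p) P), uu (aeval β P))) (by
      intro a ha b hb c hc e he h
      obtain ⟨ma, ia, da, ua, na⟩ := hprop a ha
      obtain ⟨mb, ib, db, ub, nb⟩ := hprop b hb
      obtain ⟨mc, ic, dc, uc, nc⟩ := hprop c hc
      obtain ⟨me, ie, de, ue, ne⟩ := hprop e he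
      have h0 : uA (AdjoinRoot.mk (f1 ^ p) a) + uA (AdjoinRoot.mk (f1 ^ p) b) =
        uA (AdjoinRoot.mk (f1 ^ p) c) + uA (AdjoinRoot.mk (f1 ^ p) e) := congrArg Prod.fst h
      have h3 : uu (aeval β a) + uu (aeval β b) = uu (aeval β c) + uu (aeval β e) :=
        congrArg Prod.snd h
      have h1 := uA_add ua ub uc ue h0
      rw [← map_mul, ← map_mul, AdjoinRoot.mk_eq_mk] at h1
      have h2 := uu_add na nb nc ne h3
      have c2 : f2 ∣ a * b - c * e := by
        apply minpoly.dvd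
        rw [map_sub, map_mul, map_mul, h2, sub_self]
      have cop : IsCoprime (f1 ^ p) f2 := by
        apply IsCoprime.pow_left
        rw [ir1.coprime_iff_not_dvd]
        intro hdvd
        have := eq_of_monic_of_associated m1 m2 (ir1.associated_of_dvd ir2 hdvd)
        apply hne
        rw [← hαd, ← hβd, this]
      exact sidon_of_dvd (f1 ^ p * f2) a b c e d ((m1.pow p).mul m2) (by
        rw [(m1.pow p).natDegree_mul m2, m1.natDegree_pow, hαd, hβd, hd]) ma mb mc me ia ib ic ie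
        da db dc de (cop.mul_dvd h1 c2))
  refine ⟨S, hS, hSb, ?_⟩
  have hK1 : Fintype.card (Additive (AdjoinRoot (f1 ^ p))ˣ) ≤ p ^ (p * δ1) := by
    rw [← Nat.card_eq_fintype_card]
    have h1 : Nat.card (Additive (AdjoinRoot (f1 ^ p))ˣ) = Nat.card (AdjoinRoot (f1 ^ p))ˣ :=
      Nat.card_congr Additive.toMul
    rw [h1]
    have h2 : Nat.card (AdjoinRoot (f1 ^ p))ˣ ≤ Nat.card (AdjoinRoot (f1 ^ p)) :=
      Nat.card_le_card_of_injective _ Units.val_injective
    rw [hcard, m1.natDegree_pow, hαd] at h2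
    exact h2
  have hK2 : Fintype.card (Additive (GaloisField p δ2)ˣ) ≤ p ^ δ2 := by
    rw [← Nat.card_eq_fintype_card]
    have h1 : Nat.card (Additive (GaloisField p δ2)ˣ) = Nat.card (GaloisField p δ2)ˣ :=
      Nat.card_congr Additive.toMul
    rw [h1, Nat.card_units, GaloisField.card p δ2 (by omega)]
    omega
  calc p ^ d * (Fintype.card V * (M1 * M2))
      ≤ 4 * d * T'.card * (Fintype.card V * (M1 * M2)) := Nat.mul_le_mul_right _ hT'c
    _ = 4 * d * (T'.card * (Fintype.card V * (M1 * M2))) := by ring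
    _ ≤ 4 * d * (S.card * (Fintype.card (Additive (AdjoinRoot (f1 ^ p))ˣ) *
          Fintype.card (Additive (GaloisField p δ2)ˣ))) := Nat.mul_le_mul_left _ hSc
    _ ≤ 4 * d * (S.card * (p ^ (p * δ1) * p ^ δ2)) := by gcongr
    _ = 4 * d * (S.card * p ^ (2 * d)) := by rw [← pow_add, hd]

end Pool.Agent.Helper75.Sidon
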