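import Mathlib

/-! Sidon property of irreducible polynomials modulo `f1 ^ 3 * f2`. -/

namespace Pool.Agent.Helper75.Sidon

open Polynomial

/-- Unique factorisation of a product of two monic irreducible polynomials. -/
theorem pair_unique {F : Type*} [Field F] (P1 P2 P3 P4 : F[X])
    (m1 : P1.Monic) (m2 : P2.Monic) (m3 : P3.Monic) (m4 : P4.Monic)
    (i1 : Irreducible P1) (_i2 : Irreducible P2) (i3 : Irreducible P3) (i4 : Irreducible P4)
    (h : P1 * P2 = P3 * P4) : (P1 = P3 ∧ P2 = P4) ∨ (P1 = P4 ∧ P2 = P3) := by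
  have hd : P1 ∣ P3 * P4 := ⟨P2, h.symm⟩
  rcases i1.prime.dvd_or_dvd hd with h3 | h4
  · left
    have e : P1 = P3 := eq_of_monic_of_associated m1 m3 (i1.associated_of_dvd i3 h3)
    subst e
    exact ⟨rfl, mul_left_cancel₀ m1.ne_zero h⟩
  · right
    have e : P1 = P4 := eq_of_monic_of_associated m1 m4 (i1.associated_of_dvd i4 h4)
    subst e
    refine ⟨rfl, ?_⟩
    rw [mul_comm P3 P1] at h
    exact mul_left_cancel₀ m1.ne_zero h

/-- A polynomial vanishing to third order at `α` is divisible by the cube of the minimal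
polynomial (separable case, characteristic not two). -/
theorem cube_dvd {F E : Type*} [Field F] [Field E] [Algebra F E] (h2 : (2 : E) ≠ 0) (α : E)
    (hsep : (minpoly F α).Separable) (C : F[X]) (h0 : aeval α C = 0)
    (h1 : aeval α (derivative C) = 0) (h3 : aeval α (derivative (derivative C)) = 0) :
    (minpoly F α) ^ 3 ∣ C := by
  set f := minpoly F α with hf
  have hfa : aeval α f = 0 := minpoly.aeval F α
  have hf' : aeval α (derivative f) ≠ 0 := hsep.aeval_derivative_ne_zero hfa
  obtain ⟨C1, hC1⟩ := minpoly.dvd F α h0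
  have e1 : aeval α C1 = 0 := by
    rw [hC1, derivative_mul] at h1
    simp only [map_add, map_mul] at h1
    rw [← hf, hfa] at h1
    simpa [hf'] using h1
  obtain ⟨C2, hC2⟩ := minpoly.dvd F α e1
  have hCC : C = f * (f * C2) := by rw [hC1, hC2]
  have e2 : aeval α C2 = 0 := by
    rw [hCC] at h3
    simp only [derivative_mul, derivative_add, map_add, map_mul] at h3
    rw [hfa] at h3
    have h5 : 2 * (aeval α (derivative f)) ^ 2 * aeval α C2 = 0 := by
      linear_combination h3
    rcases mul_eq_zero.mp h5 with h6 | h6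
    · exfalso
      rcases mul_eq_zero.mp h6 with h7 | h7
      · exact h2 h7
      · exact hf' (pow_eq_zero_iff (two_ne_zero) |>.mp h7)
    · exact h6
  obtain ⟨C3, hC3⟩ := minpoly.dvd F α e2
  refine ⟨C3, ?_⟩
  rw [hCC, hC3]
  ring

/-- The logarithmic derivative data at a point. -/
theorem poly_sidon {F E1 E2 : Type*} [Field F] [Field E1] [Field E2] [Algebra F E1] [Algebra F E2]
    (h2 : (2 : E1) ≠ 0) (α : E1) (β : E2) (hα : IsIntegral F α) (hβ : IsIntegral F β)
    (hsep : (minpoly F α).Separable) (hne : minpoly F α ≠ minpoly F β) (d : ℕ)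
    (hd : 3 * (minpoly F α).natDegree + (minpoly F β).natDegree = 2 * d)
    (P1 P2 P3 P4 : F[X])
    (m1 : P1.Monic) (m2 : P2.Monic) (m3 : P3.Monic) (m4 : P4.Monic)
    (i1 : Irreducible P1) (i2 : Irreducible P2) (i3 : Irreducible P3) (i4 : Irreducible P4)
    (d1 : P1.natDegree = d) (d2 : P2.natDegree = d) (d3 : P3.natDegree = d) (d4 : P4.natDegree = d)
    (n1 : aeval α P1 ≠ 0) (n2 : aeval α P2 ≠ 0) (n3 : aeval α P3 ≠ 0) (n4 : aeval α P4 ≠ 0)
    (e0 : aeval α P1 * aeval α P2 = aeval α P3 * aeval α P4)
    (e1 : aeval α (derivative P1) / aeval α P1 + aeval α (derivative P2) / aeval α P2 =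
      aeval α (derivative P3) / aeval α P3 + aeval α (derivative P4) / aeval α P4)
    (e2 : (aeval α (derivative (derivative P1)) / aeval α P1 -
        (aeval α (derivative P1) / aeval α P1) ^ 2) +
      (aeval α (derivative (derivative P2)) / aeval α P2 -
        (aeval α (derivative P2) / aeval α P2) ^ 2) =
      (aeval α (derivative (derivative P3)) / aeval α P3 -
        (aeval α (derivative P3) / aeval α P3) ^ 2) +
      (aeval α (derivative (derivative P4)) / aeval α P4 -
        (aeval α (derivative P4) / aeval α P4) ^ 2))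
    (e3 : aeval β P1 * aeval β P2 = aeval β P3 * aeval β P4) :
    (P1 = P3 ∧ P2 = P4) ∨ (P1 = P4 ∧ P2 = P3) := by
  apply pair_unique P1 P2 P3 P4 m1 m2 m3 m4 i1 i2 i3 i4
  have key : ∀ (A B : F[X]), aeval α A ≠ 0 → aeval α B ≠ 0 →
      aeval α (derivative (A * B)) = aeval α A * aeval α B *
        (aeval α (derivative A) / aeval α A + aeval α (derivative B) / aeval α B) ∧
      aeval α (derivative (derivative (A * B))) = aeval α A * aeval α B *
        (((aeval α (derivative (derivative A)) / aeval α A -
        (aeval α (derivative A) / aeval α A) ^ 2) +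
      (aeval α (derivative (derivative B)) / aeval α B -
        (aeval α (derivative B) / aeval α B) ^ 2)) +
        (aeval α (derivative A) / aeval α A + aeval α (derivative B) / aeval α B) ^ 2) := by
    intro A B hA hB
    constructor
    · simp only [derivative_mul, map_add, map_mul]
      field_simp
    · simp only [derivative_mul, derivative_add, map_add, map_mul]
      field_simp
      ring
  obtain ⟨k1, k2⟩ := key P1 P2 n1 n2
  obtain ⟨k3, k4⟩ := key P3 P4 n3 n4
  rw [e0, e1] at k1
  rw [e0, e1, e2] at k2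
  have hz : P1 * P2 - P3 * P4 = 0 := by
    have c1 : (minpoly F α) ^ 3 ∣ P1 * P2 - P3 * P4 := by
      apply cube_dvd h2 α hsep
      · rw [map_sub, map_mul, map_mul, e0, sub_self]
      · rw [derivative_sub, map_sub, k1, k3, sub_self]
      · rw [derivative_sub, derivative_sub, map_sub, k2, k4, sub_self]
    have c2 : minpoly F β ∣ P1 * P2 - P3 * P4 := by
      apply minpoly.dvd
      rw [map_sub, map_mul, map_mul, e3, sub_self]
    have cop : IsCoprime ((minpoly F α) ^ 3) (minpoly F β) := by
      apply IsCoprime.pow_left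
      rw [(minpoly.irreducible hα).coprime_iff_not_dvd]
      intro hdvd
      exact hne (eq_of_monic_of_associated (minpoly.monic hα) (minpoly.monic hβ)
        ((minpoly.irreducible hα).associated_of_dvd (minpoly.irreducible hβ) hdvd))
    have c3 := cop.mul_dvd c1 c2
    have hdeg : ((minpoly F α) ^ 3 * minpoly F β).natDegree = 2 * d := by
      rw [(((minpoly.monic hα).pow 3).natDegree_mul (minpoly.monic hβ)),
        (minpoly.monic hα).natDegree_pow, hd]
    have hA : (P1 * P2).natDegree = 2 * d := by
      rw [m1.natDegree_mul m2, d1, d2]; ring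
    have hB : (P3 * P4).natDegree = 2 * d := by
      rw [m3.natDegree_mul m4, d3, d4]; ring
    have hmA := m1.mul m2
    have hmB := m3.mul m4
    by_contra hne0
    have hlt : (P1 * P2 - P3 * P4).degree < (P1 * P2).degree := by
      apply degree_sub_lt
      · rw [degree_eq_natDegree hmA.ne_zero, degree_eq_natDegree hmB.ne_zero, hA, hB]
      · exact hmA.ne_zero
      · rw [hmA.leadingCoeff, hmB.leadingCoeff]
    have hle := degree_le_of_dvd c3 hne0
    have hmon : ((minpoly F α) ^ 3 * minpoly F β).Monic :=
      ((minpoly.monic hα).pow 3).mul (minpoly.monic hβ)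
    rw [degree_eq_natDegree hmon.ne_zero, hdeg] at hle
    rw [degree_eq_natDegree hmA.ne_zero, hA] at hlt
    exact absurd hle (not_le.mpr hlt)
  exact sub_eq_zero.mp hz

end Pool.Agent.Helper75.Sidon
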