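import Pool.Agent.Helper75.Sidon.Transfer
import Pool.Agent.Helper75.Sidon.Poly
import Pool.Agent.Helper75.Sidon.Count

/-! Large Sidon sets in `V × [0, M)`. -/

namespace Pool.Agent.Helper75.Sidon

open Polynomial Finset

/-- The unit attached to a nonzero element, in additive notation. -/
noncomputable def uu {E : Type*} [Field E] (x : E) : Additive Eˣ :=
  open Classical in Additive.ofMul (if h : x ≠ 0 then Units.mk0 x h else 1)

theorem uu_add {E : Type*} [Field E] {x y z w : E} (hx : x ≠ 0) (hy : y ≠ 0) (hz : z ≠ 0)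
    (hw : w ≠ 0) (h : uu x + uu y = uu z + uu w) : x * y = z * w := by
  unfold uu at h
  rw [dif_pos hx, dif_pos hy, dif_pos hz, dif_pos hw, ← ofMul_mul, ← ofMul_mul] at h
  have h1 := congrArg (fun t : Additive Eˣ => ((Additive.toMul t : Eˣ) : E)) h
  simpa using h1

theorem exists_gen (p : ℕ) [Fact p.Prime] (n : ℕ) (hn : n ≠ 0) :
    ∃ α : GaloisField p n, IsIntegral (ZMod p) α ∧ (minpoly (ZMod p) α).natDegree = n ∧
      (minpoly (ZMod p) α).Separable := by
  obtain ⟨α, hα⟩ := Field.exists_primitive_element_of_finite_bot (ZMod p) (GaloisField p n)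
  have hint : IsIntegral (ZMod p) α := Algebra.IsIntegral.isIntegral α
  refine ⟨α, hint, ?_, ?_⟩
  · rw [(Field.primitive_element_iff_minpoly_natDegree_eq (ZMod p) α).mp hα,
      GaloisField.finrank p hn]
  · exact PerfectField.separable_of_irreducible (minpoly.irreducible hint)

theorem exists_unit_gen (p : ℕ) [Fact p.Prime] (n : ℕ) (hn : n ≠ 0) :
    ∃ γ : Additive (GaloisField p n)ˣ, addOrderOf γ = p ^ n - 1 := by
  have : Finite (GaloisField p n)ˣ := inferInstance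
  obtain ⟨g, hg⟩ := IsCyclic.exists_generator (α := (GaloisField p n)ˣ)
  refine ⟨Additive.ofMul g, ?_⟩
  rw [addOrderOf_ofMul_eq_orderOf, orderOf_eq_card_of_forall_mem_zpowers hg, Nat.card_units,
    GaloisField.card p n hn]

theorem zsmul_small_inj {A : Type*} [AddCommGroup A] (γ : A) (N : ℕ) (hN : addOrderOf γ = N)
    (M : ℕ) (hM : M ≤ N) (a b : ℤ) (ha : 0 ≤ a ∧ a < M) (hb : 0 ≤ b ∧ b < M)
    (h : a • γ = b • γ) : a = b := by
  rw [zsmul_eq_zsmul_iff_modEq, hN] at h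
  have hMN : (M : ℤ) ≤ N := by exact_mod_cast hM
  have h1 : a % N = a := Int.emod_eq_of_lt ha.1 (by linarith [ha.2])
  have h2 : b % N = b := Int.emod_eq_of_lt hb.1 (by linarith [hb.2])
  unfold Int.ModEq at h
  rw [h1, h2] at h
  exact h

theorem lemK_abs (p : ℕ) [Fact p.Prime] (hp : p ≠ 2) (V : Type) [AddCommGroup V]
    [Module (ZMod p) V] [Fintype V] (E1 E2 : Type) [Field E1] [Field E2] [Fintype E1] [Fintype E2]
    [Algebra (ZMod p) E1] [Algebra (ZMod p) E2] (δ1 δ2 d M1 M2 : ℕ) (hδ1 : 1 ≤ δ1) (hδ2 : 1 ≤ δ2)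
    (hne : δ1 ≠ δ2) (hd : 3 * δ1 + δ2 = 2 * d) (hM1 : M1 < p ^ δ1) (hM2 : M2 < p ^ δ2)
    (hM1' : 1 ≤ M1) (hV : Module.finrank (ZMod p) V < 2 * δ1)
    (hr1 : Module.finrank (ZMod p) E1 = δ1)
    (hcE1 : Fintype.card E1 = p ^ δ1) (hcE2 : Fintype.card E2 = p ^ δ2)
    (α : E1) (β : E2) (hαi : IsIntegral (ZMod p) α) (hβi : IsIntegral (ZMod p) β)
    (hαd : (minpoly (ZMod p) α).natDegree = δ1) (hβd : (minpoly (ZMod p) β).natDegree = δ2)
    (hαs : (minpoly (ZMod p) α).Separable)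
    (γ1 : Additive E1ˣ) (γ2 : Additive E2ˣ) (hγ1 : addOrderOf γ1 = p ^ δ1 - 1)
    (hγ2 : addOrderOf γ2 = p ^ δ2 - 1) :
    ∃ S : Finset (V × ℤ), IsSidon S ∧
      (∀ x ∈ S, 0 ≤ x.2 ∧ x.2 + M1 < 2 * M1 * M2) ∧
      p ^ d * (Fintype.card V * (M1 * M2)) ≤ 4 * d * (S.card * p ^ (2 * d)) := by
  classical
  have hpp : p.Prime := Fact.out
  have hp3 : 3 ≤ p := by
    have := hpp.two_le
    omega
  have hd2 : 2 ≤ d := by omega
  obtain ⟨T, hT, hTc⟩ := count_irred (ZMod p) d (by omega)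
  rw [ZMod.card] at hTc
  set T' := T.erase (minpoly (ZMod p) β) with hT'
  have hT'c : p ^ d ≤ 4 * d * T'.card := by
    have h1 : 2 * d < p ^ d := by
      have : ∀ n, 2 ≤ n → 2 * n < 3 ^ n := by
        intro n hn
        induction n, hn using Nat.le_induction with
        | base => norm_num
        | succ k hk ih => rw [pow_succ]; omega
      calc 2 * d < 3 ^ d := this d hd2
        _ ≤ p ^ d := Nat.pow_le_pow_left hp3 d
    have h2 : 2 ≤ T.card := by
      by_contra hcon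
      have : T.card ≤ 1 := by omega
      have : 2 * d * T.card ≤ 2 * d * 1 := Nat.mul_le_mul_left _ this
      omega
    have h3 : T.card - 1 ≤ T'.card := Finset.pred_card_le_card_erase
    have h4 : T.card ≤ 2 * T'.card := by omega
    calc p ^ d ≤ 2 * d * T.card := hTc
      _ ≤ 2 * d * (2 * T'.card) := Nat.mul_le_mul_left _ h4
      _ = 4 * d * T'.card := by ring
  have hprop : ∀ P ∈ T', P.Monic ∧ Irreducible P ∧ P.natDegree = d ∧ aeval α P ≠ 0 ∧
      aeval β P ≠ 0 := by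
    intro P hP
    rw [hT', Finset.mem_erase] at hP
    obtain ⟨hPβ, hPT⟩ := hP
    obtain ⟨hm, hi, hdeg⟩ := hT P hPT
    refine ⟨hm, hi, hdeg, ?_, ?_⟩
    · intro h0
      have hdvd := minpoly.dvd (ZMod p) α h0
      have := eq_of_monic_of_associated (minpoly.monic hαi) hm
        ((minpoly.irreducible hαi).associated_of_dvd hi hdvd)
      rw [← this, hαd] at hdeg
      omega
    · intro h0
      have hdvd := minpoly.dvd (ZMod p) β h0
      have := eq_of_monic_of_associated (minpoly.monic hβi) hm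
        ((minpoly.irreducible hβi).associated_of_dvd hi hdvd)
      exact hPβ this.symm
  -- the target group
  let K := Additive E1ˣ × E1 × E1 × Additive E2ˣ
  let Ψ : (ZMod p)[X] → K := fun P =>
    (uu (aeval α P), aeval α (derivative P) / aeval α P,
      aeval α (derivative (derivative P)) / aeval α P -
        (aeval α (derivative P) / aeval α P) ^ 2, uu (aeval β P))
  have h2E : (2 : E1) ≠ 0 := by
    have hchar : CharP E1 p := charP_of_injective_algebraMap (algebraMap (ZMod p) E1).injective p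
    intro h
    have h' : ((2 : ℕ) : E1) = 0 := by exact_mod_cast h
    rw [CharP.cast_eq_zero_iff E1 p] at h'
    have := Nat.le_of_dvd (by norm_num) h'
    omega
  have hΨ : ∀ a ∈ T', ∀ b ∈ T', ∀ c ∈ T', ∀ e ∈ T', Ψ a + Ψ b = Ψ c + Ψ e →
      (a = c ∧ b = e) ∨ (a = e ∧ b = c) := by
    intro a ha b hb c hc e he h
    obtain ⟨ma, ia, da, na, na'⟩ := hprop a ha
    obtain ⟨mb, ib, db, nb, nb'⟩ := hprop b hb
    obtain ⟨mc, ic, dc, nc, nc'⟩ := hprop c hc
    obtain ⟨me, ie, de, ne, ne'⟩ := hprop e he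
    have h0 : uu (aeval α a) + uu (aeval α b) = uu (aeval α c) + uu (aeval α e) :=
      congrArg (fun t : K => t.1) h
    have h1 := congrArg (fun t : K => t.2.1) h
    have h2 := congrArg (fun t : K => t.2.2.1) h
    have h3 : uu (aeval β a) + uu (aeval β b) = uu (aeval β c) + uu (aeval β e) :=
      congrArg (fun t : K => t.2.2.2) h
    exact poly_sidon h2E α β hαi hβi hαs (by
      intro hm
      rw [hm] at hαd
      omega) d (by rw [hαd, hβd]; exact hd) a b c e ma mb mc me ia ib ic ie da db dc de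
      na nb nc ne (uu_add na nb nc ne h0) h1 h2 (uu_add na' nb' nc' ne' h3)
  -- the linear injection
  obtain ⟨ℓ, hℓ⟩ : ∃ ℓ : V →ₗ[ZMod p] (E1 × E1), Function.Injective ℓ := by
    have : FiniteDimensional (ZMod p) V := Module.Finite.of_finite
    have : FiniteDimensional (ZMod p) E1 := Module.Finite.of_finite
    apply Module.Free.exists_linearMap_injective_of_rank_lt
    rw [← Module.finrank_eq_rank, ← Module.finrank_eq_rank, Module.finrank_prod]
    rw [hr1]
    exact_mod_cast (by omega : Module.finrank (ZMod p) V < δ1 + δ1)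
  let φ : V × ℤ → K := fun x =>
    ((x.2 % (2 * M1)) • γ1, (ℓ x.1).1, (ℓ x.1).2, (x.2 / (2 * M1)) • γ2)
  let B : Finset ℤ := (Finset.range M1 ×ˢ Finset.range M2).image
    (fun rq => (rq.1 : ℤ) + 2 * M1 * rq.2)
  let D : Finset (V × ℤ) := Finset.univ ×ˢ B
  have hB : ∀ t ∈ B, (0 ≤ t % (2 * M1) ∧ t % (2 * M1) < M1) ∧
      (0 ≤ t / (2 * M1) ∧ t / (2 * M1) < M2) := by
    intro t ht
    simp only [B, Finset.mem_image, Finset.mem_product, Finset.mem_range] at ht
    obtain ⟨⟨r, q⟩, ⟨hr, hq⟩, rfl⟩ := ht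
    simp only at hr hq ⊢
    have hr' : (r : ℤ) < M1 := by exact_mod_cast hr
    have hq' : (q : ℤ) < M2 := by exact_mod_cast hq
    have hpos : (0 : ℤ) < 2 * M1 := by
      have : (1 : ℤ) ≤ M1 := by exact_mod_cast hM1'
      linarith
    have h1 : ((r : ℤ) + 2 * M1 * q) % (2 * M1) = r := by
      rw [Int.add_mul_emod_self_left]
      exact Int.emod_eq_of_lt (by positivity) (by linarith)
    have h2 : ((r : ℤ) + 2 * M1 * q) / (2 * M1) = q := by
      rw [Int.add_mul_ediv_left _ _ hpos.ne', Int.ediv_eq_zero_of_lt (by positivity) (by linarith)]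
      ring
    rw [h1, h2]
    exact ⟨⟨by positivity, hr'⟩, ⟨by positivity, hq'⟩⟩
  have hBc : B.card = M1 * M2 := by
    rw [Finset.card_image_of_injOn, Finset.card_product, Finset.card_range, Finset.card_range]
    rintro ⟨r, q⟩ hrq ⟨r', q'⟩ hrq' h
    simp only [Finset.coe_product, Finset.coe_range, Set.mem_prod, Set.mem_Iio] at hrq hrq'
    simp only at h
    have hr : (r : ℤ) < M1 := by exact_mod_cast hrq.1
    have hr' : (r' : ℤ) < M1 := by exact_mod_cast hrq'.1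
    have hpos : (0 : ℤ) < 2 * M1 := by
      have : (1 : ℤ) ≤ M1 := by exact_mod_cast hM1'
      linarith
    have h1 := congrArg (fun t : ℤ => t % (2 * M1)) h
    have h2 := congrArg (fun t : ℤ => t / (2 * M1)) h
    simp only [Int.add_mul_emod_self_left, Int.add_mul_ediv_left _ _ hpos.ne'] at h1 h2
    rw [Int.emod_eq_of_lt (by positivity) (by linarith),
      Int.emod_eq_of_lt (by positivity) (by linarith)] at h1
    rw [Int.ediv_eq_zero_of_lt (by positivity) (by linarith),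
      Int.ediv_eq_zero_of_lt (by positivity) (by linarith)] at h2
    have e1 : r = r' := by exact_mod_cast h1
    have e2 : q = q' := by
      have : (q : ℤ) = q' := by linarith
      exact_mod_cast this
    rw [e1, e2]
  have hDc : D.card = Fintype.card V * (M1 * M2) := by
    rw [Finset.card_product, hBc, Finset.card_univ]
  have hmemD : ∀ x ∈ D, (0 ≤ x.2 % (2 * M1) ∧ x.2 % (2 * M1) < M1) ∧
      (0 ≤ x.2 / (2 * M1) ∧ x.2 / (2 * M1) < M2) := by
    intro x hx
    exact hB x.2 (Finset.mem_product.mp hx).2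
  have hdm : ∀ t : ℤ, t = t % (2 * M1) + 2 * M1 * (t / (2 * M1)) :=
    fun t => (Int.emod_add_mul_ediv t (2 * M1)).symm
  have hφ : ∀ x ∈ D, ∀ y ∈ D, φ x = φ y → x = y := by
    intro x hx y hy h
    have h0 : (x.2 % (2 * M1)) • γ1 = (y.2 % (2 * M1)) • γ1 := congrArg (fun t : K => t.1) h
    have h1 : (ℓ x.1).1 = (ℓ y.1).1 := congrArg (fun t : K => t.2.1) h
    have h2 : (ℓ x.1).2 = (ℓ y.1).2 := congrArg (fun t : K => t.2.2.1) h
    have h3 : (x.2 / (2 * M1)) • γ2 = (y.2 / (2 * M1)) • γ2 := congrArg (fun t : K => t.2.2.2) h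
    obtain ⟨a1, a2⟩ := hmemD x hx
    obtain ⟨b1, b2⟩ := hmemD y hy
    have r1 := zsmul_small_inj γ1 _ hγ1 M1 (by omega) _ _ a1 b1 h0
    have r2 := zsmul_small_inj γ2 _ hγ2 M2 (by omega) _ _ a2 b2 h3
    refine Prod.ext (hℓ (Prod.ext h1 h2)) ?_
    rw [hdm x.2, hdm y.2, r1, r2]
  have hom : ∀ w ∈ D, ∀ x ∈ D, ∀ y ∈ D, ∀ z ∈ D, w + x = y + z → φ w + φ x = φ y + φ z := by
    intro w hw x hx y hy z hz h
    have h1 : w.1 + x.1 = y.1 + z.1 := congrArg Prod.fst h
    have h2 : w.2 + x.2 = y.2 + z.2 := congrArg Prod.snd h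
    obtain ⟨w1, w2⟩ := hmemD w hw
    obtain ⟨x1, x2⟩ := hmemD x hx
    obtain ⟨y1, y2⟩ := hmemD y hy
    obtain ⟨z1, z2⟩ := hmemD z hz
    have hpos : (0 : ℤ) < 2 * M1 := by
      have : (1 : ℤ) ≤ M1 := by exact_mod_cast hM1'
      linarith
    -- residues
    have h3 : w.2 % (2 * M1) + x.2 % (2 * M1) = y.2 % (2 * M1) + z.2 % (2 * M1) := by
      have e : (2 * (M1 : ℤ)) * ((y.2 / (2 * M1) + z.2 / (2 * M1)) -
          (w.2 / (2 * M1) + x.2 / (2 * M1))) =
          (w.2 % (2 * M1) + x.2 % (2 * M1)) - (y.2 % (2 * M1) + z.2 % (2 * M1)) := by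
        have := hdm w.2; have := hdm x.2; have := hdm y.2; have := hdm z.2
        linarith
      set s := (y.2 / (2 * M1) + z.2 / (2 * M1)) - (w.2 / (2 * M1) + x.2 / (2 * M1)) with hs
      have hs0 : s = 0 := by
        by_contra hne
        rcases lt_or_gt_of_ne hne with h | h
        · nlinarith [w1.1, w1.2, x1.1, x1.2, y1.1, y1.2, z1.1, z1.2]
        · nlinarith [w1.1, w1.2, x1.1, x1.2, y1.1, y1.2, z1.1, z1.2]
      rw [hs0] at e
      linarith
    have h4 : w.2 / (2 * M1) + x.2 / (2 * M1) = y.2 / (2 * M1) + z.2 / (2 * M1) := by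
      have := hdm w.2; have := hdm x.2; have := hdm y.2; have := hdm z.2
      have e : (2 * (M1 : ℤ)) * (w.2 / (2 * M1) + x.2 / (2 * M1)) =
          (2 * (M1 : ℤ)) * (y.2 / (2 * M1) + z.2 / (2 * M1)) := by linarith
      exact mul_left_cancel₀ hpos.ne' e
    have h5 : ℓ w.1 + ℓ x.1 = ℓ y.1 + ℓ z.1 := by rw [← map_add, ← map_add, h1]
    refine Prod.ext ?_ (Prod.ext ?_ (Prod.ext ?_ ?_))
    · show (w.2 % (2 * M1)) • γ1 + (x.2 % (2 * M1)) • γ1 =
        (y.2 % (2 * M1)) • γ1 + (z.2 % (2 * M1)) • γ1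
      rw [← add_zsmul, ← add_zsmul, h3]
    · show (ℓ w.1).1 + (ℓ x.1).1 = (ℓ y.1).1 + (ℓ z.1).1
      exact congrArg (fun t : E1 × E1 => t.1) h5
    · show (ℓ w.1).2 + (ℓ x.1).2 = (ℓ y.1).2 + (ℓ z.1).2
      exact congrArg (fun t : E1 × E1 => t.2) h5
    · show (w.2 / (2 * M1)) • γ2 + (x.2 / (2 * M1)) • γ2 =
        (y.2 / (2 * M1)) • γ2 + (z.2 / (2 * M1)) • γ2
      rw [← add_zsmul, ← add_zsmul, h4]
  obtain ⟨S, hSD, hSs, hSc⟩ := transfer T' Ψ hΨ D φ hφ hom
  refine ⟨S, hSs, ?_, ?_⟩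
  · intro x hx
    obtain ⟨a1, a2⟩ := hmemD x (hSD hx)
    have hpos : (0 : ℤ) < 2 * M1 := by
      have : (1 : ℤ) ≤ M1 := by exact_mod_cast hM1'
      linarith
    have e := hdm x.2
    have hM1z : (0 : ℤ) < M1 := by exact_mod_cast hM1'
    constructor
    · rw [e]
      have := mul_nonneg hpos.le a2.1
      linarith [a1.1]
    · have h1 : x.2 / (2 * M1) + 1 ≤ (M2 : ℤ) := by linarith [a2.2]
      have h2 : (2 * (M1 : ℤ)) * (x.2 / (2 * M1) + 1) ≤ 2 * M1 * M2 :=
        mul_le_mul_of_nonneg_left h1 hpos.le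
      rw [e]
      linarith [a1.2]
  · have hK : Fintype.card K ≤ p ^ (2 * d) := by
      have hu1 : Fintype.card (Additive E1ˣ) ≤ p ^ δ1 := by
        rw [← hcE1]
        have : Fintype.card (Additive E1ˣ) = Fintype.card E1ˣ := Fintype.card_congr Additive.toMul
        rw [this, Fintype.card_units]
        omega
      have hu2 : Fintype.card (Additive E2ˣ) ≤ p ^ δ2 := by
        rw [← hcE2]
        have : Fintype.card (Additive E2ˣ) = Fintype.card E2ˣ := Fintype.card_congr Additive.toMul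
        rw [this, Fintype.card_units]
        omega
      show Fintype.card (Additive E1ˣ × E1 × E1 × Additive E2ˣ) ≤ p ^ (2 * d)
      rw [Fintype.card_prod, Fintype.card_prod, Fintype.card_prod, hcE1, ← hd]
      calc Fintype.card (Additive E1ˣ) * (p ^ δ1 * (p ^ δ1 * Fintype.card (Additive E2ˣ)))
          ≤ p ^ δ1 * (p ^ δ1 * (p ^ δ1 * p ^ δ2)) := by gcongr
        _ = p ^ (3 * δ1 + δ2) := by rw [← pow_add, ← pow_add, ← pow_add]; congr 1; ring
    rw [hDc] at hSc
    calc p ^ d * (Fintype.card V * (M1 * M2))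
        ≤ 4 * d * T'.card * (Fintype.card V * (M1 * M2)) := Nat.mul_le_mul_right _ hT'c
      _ = 4 * d * (T'.card * (Fintype.card V * (M1 * M2))) := by ring
      _ ≤ 4 * d * (S.card * Fintype.card K) := Nat.mul_le_mul_left _ hSc
      _ ≤ 4 * d * (S.card * p ^ (2 * d)) := by gcongr

theorem lemK_core (p : ℕ) [Fact p.Prime] (hp : p ≠ 2) (V : Type) [AddCommGroup V]
    [Module (ZMod p) V] [Fintype V] (δ1 δ2 d M1 M2 : ℕ) (hδ1 : 1 ≤ δ1) (hδ2 : 1 ≤ δ2)
    (hne : δ1 ≠ δ2) (hd : 3 * δ1 + δ2 = 2 * d) (hM1 : M1 < p ^ δ1) (hM2 : M2 < p ^ δ2)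
    (hM1' : 1 ≤ M1) (hV : Module.finrank (ZMod p) V < 2 * δ1) :
    ∃ S : Finset (V × ℤ), IsSidon S ∧
      (∀ x ∈ S, 0 ≤ x.2 ∧ x.2 + M1 < 2 * M1 * M2) ∧
      p ^ d * (Fintype.card V * (M1 * M2)) ≤ 4 * d * (S.card * p ^ (2 * d)) := by
  have : Fintype (GaloisField p δ1) := Fintype.ofFinite _
  have : Fintype (GaloisField p δ2) := Fintype.ofFinite _
  obtain ⟨α, hαi, hαd, hαs⟩ := exists_gen p δ1 (by omega)
  obtain ⟨β, hβi, hβd, hβs⟩ := exists_gen p δ2 (by omega)
  obtain ⟨γ1, hγ1⟩ := exists_unit_gen p δ1 (by omega)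
  obtain ⟨γ2, hγ2⟩ := exists_unit_gen p δ2 (by omega)
  exact lemK_abs p hp V (GaloisField p δ1) (GaloisField p δ2) δ1 δ2 d M1 M2 hδ1 hδ2 hne hd hM1 hM2
    hM1' hV (GaloisField.finrank p (by omega))
    (by rw [← Nat.card_eq_fintype_card]; exact GaloisField.card p δ1 (by omega))
    (by rw [← Nat.card_eq_fintype_card]; exact GaloisField.card p δ2 (by omega))
    α β hαi hβi hαd hβd hαs γ1 γ2 hγ1 hγ2

end Pool.Agent.Helper75.Sidon
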