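import Pool.Agent.Helper75.Sidon.LemK

/-! Large Sidon sets in `V × [0, M)`: final form. -/

namespace Pool.Agent.Helper75.Sidon

theorem lemK (p : ℕ) [Fact p.Prime] (hp : p ≠ 2) :
    ∃ c : ℝ, 0 < c ∧ ∀ (V : Type) [AddCommGroup V] [Module (ZMod p) V] [Fintype V] (M : ℕ),
      1 ≤ M → Fintype.card V ≤ M ^ 2 →
      ∃ S : Finset (V × ℤ), IsSidon S ∧ (∀ x ∈ S, 0 ≤ x.2 ∧ x.2 < M) ∧
        c * Real.sqrt ((Fintype.card V : ℝ) * M) ≤
          S.card * (1 + Real.log ((Fintype.card V : ℝ) * M)) := by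
  have hpp : p.Prime := Fact.out
  have hp3 : 3 ≤ p := by
    have := hpp.two_le
    omega
  have hp1 : 1 < p := by omega
  have hpR : (3 : ℝ) ≤ p := by exact_mod_cast hp3
  refine ⟨1 / (32 * Real.sqrt ((p : ℝ) ^ 7)), by positivity, ?_⟩
  intro V _ _ _ M hM hV
  set a := Module.finrank (ZMod p) V with ha
  have hcV : Fintype.card V = p ^ a := by
    rw [Module.card_eq_pow_finrank (K := ZMod p) (V := V), ZMod.card]
  set M1 := p ^ (a / 2) with hM1
  have hM1pos : 1 ≤ M1 := Nat.one_le_pow _ _ (by omega)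
  have hM1M : M1 ≤ M := by
    have h1 : M1 ^ 2 ≤ M ^ 2 := by
      calc M1 ^ 2 = p ^ (2 * (a / 2)) := by rw [hM1, ← pow_mul, mul_comm]
        _ ≤ p ^ a := Nat.pow_le_pow_right (by omega) (by omega)
        _ ≤ M ^ 2 := hcV ▸ hV
    exact (Nat.pow_le_pow_iff_left (by norm_num)).mp h1
  set M2 := (M + M1) / (2 * M1) with hM2
  have hM2a : 2 * M1 * M2 ≤ M + M1 := Nat.mul_div_le _ _
  have hM2b : M + M1 < 2 * M1 * (M2 + 1) := by
    rw [mul_comm]
    exact Nat.lt_mul_of_div_lt (by omega) (by omega)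
  have hM2pos : 1 ≤ M2 := by
    rw [hM2]
    apply Nat.div_pos (by omega) (by omega)
  set k := Nat.clog p (M2 + 1) with hk
  have hk1 : M2 + 1 ≤ p ^ k := Nat.le_pow_clog hp1 _
  have hk2 : p ^ (k - 1) < M2 + 1 := Nat.pow_pred_clog_lt_self hp1 (by omega)
  have hkpos : 1 ≤ k := by
    by_contra hcon
    have : k = 0 := by omega
    rw [this] at hk1
    simp at hk1
    omega
  obtain ⟨δ2, hδa, hδb, hδc, hδd⟩ : ∃ δ2, k ≤ δ2 ∧ δ2 ≤ k + 3 ∧ δ2 % 2 = (a / 2 + 1) % 2 ∧
      δ2 ≠ a / 2 + 1 := by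
    by_cases h1 : k % 2 = (a / 2 + 1) % 2
    · by_cases h2 : k = a / 2 + 1
      · exact ⟨k + 2, by omega, by omega, by omega, by omega⟩
      · exact ⟨k, by omega, by omega, by omega, by omega⟩
    · by_cases h2 : k + 1 = a / 2 + 1
      · exact ⟨k + 3, by omega, by omega, by omega, by omega⟩
      · exact ⟨k + 1, by omega, by omega, by omega, by omega⟩
  obtain ⟨d, hd⟩ : ∃ d, 3 * (a / 2 + 1) + δ2 = 2 * d := ⟨(3 * (a / 2 + 1) + δ2) / 2, by omega⟩
  have hδ2M : M2 < p ^ δ2 := lt_of_lt_of_le (by omega : M2 < p ^ k)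
    (Nat.pow_le_pow_right (by omega) hδa)
  obtain ⟨S, hS, hSb, hSc⟩ := lemK_core p hp V (a / 2 + 1) δ2 d M1 M2 (by omega) (by omega)
    (Ne.symm hδd) hd (Nat.pow_lt_pow_right hp1 (by omega)) hδ2M hM1pos (by omega)
  refine ⟨S, hS, ?_, ?_⟩
  · intro x hx
    obtain ⟨h1, h2⟩ := hSb x hx
    refine ⟨h1, ?_⟩
    have : (2 * M1 * M2 : ℤ) ≤ M + M1 := by exact_mod_cast hM2a
    linarith
  · set Y := Fintype.card V * (M1 * M2) with hY
    have hp2d : p ^ (2 * d) ≤ p ^ 7 * Y := by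
      have h1 : p ^ δ2 ≤ p ^ 4 * M2 := by
        calc p ^ δ2 ≤ p ^ (k + 3) := Nat.pow_le_pow_right (by omega) hδb
          _ = p ^ 4 * p ^ (k - 1) := by rw [← pow_add]; congr 1; omega
          _ ≤ p ^ 4 * M2 := Nat.mul_le_mul_left _ (by omega)
      have h2 : p ^ (3 * (a / 2 + 1)) ≤ p ^ 3 * (p ^ a * M1) := by
        calc p ^ (3 * (a / 2 + 1)) = p ^ 3 * (p ^ (2 * (a / 2)) * p ^ (a / 2)) := by
              rw [← pow_add, ← pow_add]; congr 1; ring
          _ ≤ p ^ 3 * (p ^ a * M1) := by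
              apply Nat.mul_le_mul_left
              apply Nat.mul_le_mul_right
              exact Nat.pow_le_pow_right (by omega) (by omega)
      calc p ^ (2 * d) = p ^ (3 * (a / 2 + 1)) * p ^ δ2 := by rw [← hd, pow_add]
        _ ≤ (p ^ 3 * (p ^ a * M1)) * (p ^ 4 * M2) := Nat.mul_le_mul h2 h1
        _ = p ^ 7 * Y := by rw [hY, hcV]; ring
    have hYd : Y ≤ 4 * d * (S.card * p ^ d) := by
      have hpos : 0 < p ^ d := Nat.pos_of_ne_zero (by positivity)
      apply Nat.le_of_mul_le_mul_left _ hpos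
      calc p ^ d * Y ≤ 4 * d * (S.card * p ^ (2 * d)) := hSc
        _ = p ^ d * (4 * d * (S.card * p ^ d)) := by rw [two_mul, pow_add]; ring
    have hYpos : 1 ≤ Y := by
      have : 1 ≤ Fintype.card V := by rw [hcV]; exact Nat.one_le_pow _ _ (by omega)
      calc 1 = 1 * (1 * 1) := by norm_num
        _ ≤ Y := by
          rw [hY]
          exact Nat.mul_le_mul this (Nat.mul_le_mul hM1pos hM2pos)
    have hXY : Fintype.card V * M ≤ 4 * Y := by
      have : M ≤ 4 * (M1 * M2) := by nlinarith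
      calc Fintype.card V * M ≤ Fintype.card V * (4 * (M1 * M2)) := Nat.mul_le_mul_left _ this
        _ = 4 * Y := by rw [hY]; ring
    have hYX : Y ≤ Fintype.card V * M := by
      have : M1 * M2 ≤ M := by nlinarith
      exact Nat.mul_le_mul_left _ this
    set X : ℝ := (Fintype.card V : ℝ) * M with hX
    have hX1 : 1 ≤ X := by
      have : 1 ≤ Fintype.card V * M := le_trans hYpos hYX
      rw [hX]; exact_mod_cast this
    have hXY' : X ≤ 4 * (Y : ℝ) := by rw [hX]; exact_mod_cast hXY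
    have hYX' : (Y : ℝ) ≤ X := by rw [hX]; exact_mod_cast hYX
    have hY1 : (1 : ℝ) ≤ Y := by exact_mod_cast hYpos
    have hlogX : 0 ≤ Real.log X := Real.log_nonneg hX1
    -- bound on d
    have hdle : (d : ℝ) ≤ 4 * (1 + Real.log X) := by
      have h1 : ((p : ℝ)) ^ (2 * d) ≤ (p : ℝ) ^ 7 * X := by
        calc ((p : ℝ)) ^ (2 * d) ≤ (p : ℝ) ^ 7 * Y := by exact_mod_cast hp2d
          _ ≤ (p : ℝ) ^ 7 * X := by gcongr
      have h2 := Real.log_le_log (by positivity) h1
      rw [Real.log_mul (by positivity) (by positivity), Real.log_pow, Real.log_pow] at h2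
      have hlp : 1 ≤ Real.log p := by
        have : Real.exp 1 ≤ p := le_trans (le_of_lt (lt_trans Real.exp_one_lt_d9 (by norm_num))) hpR
        calc (1 : ℝ) = Real.log (Real.exp 1) := (Real.log_exp 1).symm
          _ ≤ Real.log p := Real.log_le_log (Real.exp_pos 1) this
      push_cast at h2
      have h3 : 2 * (d : ℝ) ≤ 7 + Real.log X := by
        by_contra hcon
        push Not at hcon
        have : (7 + Real.log X) * Real.log p < 2 * d * Real.log p :=
          mul_lt_mul_of_pos_right hcon (by linarith)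
        nlinarith
      linarith
    -- main
    have hsq : Real.sqrt X ≤ 2 * Real.sqrt Y := by
      have : Real.sqrt X ≤ Real.sqrt (4 * Y) := Real.sqrt_le_sqrt hXY'
      rw [Real.sqrt_mul (by norm_num : (0 : ℝ) ≤ 4)] at this
      have h4 : Real.sqrt 4 = 2 := by
        rw [show (4 : ℝ) = 2 ^ 2 by norm_num]
        exact Real.sqrt_sq (by norm_num)
      rw [h4] at this
      exact this
    have hpd : ((p : ℝ)) ^ d ≤ Real.sqrt ((p : ℝ) ^ 7) * Real.sqrt Y := by
      rw [← Real.sqrt_mul (by positivity)]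
      apply Real.le_sqrt_of_sq_le
      rw [← pow_mul, mul_comm d 2]
      exact_mod_cast hp2d
    have hY2 : Real.sqrt Y ≤ 4 * d * (S.card * Real.sqrt ((p : ℝ) ^ 7)) := by
      have h1 : (Y : ℝ) ≤ 4 * d * (S.card * (p : ℝ) ^ d) := by exact_mod_cast hYd
      have hs : 0 < Real.sqrt Y := Real.sqrt_pos.mpr (by linarith)
      have h2 : (Y : ℝ) ≤ 4 * d * (S.card * (Real.sqrt ((p : ℝ) ^ 7) * Real.sqrt Y)) :=
        le_trans h1 (by gcongr)
      have h3 : Real.sqrt Y * Real.sqrt Y = Y := Real.mul_self_sqrt (by positivity)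
      apply le_of_mul_le_mul_right _ hs
      calc Real.sqrt Y * Real.sqrt Y = Y := h3
        _ ≤ _ := h2
        _ = _ := by ring
    have hfin : Real.sqrt X ≤ 32 * Real.sqrt ((p : ℝ) ^ 7) * (S.card * (1 + Real.log X)) := by
      calc Real.sqrt X ≤ 2 * Real.sqrt Y := hsq
        _ ≤ 2 * (4 * d * (S.card * Real.sqrt ((p : ℝ) ^ 7))) := by gcongr
        _ ≤ 2 * (4 * (4 * (1 + Real.log X)) * (S.card * Real.sqrt ((p : ℝ) ^ 7))) := by gcongr
        _ = _ := by ring
    have hpos : 0 < 32 * Real.sqrt ((p : ℝ) ^ 7) := by positivity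
    rw [div_mul_eq_mul_div, one_mul, div_le_iff₀ hpos]
    linarith [hfin]

end Pool.Agent.Helper75.Sidon
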