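import Pool.Agent.Helper75.Sidon.IsoNine
import Pool.Agent.Helper75.Sidon.Count
import Pool.Agent.Helper75.Sidon.Defs

/-! Sidon sets of size at least `√n / 3` in the groups `(ℤ/9)^a × (ℤ/3)^(2ab)`. -/

namespace Pool.Agent.Helper75.Sidon

open Module

/-- The group `E × A` with addition twisted by the cocycle `ℓ (v * v' * (v + v'))`. -/
@[ext] structure TW {A E : Type} [Field A] [Field E] [Algebra A E] (ℓ : E →ₗ[A] A) where
  /-- first component -/
  v : E
  /-- second component -/
  z : A

namespace TW

variable {A E : Type} [Field A] [Field E] [Algebra A E] (ℓ : E →ₗ[A] A)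

instance : Zero (TW ℓ) := ⟨⟨0, 0⟩⟩
instance : Add (TW ℓ) := ⟨fun x y => ⟨x.v + y.v, x.z + y.z - ℓ (x.v * y.v * (x.v + y.v))⟩⟩
instance : Neg (TW ℓ) := ⟨fun x => ⟨-x.v, -x.z⟩⟩

@[simp] theorem zero_v : (0 : TW ℓ).v = 0 := rfl
@[simp] theorem zero_z : (0 : TW ℓ).z = 0 := rfl
@[simp] theorem add_v (x y : TW ℓ) : (x + y).v = x.v + y.v := rfl
@[simp] theorem add_z (x y : TW ℓ) : (x + y).z = x.z + y.z - ℓ (x.v * y.v * (x.v + y.v)) := rfl
@[simp] theorem neg_v (x : TW ℓ) : (-x).v = -x.v := rfl
@[simp] theorem neg_z (x : TW ℓ) : (-x).z = -x.z := rfl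

instance : AddCommGroup (TW ℓ) where
  add_assoc x y w := by
    ext
    · simp [add_assoc]
    · simp only [add_z, add_v]
      have h : ℓ (x.v * y.v * (x.v + y.v)) + ℓ ((x.v + y.v) * w.v * (x.v + y.v + w.v)) =
          ℓ (y.v * w.v * (y.v + w.v)) + ℓ (x.v * (y.v + w.v) * (x.v + (y.v + w.v))) := by
        rw [← map_add, ← map_add]
        congr 1
        ring
      linear_combination (-1 : A) * h
  zero_add x := by ext <;> simp
  add_zero x := by ext <;> simp
  nsmul := nsmulRec
  zsmul := zsmulRec
  neg_add_cancel x := by ext <;> simp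
  add_comm x y := by
    ext
    · simp [add_comm]
    · simp only [add_z]
      rw [mul_comm x.v y.v, add_comm x.v y.v, add_comm x.z y.z]

/-- The underlying pairs. -/
def equivProd : TW ℓ ≃ E × A where
  toFun x := (x.v, x.z)
  invFun x := ⟨x.1, x.2⟩
  left_inv _ := rfl
  right_inv _ := rfl

variable {ℓ}

theorem three_nsmul [CharP E 3] [CharP A 3] (x : TW ℓ) : 3 • x = ⟨0, ℓ (x.v ^ 3)⟩ := by
  have h3 : (3 : E) = 0 := by exact_mod_cast CharP.cast_eq_zero E 3
  have h3' : (3 : A) = 0 := by exact_mod_cast CharP.cast_eq_zero A 3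
  have h : 3 • x = x + x + x := by
    rw [show 3 = 2 + 1 by norm_num, add_nsmul, two_nsmul, one_nsmul]
  rw [h]
  ext
  · simp only [add_v]
    linear_combination x.v * h3
  · simp only [add_z, add_v]
    have e1 : x.v * x.v * (x.v + x.v) = -(x.v ^ 3) := by linear_combination x.v ^ 3 * h3
    have e2 : (x.v + x.v) * x.v * (x.v + x.v + x.v) = 0 := by
      linear_combination 2 * x.v ^ 3 * h3
    rw [e1, e2, map_zero, map_neg]
    linear_combination x.z * h3'

theorem nine_nsmul [CharP E 3] [CharP A 3] (x : TW ℓ) : 9 • x = 0 := by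
  rw [show 9 = 3 * 3 by norm_num, mul_nsmul, three_nsmul, three_nsmul]
  ext <;> simp

end TW

/-- A half system in a finite field of odd characteristic. -/
theorem exists_half (A : Type) [Field A] [Fintype A] (h2 : (2 : A) ≠ 0) :
    ∃ P : Finset A, (∀ x ∈ P, ∀ y ∈ P, x + y ≠ 0) ∧ Fintype.card A ≤ 2 * P.card + 1 := by
  classical
  let f := Fintype.equivFin A
  let P : Finset A := Finset.univ.filter (fun x => f x < f (-x))
  refine ⟨P, ?_, ?_⟩
  · intro x hx y hy h
    have hy' : y = -x := eq_neg_of_add_eq_zero_right h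
    subst hy'
    have h1 : f x < f (-x) := (Finset.mem_filter.mp hx).2
    have h2 : f (-x) < f (- -x) := (Finset.mem_filter.mp hy).2
    rw [neg_neg] at h2
    exact absurd h1 (not_lt.mpr h2.le)
  · let Q : Finset A := P.image (fun x => -x)
    have hQ : Q.card ≤ P.card := Finset.card_image_le
    have hsub : (Finset.univ : Finset A) ⊆ (P ∪ Q) ∪ {0} := by
      intro x _
      rw [Finset.mem_union, Finset.mem_union, Finset.mem_image, Finset.mem_singleton]
      rcases lt_trichotomy (f x) (f (-x)) with h | h | h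
      · left; left
        exact Finset.mem_filter.mpr ⟨Finset.mem_univ _, h⟩
      · right
        have h1 : x = -x := f.injective h
        have h3 : (2 : A) * x = 0 := by linear_combination h1
        exact (mul_eq_zero.mp h3).resolve_left h2
      · left; right
        refine ⟨-x, Finset.mem_filter.mpr ⟨Finset.mem_univ _, ?_⟩, neg_neg x⟩
        rwa [neg_neg]
    have h1 : Fintype.card A ≤ ((P ∪ Q) ∪ {0}).card := Finset.card_le_card hsub
    have h2 : ((P ∪ Q) ∪ {0}).card ≤ (P ∪ Q).card + 1 := by
      have := Finset.card_union_le (P ∪ Q) {0}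
      rwa [Finset.card_singleton] at this
    have h3 : (P ∪ Q).card ≤ P.card + Q.card := Finset.card_union_le _ _
    omega

/-- The main construction. -/
theorem exists_sidon_tw (A E : Type) [Field A] [Fintype A] [Field E] [Fintype E] [Algebra A E]
    [CharP A 3] [CharP E 3] (ℓ : E →ₗ[A] A) (hℓ : ∀ x : A, ℓ (algebraMap A E x) = x) :
    ∃ S : Finset (TW ℓ × (E ⧸ (Algebra.linearMap A E).range)), IsSidon S ∧
      Fintype.card E ≤ 3 * S.card := by
  classical
  have h3 : (3 : A) = 0 := by exact_mod_cast CharP.cast_eq_zero A 3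
  have h3E : (3 : E) = 0 := by exact_mod_cast CharP.cast_eq_zero E 3
  have h2 : (2 : A) ≠ 0 := by
    intro h
    have : (1 : A) = 0 := by linear_combination h3 - h
    exact one_ne_zero this
  obtain ⟨P, hP, hPc⟩ := exists_half A h2
  -- the set
  let W : Finset E := Finset.univ.filter (fun w => ℓ w = 0)
  let D : Finset E := (P ×ˢ W).image (fun x => algebraMap A E x.1 + x.2)
  let Φ : E → TW ℓ × (E ⧸ (Algebra.linearMap A E).range) :=
    fun v => (⟨v, 0⟩, Submodule.Quotient.mk (v ^ 2))
  have hℓD : ∀ v ∈ D, ℓ v ∈ P := by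
    intro v hv
    obtain ⟨⟨x, w⟩, hxw, rfl⟩ := Finset.mem_image.mp hv
    rw [Finset.mem_product] at hxw
    have hw : ℓ w = 0 := (Finset.mem_filter.mp hxw.2).2
    rw [map_add, hℓ, hw, add_zero]
    exact hxw.1
  have hDc : D.card = P.card * W.card := by
    rw [Finset.card_image_of_injOn, Finset.card_product]
    rintro ⟨x, w⟩ hxw ⟨x', w'⟩ hxw' h
    rw [Finset.mem_coe, Finset.mem_product] at hxw hxw'
    have hw : ℓ w = 0 := (Finset.mem_filter.mp hxw.2).2
    have hw' : ℓ w' = 0 := (Finset.mem_filter.mp hxw'.2).2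
    have h1 : ℓ (algebraMap A E x + w) = ℓ (algebraMap A E x' + w') := congrArg ℓ h
    rw [map_add, map_add, hℓ, hℓ, hw, hw', add_zero, add_zero] at h1
    subst h1
    have h4 : w = w' := add_left_cancel h
    rw [h4]
  have hWc : Fintype.card E ≤ Fintype.card A * W.card := by
    have hsub : (Finset.univ : Finset E) ⊆
        ((Finset.univ : Finset A) ×ˢ W).image (fun x => algebraMap A E x.1 + x.2) := by
      intro v _
      rw [Finset.mem_image]
      refine ⟨(ℓ v, v - algebraMap A E (ℓ v)), ?_, ?_⟩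
      · rw [Finset.mem_product]
        refine ⟨Finset.mem_univ _, Finset.mem_filter.mpr ⟨Finset.mem_univ _, ?_⟩⟩
        rw [map_sub, hℓ, sub_self]
      · simp
    calc Fintype.card E = (Finset.univ : Finset E).card := rfl
      _ ≤ _ := Finset.card_le_card hsub
      _ ≤ ((Finset.univ : Finset A) ×ˢ W).card := Finset.card_image_le
      _ = Fintype.card A * W.card := by rw [Finset.card_product]; rfl
  have hΦinj : Function.Injective Φ := by
    intro v w h
    exact congrArg (fun x => x.1.v) h
  refine ⟨D.image Φ, ?_, ?_⟩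
  · intro a ha b hb c hc d hd h
    obtain ⟨v, hv, rfl⟩ := Finset.mem_image.mp ha
    obtain ⟨v', hv', rfl⟩ := Finset.mem_image.mp hb
    obtain ⟨w, hw, rfl⟩ := Finset.mem_image.mp hc
    obtain ⟨w', hw', rfl⟩ := Finset.mem_image.mp hd
    have e1 : v + v' = w + w' := congrArg (fun x => x.1.v) h
    have e2 : (0 : A) + 0 - ℓ (v * v' * (v + v')) = 0 + 0 - ℓ (w * w' * (w + w')) :=
      congrArg (fun x => x.1.z) h
    have e3 : (Submodule.Quotient.mk (v ^ 2) + Submodule.Quotient.mk (v' ^ 2) :
        E ⧸ (Algebra.linearMap A E).range) =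
        Submodule.Quotient.mk (w ^ 2) + Submodule.Quotient.mk (w' ^ 2) :=
      congrArg (fun x => x.2) h
    rw [← Submodule.Quotient.mk_add, ← Submodule.Quotient.mk_add, Submodule.Quotient.eq] at e3
    obtain ⟨t, ht⟩ := e3
    have ht' : algebraMap A E t = v ^ 2 + v' ^ 2 - (w ^ 2 + w' ^ 2) := ht
    -- v v' - w w' = t  (as -2 = 1)
    have e4 : v * v' - w * w' = algebraMap A E t := by
      rw [ht']
      linear_combination (v * v' - w * w') * h3E - (v + v' + w + w') * e1
    have e5 : ℓ (v * v' * (v + v') - w * w' * (v + v')) = 0 := by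
      rw [map_sub]
      rw [← e1] at e2
      linear_combination -e2
    have e6 : v * v' * (v + v') - w * w' * (v + v') = t • (v + v') := by
      rw [Algebra.smul_def, ← e4]
      ring
    rw [e6, map_smul, smul_eq_mul] at e5
    have e7 : ℓ (v + v') ≠ 0 := by
      rw [map_add]
      exact hP _ (hℓD v hv) _ (hℓD v' hv')
    have e8 : t = 0 := (mul_eq_zero.mp e5).resolve_right e7
    rw [e8, map_zero] at e4
    have e9 : (v - w) * (v - w') = 0 := by
      linear_combination -e4 + v * e1
    rcases mul_eq_zero.mp e9 with h0 | h0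
    · left
      have h1 : v = w := sub_eq_zero.mp h0
      subst h1
      have h2 : v' = w' := add_left_cancel e1
      rw [h2]
      exact ⟨rfl, rfl⟩
    · right
      have h1 : v = w' := sub_eq_zero.mp h0
      subst h1
      have h2 : v' = w := by linear_combination e1
      rw [h2]
      exact ⟨rfl, rfl⟩
  · rw [Finset.card_image_of_injective _ hΦinj, hDc]
    have hA3 : 3 ≤ Fintype.card A := by
      have : 1 < Fintype.card A := Fintype.one_lt_card
      by_contra hcon
      have hc2 : Fintype.card A = 2 := by omega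
      have h4 : ((2 : ℕ) : A) = 0 := by rw [← hc2]; exact FiniteField.cast_card_eq_zero A
      exact h2 (by exact_mod_cast h4)
    have hP1 : Fintype.card A ≤ 3 * P.card := by omega
    calc Fintype.card E ≤ Fintype.card A * W.card := hWc
      _ ≤ 3 * P.card * W.card := Nat.mul_le_mul_right _ hP1
      _ = 3 * (P.card * W.card) := by ring

end Pool.Agent.Helper75.Sidon
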