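import Pool.Agent.Helper75.Sidon.Nine

/-! Sidon sets of size at least `√n / 3` in the groups `(ℤ/9)^a × (ℤ/3)^(2ab)`: assembly. -/

namespace Pool.Agent.Helper75.Sidon

open Module Polynomial

theorem nine_abstract (A E : Type) [Field A] [Fintype A] [Field E] [Fintype E] [Algebra A E]
    [CharP A 3] [CharP E 3] (a b : ℕ) (hA : Nat.card A = 3 ^ a)
    (hE : Nat.card E = 3 ^ (a * (b + 1))) :
    ∃ (M : Type) (_ : AddCommGroup M) (_ : Fintype M),
      Nonempty (((Fin a → ZMod 9) × (Fin (2 * a * b) → ZMod 3)) ≃+ M) ∧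
      ∃ S : Finset M, IsSidon S ∧ 3 ^ (a * (b + 1)) ≤ 3 * S.card := by
  classical
  have h3E : (3 : E) = 0 := by exact_mod_cast CharP.cast_eq_zero E 3
  obtain ⟨ℓ, hℓ⟩ := (Algebra.linearMap A E).exists_leftInverse_of_injective
    (LinearMap.ker_eq_bot.mpr (algebraMap A E).injective)
  have hℓ' : ∀ x : A, ℓ (algebraMap A E x) = x := fun x => LinearMap.congr_fun hℓ x
  set R := (Algebra.linearMap A E).range with hR
  have : Finite (TW ℓ) := Finite.of_equiv _ (TW.equivProd ℓ).symm
  have : Fintype (TW ℓ) := Fintype.ofFinite _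
  have : Finite (E ⧸ R) := Finite.of_surjective _ (Submodule.Quotient.mk_surjective R)
  have : Fintype (E ⧸ R) := Fintype.ofFinite _
  have hRc : Nat.card R = 3 ^ a := by
    rw [← hA]
    exact Nat.card_congr (LinearEquiv.ofInjective (Algebra.linearMap A E)
      (algebraMap A E).injective).toEquiv.symm
  have hq : Nat.card (E ⧸ R) = 3 ^ (a * b) := by
    have h1 : Nat.card E = Nat.card (E ⧸ R.toAddSubgroup) * Nat.card R.toAddSubgroup :=
      AddSubgroup.card_eq_card_quotient_mul_card_addSubgroup _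
    have h2 : Nat.card R.toAddSubgroup = 3 ^ a := hRc
    have h3 : Nat.card (E ⧸ R.toAddSubgroup) = Nat.card (E ⧸ R) := rfl
    rw [h2, h3, hE] at h1
    have h4 : 3 ^ a * Nat.card (E ⧸ R) = 3 ^ a * 3 ^ (a * b) := by
      rw [mul_comm, ← h1, ← pow_add]
      congr 1
      ring
    exact Nat.eq_of_mul_eq_mul_left (by positivity) h4
  have hTW : Nat.card (TW ℓ) = 3 ^ (a * (b + 1)) * 3 ^ a := by
    rw [Nat.card_congr (TW.equivProd ℓ), Nat.card_prod, hE, hA]
  obtain ⟨S, hS, hSc⟩ := exists_sidon_tw A E ℓ hℓ'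
  refine ⟨TW ℓ × (E ⧸ R), inferInstance, inferInstance, ?_, S, hS, ?_⟩
  · have hq3 : ∀ y : E ⧸ R, 3 • y = 0 := by
      intro y
      obtain ⟨e, rfl⟩ := Submodule.Quotient.mk_surjective R y
      rw [← Submodule.Quotient.mk_smul]
      have : 3 • e = 0 := by
        rw [nsmul_eq_mul]
        push_cast
        rw [h3E, zero_mul]
      rw [this, Submodule.Quotient.mk_zero]
    apply iso_nine
    · rintro ⟨x, y⟩
      refine Prod.ext ?_ ?_
      · exact TW.nine_nsmul x
      · show 9 • y = 0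
        rw [show 9 = 3 * 3 by norm_num, mul_nsmul, hq3]
    · rw [Nat.card_prod, hTW, hq]
      have : (9 : ℕ) = 3 ^ 2 := by norm_num
      rw [this, ← pow_mul, ← pow_add, ← pow_add, ← pow_add]
      congr 1
      ring
    · rw [← hA]
      have hsurj : Function.Surjective (frobenius A 3) := by
        have : Fact (Nat.Prime 3) := ⟨by norm_num⟩
        exact (Finite.injective_iff_surjective.mp (frobenius_inj A 3))
      let f : A → (nsmulAddMonoidHom 3 : (TW ℓ × (E ⧸ R)) →+ (TW ℓ × (E ⧸ R))).range :=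
        fun z => ⟨(⟨0, z⟩, 0), by
          obtain ⟨c, hc⟩ := hsurj z
          refine ⟨(⟨algebraMap A E c, 0⟩, 0), ?_⟩
          refine Prod.ext ?_ ?_
          · show 3 • (⟨algebraMap A E c, 0⟩ : TW ℓ) = ⟨0, z⟩
            rw [TW.three_nsmul]
            have : ℓ (algebraMap A E c ^ 3) = z := by
              rw [← map_pow, hℓ', ← hc]
              rfl
            rw [this]
          · show 3 • (0 : E ⧸ R) = 0
            rw [nsmul_zero]⟩
      symm
      apply Nat.card_congr
      apply Equiv.ofBijective f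
      constructor
      · intro z z' h
        exact congrArg (fun x : (nsmulAddMonoidHom 3 :
          (TW ℓ × (E ⧸ R)) →+ (TW ℓ × (E ⧸ R))).range => x.1.1.z) h
      · rintro ⟨_, ⟨⟨x, y⟩, rfl⟩⟩
        refine ⟨ℓ (x.v ^ 3), ?_⟩
        apply Subtype.ext
        refine Prod.ext ?_ ?_
        · show (⟨0, ℓ (x.v ^ 3)⟩ : TW ℓ) = 3 • x
          rw [TW.three_nsmul]
        · show (0 : E ⧸ R) = 3 • y
          rw [hq3]
  · rw [← hE, Nat.card_eq_fintype_card]
    exact hSc

theorem nine_family (a b : ℕ) (G : Type) [AddCommGroup G] [Fintype G]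
    (e : G ≃+ ((Fin a → ZMod 9) × (Fin (2 * a * b) → ZMod 3))) :
    ∃ A : Finset G, IsSidon A ∧ Real.sqrt (Fintype.card G) ≤ 3 * A.card := by
  classical
  have : Fact (Nat.Prime 3) := ⟨by norm_num⟩
  have hcard : Fintype.card G = (3 ^ (a * (b + 1))) ^ 2 := by
    rw [← Nat.card_eq_fintype_card, Nat.card_congr e.toEquiv, Nat.card_prod, Nat.card_pi,
      Nat.card_pi]
    simp only [Nat.card_zmod, Finset.prod_const, Finset.card_univ, Fintype.card_fin]
    have : (9 : ℕ) = 3 ^ 2 := by norm_num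
    rw [this, ← pow_mul, ← pow_mul, ← pow_add]
    congr 1
    ring
  have hsq : Real.sqrt (Fintype.card G) = 3 ^ (a * (b + 1)) := by
    rw [hcard]
    push_cast
    exact Real.sqrt_sq (by positivity)
  rw [hsq]
  rcases Nat.eq_zero_or_pos a with h0 | h0
  · subst h0
    refine ⟨{0}, ?_, ?_⟩
    · intro a ha b hb c hc d hd _
      rw [Finset.mem_singleton] at ha hb hc hd
      left
      rw [ha, hb, hc, hd]
      exact ⟨rfl, rfl⟩
    · simp
  · have : Fintype (GaloisField 3 a) := Fintype.ofFinite _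
    have hA : Nat.card (GaloisField 3 a) = 3 ^ a := GaloisField.card 3 a (by omega)
    obtain ⟨T, hT, hTc⟩ := count_irred (GaloisField 3 a) (b + 1) (by omega)
    have hTne : T.Nonempty := by
      rw [Finset.nonempty_iff_ne_empty]
      rintro rfl
      simp at hTc
    obtain ⟨P, hPT⟩ := hTne
    obtain ⟨hPm, hPi, hPd⟩ := hT P hPT
    have : Fact (Irreducible P) := ⟨hPi⟩
    have hfd : FiniteDimensional (GaloisField 3 a) (AdjoinRoot P) :=
      (AdjoinRoot.powerBasis hPi.ne_zero).finite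
    have hfin : Finite (AdjoinRoot P) := Module.finite_of_finite (GaloisField 3 a)
    have : Fintype (AdjoinRoot P) := Fintype.ofFinite _
    have : CharP (AdjoinRoot P) 3 :=
      charP_of_injective_algebraMap (algebraMap (GaloisField 3 a) (AdjoinRoot P)).injective 3
    have hE : Nat.card (AdjoinRoot P) = 3 ^ (a * (b + 1)) := by
      have h1 : Nat.card (AdjoinRoot P) =
          Nat.card (GaloisField 3 a) ^ finrank (GaloisField 3 a) (AdjoinRoot P) :=
        Module.natCard_eq_pow_finrank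
      have h2 : finrank (GaloisField 3 a) (AdjoinRoot P) = b + 1 := by
        rw [(AdjoinRoot.powerBasis hPi.ne_zero).finrank, AdjoinRoot.powerBasis_dim, hPd]
      rw [h1, hA, h2, ← pow_mul]
    obtain ⟨M, i1, i2, ⟨φ⟩, S, hS, hSc⟩ := nine_abstract (GaloisField 3 a) (AdjoinRoot P) a b hA hE
    let ψ : M ≃+ G := (e.trans φ).symm
    refine ⟨S.image ψ, ?_, ?_⟩
    · intro x hx y hy z hz w hw h
      obtain ⟨x', hx', rfl⟩ := Finset.mem_image.mp hx
      obtain ⟨y', hy', rfl⟩ := Finset.mem_image.mp hy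
      obtain ⟨z', hz', rfl⟩ := Finset.mem_image.mp hz
      obtain ⟨w', hw', rfl⟩ := Finset.mem_image.mp hw
      rw [← map_add, ← map_add] at h
      rcases hS x' hx' y' hy' z' hz' w' hw' (ψ.injective h) with ⟨h1, h2⟩ | ⟨h1, h2⟩
      · left; rw [h1, h2]; exact ⟨rfl, rfl⟩
      · right; rw [h1, h2]; exact ⟨rfl, rfl⟩
    · rw [Finset.card_image_of_injective _ ψ.injective]
      exact_mod_cast hSc

end Pool.Agent.Helper75.Sidon
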