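import Pool.Agent.Helper75.Sidon.Defs

/-! Translation averaging. -/

namespace Pool.Agent.Helper75.Sidon

open Finset

theorem transfer {ι κ K : Type*} [AddCommGroup ι] [AddCommGroup K] [Fintype K] [DecidableEq ι]
    [DecidableEq κ] [DecidableEq K] (T : Finset κ) (Ψ : κ → K)
    (hΨ : ∀ a ∈ T, ∀ b ∈ T, ∀ c ∈ T, ∀ d ∈ T, Ψ a + Ψ b = Ψ c + Ψ d →
      (a = c ∧ b = d) ∨ (a = d ∧ b = c))
    (D : Finset ι) (φ : ι → K) (hφ : ∀ x ∈ D, ∀ y ∈ D, φ x = φ y → x = y)
    (hom : ∀ w ∈ D, ∀ x ∈ D, ∀ y ∈ D, ∀ z ∈ D, w + x = y + z → φ w + φ x = φ y + φ z) :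
    ∃ S : Finset ι, S ⊆ D ∧ IsSidon S ∧ T.card * D.card ≤ S.card * Fintype.card K := by
  have hinj : ∀ a ∈ T, ∀ b ∈ T, Ψ a = Ψ b → a = b := by
    intro a ha b hb h
    rcases hΨ a ha a ha b hb b hb (by rw [h]) with h1 | h1
    · exact h1.1
    · exact h1.1
  have hcard : (T.image Ψ).card = T.card :=
    Finset.card_image_of_injOn (fun a ha b hb h => hinj a ha b hb h)
  let S : K → Finset ι := fun t => D.filter (fun x => φ x - t ∈ T.image Ψ)
  have hsum : ∑ t : K, (S t).card = T.card * D.card := by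
    simp only [S, Finset.card_filter]
    rw [Finset.sum_comm]
    have : ∀ x ∈ D, (∑ t : K, if φ x - t ∈ T.image Ψ then 1 else 0) = T.card := by
      intro x _
      rw [← Finset.card_filter, ← hcard]
      apply Finset.card_bij (fun t _ => φ x - t)
      · intro t ht
        simpa using ht
      · intro t _ t' _ h
        exact sub_right_injective h
      · intro u hu
        refine ⟨φ x - u, ?_, by abel⟩
        rw [Finset.mem_filter]
        refine ⟨Finset.mem_univ _, ?_⟩
        have : φ x - (φ x - u) = u := by abel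
        rw [this]
        exact hu
    rw [Finset.sum_congr rfl this, Finset.sum_const, smul_eq_mul, mul_comm]
  obtain ⟨t, ht⟩ : ∃ t : K, T.card * D.card ≤ (S t).card * Fintype.card K := by
    by_contra hcon
    push Not at hcon
    have hne : (Finset.univ : Finset K).Nonempty := ⟨0, Finset.mem_univ _⟩
    have h1 : ∑ t : K, (S t).card * Fintype.card K < ∑ _t : K, T.card * D.card :=
      Finset.sum_lt_sum_of_nonempty hne (fun t _ => hcon t)
    rw [← Finset.sum_mul, hsum, Finset.sum_const, smul_eq_mul, Finset.card_univ] at h1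
    rw [mul_comm (Fintype.card K)] at h1
    exact lt_irrefl _ h1
  refine ⟨S t, Finset.filter_subset _ _, ?_, ht⟩
  intro w hw x hx y hy z hz h
  simp only [S, Finset.mem_filter, Finset.mem_image] at hw hx hy hz
  obtain ⟨hwD, a, ha, ea⟩ := hw
  obtain ⟨hxD, b, hb, eb⟩ := hx
  obtain ⟨hyD, c, hc, ec⟩ := hy
  obtain ⟨hzD, d, hd, ed⟩ := hz
  have h1 := hom w hwD x hxD y hyD z hzD h
  have h2 : Ψ a + Ψ b = Ψ c + Ψ d := by
    rw [ea, eb, ec, ed]
    have : φ w - t + (φ x - t) = (φ w + φ x) - (t + t) := by abel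
    rw [this, h1]; abel
  rcases hΨ a ha b hb c hc d hd h2 with ⟨r1, r2⟩ | ⟨r1, r2⟩
  · left
    refine ⟨hφ w hwD y hyD ?_, hφ x hxD z hzD ?_⟩
    · have : φ w - t = φ y - t := by rw [← ea, ← ec, r1]
      exact sub_left_injective this
    · have : φ x - t = φ z - t := by rw [← eb, ← ed, r2]
      exact sub_left_injective this
  · right
    refine ⟨hφ w hwD z hzD ?_, hφ x hxD y hyD ?_⟩
    · have : φ w - t = φ z - t := by rw [← ea, ← ed, r1]
      exact sub_left_injective this
    · have : φ x - t = φ y - t := by rw [← eb, ← ec, r2]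
      exact sub_left_injective this

end Pool.Agent.Helper75.Sidon
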