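import Pool.Agent.Helper75.Sidon.EmbedGen

/-! The unit group of `F_p[X]/(f ^ p)` and near optimal Sidon sets in `V × [0, M)` for
`|V| ≤ M ^ (p - 1)`. -/

namespace Pool.Agent.Helper75.Sidon

open Polynomial Finset

/-- A product of two irreducibles is determined modulo a modulus of degree `2 d`. -/
theorem sidon_of_dvd {F : Type*} [Field F] (m P1 P2 P3 P4 : F[X]) (d : ℕ) (hm : m.Monic)
    (hdm : 2 * d ≤ m.natDegree)
    (m1 : P1.Monic) (m2 : P2.Monic) (m3 : P3.Monic) (m4 : P4.Monic)
    (i1 : Irreducible P1) (i2 : Irreducible P2) (i3 : Irreducible P3) (i4 : Irreducible P4)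
    (d1 : P1.natDegree = d) (d2 : P2.natDegree = d) (d3 : P3.natDegree = d) (d4 : P4.natDegree = d)
    (h : m ∣ P1 * P2 - P3 * P4) : (P1 = P3 ∧ P2 = P4) ∨ (P1 = P4 ∧ P2 = P3) := by
  apply pair_unique P1 P2 P3 P4 m1 m2 m3 m4 i1 i2 i3 i4
  have hA : (P1 * P2).natDegree = 2 * d := by
    rw [m1.natDegree_mul m2, d1, d2]; ring
  have hB : (P3 * P4).natDegree = 2 * d := by
    rw [m3.natDegree_mul m4, d3, d4]; ring
  have hmA := m1.mul m2
  have hmB := m3.mul m4
  by_contra hne
  have hne0 : P1 * P2 - P3 * P4 ≠ 0 := sub_ne_zero.mpr hne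
  have hlt : (P1 * P2 - P3 * P4).degree < (P1 * P2).degree := by
    apply degree_sub_lt_left
    · rw [degree_eq_natDegree hmA.ne_zero, degree_eq_natDegree hmB.ne_zero, hA, hB]
    · exact hmA.ne_zero
    · rw [hmA.leadingCoeff, hmB.leadingCoeff]
  have hle := degree_le_of_dvd h hne0
  rw [degree_eq_natDegree hm.ne_zero] at hle
  rw [degree_eq_natDegree hmA.ne_zero, hA] at hlt
  have h1 : ((2 * d : ℕ) : WithBot ℕ) ≤ (m.natDegree : WithBot ℕ) := by exact_mod_cast hdm
  exact absurd (le_trans h1 hle) (not_le.mpr hlt)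

theorem adjoin_card (p : ℕ) [Fact p.Prime] (g : (ZMod p)[X]) (hg : g.Monic) :
    Finite (AdjoinRoot g) ∧ Nat.card (AdjoinRoot g) = p ^ g.natDegree := by
  have hfin : Module.Finite (ZMod p) (AdjoinRoot g) := hg.finite_adjoinRoot
  have hfin2 : Finite (AdjoinRoot g) := Module.finite_of_finite (ZMod p)
  refine ⟨hfin2, ?_⟩
  rw [Module.natCard_eq_pow_finrank (K := ZMod p), Nat.card_zmod,
    (AdjoinRoot.powerBasis' hg).finrank, AdjoinRoot.powerBasis'_dim]

/-- A generator of the unit group of `F_{p^n}` as an element of the field. -/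
theorem exists_gen' (p : ℕ) [Fact p.Prime] (n : ℕ) (hn : n ≠ 0) :
    ∃ α : GaloisField p n, IsIntegral (ZMod p) α ∧ (minpoly (ZMod p) α).natDegree = n ∧
      α ≠ 0 ∧ orderOf α = p ^ n - 1 := by
  have : Finite (GaloisField p n)ˣ := inferInstance
  obtain ⟨g, hg⟩ := IsCyclic.exists_generator (α := (GaloisField p n)ˣ)
  have hint : IsIntegral (ZMod p) (g : GaloisField p n) := Algebra.IsIntegral.isIntegral _
  have htop : IntermediateField.adjoin (ZMod p) {(g : GaloisField p n)} = ⊤ := by
    rw [eq_top_iff]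
    rintro x -
    by_cases hx : x = 0
    · rw [hx]
      exact (IntermediateField.adjoin (ZMod p) {(g : GaloisField p n)}).zero_mem
    · obtain ⟨m, hm⟩ := Subgroup.mem_zpowers_iff.mp (hg (Units.mk0 x hx))
      have : x = (g : GaloisField p n) ^ m := by
        have h := congrArg (fun u : (GaloisField p n)ˣ => (u : GaloisField p n)) hm
        simpa using h.symm
      rw [this]
      exact zpow_mem (IntermediateField.mem_adjoin_simple_self (ZMod p) (g : GaloisField p n)) m
  refine ⟨g, hint, ?_, g.ne_zero, ?_⟩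
  · rw [(Field.primitive_element_iff_minpoly_natDegree_eq (ZMod p) _).mp htop,
      GaloisField.finrank p hn]
  · rw [orderOf_units, orderOf_eq_card_of_forall_mem_zpowers hg, Nat.card_units,
      GaloisField.card p n hn]

/-- The unit attached to an element of a ring, in additive notation. -/
noncomputable def uA {A : Type*} [CommRing A] (x : A) : Additive Aˣ :=
  open Classical in if h : IsUnit x then Additive.ofMul h.unit else 0

theorem uA_val {A : Type*} [CommRing A] {x : A} (hx : IsUnit x) :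
    ((Additive.toMul (uA x) : Aˣ) : A) = x := by
  unfold uA
  rw [dif_pos hx]
  rfl

theorem uA_add {A : Type*} [CommRing A] {x y z w : A} (hx : IsUnit x) (hy : IsUnit y)
    (hz : IsUnit z) (hw : IsUnit w) (h : uA x + uA y = uA z + uA w) : x * y = z * w := by
  have h1 := congrArg (fun t : Additive Aˣ => ((Additive.toMul t : Aˣ) : A)) h
  simp only [toMul_add, Units.val_mul, uA_val hx, uA_val hy, uA_val hz, uA_val hw] at h1
  exact h1

theorem isUnit_mk {F : Type*} [Field F] (g P : F[X]) (h : IsCoprime P g) :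
    IsUnit (AdjoinRoot.mk g P) := by
  obtain ⟨a, b, hab⟩ := h
  have h1 := congrArg (AdjoinRoot.mk g) hab
  rw [map_add, map_mul, map_mul, AdjoinRoot.mk_self, mul_zero, add_zero, map_one] at h1
  exact IsUnit.of_mul_eq_one _ (by rw [mul_comm]; exact h1)

/-- Elementary abelian groups embed when the cardinality is large enough. -/
theorem exists_inj_of_mod (p : ℕ) [Fact p.Prime] (W : Type) [AddCommGroup W] [Finite W]
    [Module (ZMod p) W] (N : ℕ) (hcard : p ^ N ≤ Nat.card W) (V : Type)
    [AddCommGroup V] [Module (ZMod p) V] [Fintype V]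
    (hV : Module.finrank (ZMod p) V < N) : ∃ j : V →+ W, Function.Injective j := by
  have hpp : p.Prime := Fact.out
  have hfV : Module.Finite (ZMod p) V := Module.Finite.of_finite
  have hfW : Module.Finite (ZMod p) W := Module.Finite.of_finite
  have hfr : N ≤ Module.finrank (ZMod p) W := by
    rw [Module.natCard_eq_pow_finrank (K := ZMod p), Nat.card_zmod] at hcard
    exact (Nat.pow_le_pow_iff_right hpp.one_lt).mp hcard
  have hr : Module.rank (ZMod p) V < Module.rank (ZMod p) W := by
    rw [← Module.finrank_eq_rank, ← Module.finrank_eq_rank]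
    exact_mod_cast lt_of_lt_of_le hV hfr
  obtain ⟨ℓ, hℓ⟩ := Module.Free.exists_linearMap_injective_of_rank_lt hr
  exact ⟨ℓ.toAddMonoidHom, hℓ⟩

theorem exists_inj_of_exp (p : ℕ) [Fact p.Prime] (W : Type) [AddCommGroup W] [Finite W]
    (hW : ∀ x : W, p • x = 0) (N : ℕ) (hcard : p ^ N ≤ Nat.card W) (V : Type)
    [AddCommGroup V] [Module (ZMod p) V] [Fintype V]
    (hV : Module.finrank (ZMod p) V < N) : ∃ j : V →+ W, Function.Injective j :=
  @exists_inj_of_mod p _ W _ _ (AddCommGroup.zmodModule hW) N hcard V _ _ _ hV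

section ring

variable (p : ℕ) [Fact p.Prime] (f : (ZMod p)[X])

theorem mk_one_add_pow (w : (ZMod p)[X]) : (AdjoinRoot.mk (f ^ p) (1 + f * w)) ^ p = 1 := by
  rw [← map_pow, add_pow_char, one_pow, mul_pow, map_add, map_mul, AdjoinRoot.mk_self, zero_mul,
    add_zero, map_one]

theorem exists_j (hf : f.Monic) (n : ℕ) (hn : f.natDegree = n) (V : Type)
    [AddCommGroup V] [Module (ZMod p) V] [Fintype V]
    (hV : Module.finrank (ZMod p) V < (p - 1) * n) :
    ∃ j : V →+ Additive (AdjoinRoot (f ^ p))ˣ, Function.Injective j := by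
  have hpp : p.Prime := Fact.out
  have hp1 : 1 ≤ p := hpp.one_lt.le
  obtain ⟨hfin, -⟩ := adjoin_card p (f ^ p) (hf.pow p)
  have hfinU : Finite (AdjoinRoot (f ^ p))ˣ := inferInstance
  have hfinA : Finite (Additive (AdjoinRoot (f ^ p))ˣ) := hfinU
  let W : AddSubgroup (Additive (AdjoinRoot (f ^ p))ˣ) := (nsmulAddMonoidHom p).ker
  have hW : ∀ x : W, p • x = 0 := by
    intro x
    apply Subtype.ext
    have := x.2
    rw [AddMonoidHom.mem_ker] at this
    exact this
  have hcard : p ^ ((p - 1) * n) ≤ Nat.card W := by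
    have hcop : ∀ w : (ZMod p)[X], IsCoprime (1 + f * w) (f ^ p) := by
      intro w
      apply IsCoprime.pow_right
      exact ⟨1, -w, by ring⟩
    have hmem : ∀ w : (ZMod p)[X], uA (AdjoinRoot.mk (f ^ p) (1 + f * w)) ∈ W := by
      intro w
      rw [AddMonoidHom.mem_ker]
      apply Additive.toMul.injective
      apply Units.ext
      show ((Additive.toMul (p • uA (AdjoinRoot.mk (f ^ p) (1 + f * w))) :
        (AdjoinRoot (f ^ p))ˣ) : AdjoinRoot (f ^ p)) = _
      rw [toMul_nsmul, Units.val_pow_eq_pow_val, uA_val (isUnit_mk _ _ (hcop w)),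
        mk_one_add_pow]
      rfl
    let F : Polynomial.degreeLT (ZMod p) ((p - 1) * n) → W := fun w => ⟨_, hmem w.1⟩
    have hF : Function.Injective F := by
      intro w w' h
      have h1 : uA (AdjoinRoot.mk (f ^ p) (1 + f * w.1)) =
          uA (AdjoinRoot.mk (f ^ p) (1 + f * w'.1)) := congrArg Subtype.val h
      have h2 := congrArg (fun t : Additive (AdjoinRoot (f ^ p))ˣ =>
        ((Additive.toMul t : (AdjoinRoot (f ^ p))ˣ) : AdjoinRoot (f ^ p))) h1
      simp only [uA_val (isUnit_mk _ _ (hcop w.1)), uA_val (isUnit_mk _ _ (hcop w'.1))] at h2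
      rw [AdjoinRoot.mk_eq_mk] at h2
      have h3 : f * f ^ (p - 1) ∣ f * (w.1 - w'.1) := by
        rw [← pow_succ', Nat.sub_add_cancel hp1]
        have : (1 + f * w.1) - (1 + f * w'.1) = f * (w.1 - w'.1) := by ring
        rw [← this]
        exact h2
      have h4 : f ^ (p - 1) ∣ w.1 - w'.1 := (mul_dvd_mul_iff_left hf.ne_zero).mp h3
      have h5 : (w.1 - w'.1).degree < (f ^ (p - 1)).degree := by
        rw [degree_eq_natDegree (hf.pow _).ne_zero, hf.natDegree_pow, hn]
        have h6 := Submodule.sub_mem _ w.2 w'.2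
        rw [Polynomial.mem_degreeLT] at h6
        exact h6
      have h7 := Polynomial.eq_zero_of_dvd_of_degree_lt h4 h5
      exact Subtype.ext (sub_eq_zero.mp h7)
    have hc1 : Nat.card (Polynomial.degreeLT (ZMod p) ((p - 1) * n)) = p ^ ((p - 1) * n) := by
      rw [Nat.card_congr (Polynomial.degreeLTEquiv (ZMod p) ((p - 1) * n)).toEquiv,
        Nat.card_fun, Nat.card_zmod]
      simp
    rw [← hc1]
    exact Nat.card_le_card_of_injective F hF
  obtain ⟨ℓ, hℓ⟩ := exists_inj_of_exp p W hW _ hcard V hV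
  exact ⟨W.subtype.comp ℓ, fun x y h => hℓ (Subtype.ext h)⟩

end ring

end Pool.Agent.Helper75.Sidon
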